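import Mathlib

/-!
# Host–Kra cubes of a filtered group

`Cu n` is the set of vertices of the `n`-dimensional cube.  For a filtration `A` of a group `G`,
`cube A n j` is the group of `n`-dimensional cubes relative to the filtration `A (j + ·)`.
-/

set_option autoImplicit false

namespace Pool.Agent.Lib.MP_663568_nt.Tw

/-- Vertices of the `n`-dimensional cube. -/
def Cu : ℕ → Type
  | 0 => Unit
  | n + 1 => Cu n ⊕ Cu n

instance instFin : ∀ n, Fintype (Cu n)
  | 0 => inferInstanceAs (Fintype Unit)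
  | n + 1 => by
      have := instFin n
      exact inferInstanceAs (Fintype (Cu n ⊕ Cu n))

instance instDec : ∀ n, DecidableEq (Cu n)
  | 0 => inferInstanceAs (DecidableEq Unit)
  | n + 1 => by
      have := instDec n
      exact inferInstanceAs (DecidableEq (Cu n ⊕ Cu n))

/-- The last vertex `(1, …, 1)`. -/
def last : (n : ℕ) → Cu n
  | 0 => ()
  | n + 1 => Sum.inr (last n)

/-- Lower face. -/
def lo {n : ℕ} (w : Cu n) : Cu (n + 1) := Sum.inl w

/-- Upper face. -/
def up {n : ℕ} (w : Cu n) : Cu (n + 1) := Sum.inr w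

lemma last_succ (n : ℕ) : last (n + 1) = up (last n) := rfl

lemma up_ne_last {n : ℕ} {w : Cu n} (h : w ≠ last n) : up w ≠ last (n + 1) := by
  intro e
  exact h (Sum.inr_injective e)

lemma lo_ne_last {n : ℕ} (w : Cu n) : lo w ≠ last (n + 1) := by
  intro e
  exact Sum.inl_ne_inr e

lemma cu_cases {n : ℕ} (w : Cu (n + 1)) : (∃ v, w = lo v) ∨ ∃ v, w = up v := by
  rcases w with v | v
  · exact Or.inl ⟨v, rfl⟩
  · exact Or.inr ⟨v, rfl⟩

section grp

variable {G : Type*} [Group G] (A : ℕ → Subgroup G)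

/-- `c` is an `n`-dimensional cube for the filtration `A (j + ·)`. -/
def IsCube : (n j : ℕ) → (Cu n → G) → Prop
  | 0, j, c => c () ∈ A j
  | n + 1, j, c => IsCube n j (fun w => c (lo w)) ∧
      IsCube n (j + 1) (fun w => (c (lo w))⁻¹ * c (up w))

lemma isCube_zero (j : ℕ) (c : Cu 0 → G) : IsCube A 0 j c ↔ c () ∈ A j := Iff.rfl

lemma isCube_succ (n j : ℕ) (c : Cu (n + 1) → G) : IsCube A (n + 1) j c ↔
    IsCube A n j (fun w => c (lo w)) ∧ IsCube A n (j + 1) (fun w => (c (lo w))⁻¹ * c (up w)) :=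
  Iff.rfl

variable (hanti : Antitone A) (hcomm : ∀ i j, ⁅A i, A j⁆ ≤ A (i + j))

include hanti in
lemma IsCube.mono : ∀ (n : ℕ) {i j : ℕ} (_ : i ≤ j) {c : Cu n → G} (_ : IsCube A n j c),
    IsCube A n i c
  | 0, i, j, hij, c, h => hanti hij h
  | n + 1, i, j, hij, c, h => ⟨IsCube.mono n hij h.1, IsCube.mono n (by omega) h.2⟩

lemma IsCube.one : ∀ (n j : ℕ), IsCube A n j (fun _ => (1 : G))
  | 0, j => (A j).one_mem
  | n + 1, j => ⟨IsCube.one n j, by simpa using IsCube.one n (j + 1)⟩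

/-- all the closure properties of cubes of dimension `n` -/
structure Facts (n : ℕ) : Prop where
  mul : ∀ (j : ℕ) (a b : Cu n → G), IsCube A n j a → IsCube A n j b →
    IsCube A n j (fun w => a w * b w)
  inv : ∀ (j : ℕ) (a : Cu n → G), IsCube A n j a → IsCube A n j (fun w => (a w)⁻¹)
  comm : ∀ (i j : ℕ) (a b : Cu n → G), IsCube A n i a → IsCube A n j b →
    IsCube A n (i + j) (fun w => a w * b w * (a w)⁻¹ * (b w)⁻¹)

include hanti in
lemma Facts.conj {n : ℕ} (F : Facts A n) {i j : ℕ} {a b : Cu n → G} (ha : IsCube A n i a)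
    (hb : IsCube A n j b) : IsCube A n j (fun w => a w * b w * (a w)⁻¹) := by
  have h1 := F.comm i j a b ha hb
  have h2 := F.mul j _ _ (IsCube.mono A hanti n (by omega : j ≤ i + j) h1) hb
  simpa using h2

include hanti hcomm in
theorem facts : ∀ n : ℕ, Facts A n
  | 0 => by
    refine ⟨?_, ?_, ?_⟩
    · intro j a b ha hb; exact (A j).mul_mem ha hb
    · intro j a ha; exact (A j).inv_mem ha
    · intro i j a b ha hb
      exact hcomm i j (Subgroup.commutator_mem_commutator ha hb)
  | n + 1 => by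
    have F := facts n
    refine ⟨?_, ?_, ?_⟩
    · intro j a b ha hb
      refine ⟨F.mul j _ _ ha.1 hb.1, ?_⟩
      have h1 := Facts.conj A hanti F (F.inv _ _ hb.1) ha.2
      have h2 := F.mul (j + 1) _ _ h1 hb.2
      refine (congrArg (IsCube A n (j + 1)) ?_).mp h2
      funext w
      group
    · intro j a ha
      refine ⟨F.inv j _ ha.1, ?_⟩
      have h1 := Facts.conj A hanti F ha.1 (F.inv _ _ ha.2)
      refine (congrArg (IsCube A n (j + 1)) ?_).mp h1
      funext w
      group
    · intro i j a b ha hb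
      refine ⟨F.comm i j _ _ ha.1 hb.1, ?_⟩
      -- `a`, `d`, `b`, `e`
      have hx := F.comm _ _ _ _ ha.2 hb.1
      have hy := F.comm _ _ _ _ ha.2 hb.2
      have hz := F.comm _ _ _ _ ha.1 hb.2
      have hx' := IsCube.mono A hanti n (show i + j + 1 ≤ i + 1 + j by omega) hx
      have hy' := IsCube.mono A hanti n (show i + j + 1 ≤ i + 1 + (j + 1) by omega) hy
      have hz' := IsCube.mono A hanti n (show i + j + 1 ≤ i + (j + 1) by omega) hz
      have hab := F.comm i j _ _ ha.1 hb.1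
      have hA := IsCube.mono A hanti n (Nat.zero_le i) ha.1
      have hB := IsCube.mono A hanti n (Nat.zero_le j) hb.1
      have k1 := Facts.conj A hanti F hA hx'
      have k2 := Facts.conj A hanti F (F.mul 0 _ _ hA hB) hy'
      have k3 := Facts.conj A hanti F hB hz'
      have k4 := F.mul _ _ _ k1 k2
      have k5 := Facts.conj A hanti F (F.inv _ _ hab) k4
      have k6 := F.mul _ _ _ k5 k3
      refine (congrArg (IsCube A n (i + j + 1)) ?_).mp k6
      funext w
      group

/-- The group of `n`-dimensional cubes. -/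
def cube (hanti : Antitone A) (hcomm : ∀ i j, ⁅A i, A j⁆ ≤ A (i + j)) (n j : ℕ) :
    Subgroup (Cu n → G) where
  carrier := {c | IsCube A n j c}
  mul_mem' := fun {a b} ha hb => (facts A hanti hcomm n).mul j a b ha hb
  one_mem' := IsCube.one A n j
  inv_mem' := fun {a} ha => (facts A hanti hcomm n).inv j a ha

lemma mem_cube (n j : ℕ) (c : Cu n → G) : c ∈ cube A hanti hcomm n j ↔ IsCube A n j c := Iff.rfl

lemma isCube_const : ∀ (n j : ℕ) (g : G), g ∈ A j → IsCube A n j (fun _ => g)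
  | 0, j, g, hg => hg
  | n + 1, j, g, hg => ⟨isCube_const n j g hg, by simpa using IsCube.one A n (j + 1)⟩

/-- If all the vertices but the last one are in `Γ`, the last one is in `Γ A_(n+j)`. -/
lemma last_mem (Γ : Subgroup G) : ∀ (n j : ℕ) (c : Cu n → G), IsCube A n j c →
    (∀ w, w ≠ last n → c w ∈ Γ) → ∃ γ ∈ Γ, ∃ x ∈ A (n + j), c (last n) = γ * x
  | 0, j, c, hc, _ => ⟨1, Γ.one_mem, c (), by rw [Nat.zero_add]; exact hc, by simp [last]⟩
  | n + 1, j, c, hc, h => by
    have h1 : ∀ w, c (lo w) ∈ Γ := fun w => h _ (lo_ne_last w)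
    obtain ⟨γ, hγ, x, hx, e⟩ := last_mem Γ n (j + 1) _ hc.2 (fun w hw =>
      Γ.mul_mem (Γ.inv_mem (h1 w)) (h _ (up_ne_last hw)))
    refine ⟨c (lo (last n)) * γ, Γ.mul_mem (h1 _) hγ, x, ?_, ?_⟩
    · rwa [show n + 1 + j = n + (j + 1) by ring]
    · rw [last_succ, mul_assoc, ← e]; group

/-- scalar products `ω · k`, with a base point: the function `c` of all the shifts -/
def shifts (k : ℕ → ℕ) : (n : ℕ) → Cu n → ℕ
  | 0, _ => 0
  | n + 1, w => Sum.elim (shifts k n) (fun v => k n + shifts k n v) w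

lemma shifts_lo (k : ℕ → ℕ) (n : ℕ) (w : Cu n) : shifts k (n + 1) (lo w) = shifts k n w := rfl

lemma shifts_up (k : ℕ → ℕ) (n : ℕ) (w : Cu n) :
    shifts k (n + 1) (up w) = k n + shifts k n w := rfl

include hanti hcomm in
/-- arithmetic cubes -/
lemma isCube_arith (h1 : A 1 = ⊤) (g : G) (k : ℕ → ℕ) :
    ∀ n : ℕ, IsCube A n 0 (fun w => g ^ shifts k n w)
  | 0 => by
    have h0 : A 0 = ⊤ := top_le_iff.mp (h1 ▸ hanti (Nat.zero_le 1))
    change g ^ _ ∈ A 0
    rw [h0]; trivial
  | n + 1 => by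
    refine ⟨isCube_arith h1 g k n, ?_⟩
    have := isCube_const A n 1 (g ^ k n) (by rw [h1]; trivial)
    refine (congrArg (IsCube A n 1) ?_).mp this
    funext w
    beta_reduce
    rw [shifts_lo, shifts_up, pow_add]
    have : g ^ k n * g ^ shifts k n w = g ^ shifts k n w * g ^ k n := by
      rw [← pow_add, ← pow_add, add_comm]
    rw [this]; group

include hanti hcomm in
/-- arithmetic cubes through a point -/
lemma isCube_orbit (h1 : A 1 = ⊤) (g x y : G) (k : ℕ → ℕ) (n : ℕ) :
    IsCube A n 0 (fun w => x * g ^ shifts k n w * y) := by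
  have h0 : A 0 = ⊤ := top_le_iff.mp (h1 ▸ hanti (Nat.zero_le 1))
  have F := facts A hanti hcomm n
  exact F.mul 0 _ _ (F.mul 0 _ _ (isCube_const A n 0 x (by rw [h0]; trivial))
    (isCube_arith A hanti hcomm h1 g k n)) (isCube_const A n 0 y (by rw [h0]; trivial))

end grp

end Pool.Agent.Lib.MP_663568_nt.Tw
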