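import Mathlib
import Pool.Agent.Lib.MP_663568_nt.Weyl
import Pool.Agent.Lib.MP_663568_nt_h86.Cube

/-!
# Box averages

`msum K n φ` is the sum of `φ (ω ↦ ω · k)` over all `k` with `1 ≤ k i ≤ K i`, `i < n`.
`BoxSmall n K η a` says that `a (l + k_0 + … + k_(n-1))` is orthogonal (up to `η`), on every box, to
all products of bounded functions of `l + ω · k`, `ω ≠ (1, …, 1)`.
-/

set_option autoImplicit false
open Finset Polynomial

namespace Pool.Agent.Lib.MP_663568_nt.Tw

open Katai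

/-- extend the shifts by the last coordinate `u` -/
def ext {n : ℕ} (d : Cu n → ℕ) (u : ℕ) : Cu (n + 1) → ℕ :=
  fun w => Sum.elim d (fun v => u + d v) w

lemma ext_lo {n : ℕ} (d : Cu n → ℕ) (u : ℕ) (w : Cu n) : ext d u (lo w) = d w := rfl

lemma ext_up {n : ℕ} (d : Cu n → ℕ) (u : ℕ) (w : Cu n) : ext d u (up w) = u + d w := rfl

/-- sum over a box -/
def msum {M : Type*} [AddCommMonoid M] (K : ℕ → ℕ) : (n : ℕ) → ((Cu n → ℕ) → M) → M
  | 0, φ => φ (fun _ => 0)
  | n + 1, φ => ∑ u ∈ Icc 1 (K n), msum K n (fun d => φ (ext d u))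

section

variable {M : Type*} [AddCommMonoid M] (K : ℕ → ℕ)

lemma msum_zero' (φ : (Cu 0 → ℕ) → M) : msum K 0 φ = φ (fun _ => 0) := rfl

lemma msum_succ (n : ℕ) (φ : (Cu (n + 1) → ℕ) → M) :
    msum K (n + 1) φ = ∑ u ∈ Icc 1 (K n), msum K n (fun d => φ (ext d u)) := rfl

lemma msum_add (n : ℕ) (φ ψ : (Cu n → ℕ) → M) :
    msum K n (fun d => φ d + ψ d) = msum K n φ + msum K n ψ := by
  induction n with
  | zero => rfl
  | succ n ih => simp only [msum_succ, ih, sum_add_distrib]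

lemma msum_const_zero (n : ℕ) : msum K n (fun _ => (0 : M)) = 0 := by
  induction n with
  | zero => rfl
  | succ n ih => simp only [msum_succ, ih, sum_const_zero]

lemma msum_sum {ι : Type*} (s : Finset ι) (n : ℕ) (φ : ι → (Cu n → ℕ) → M) :
    msum K n (fun d => ∑ i ∈ s, φ i d) = ∑ i ∈ s, msum K n (φ i) := by
  classical
  induction s using Finset.induction_on with
  | empty => simp only [sum_empty]; exact msum_const_zero K n
  | insert a s ha ih =>
    simp only [sum_insert ha]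
    rw [msum_add, ih]

lemma msum_map {M' : Type*} [AddCommMonoid M'] (f : M →+ M') (n : ℕ) (φ : (Cu n → ℕ) → M) :
    f (msum K n φ) = msum K n (fun d => f (φ d)) := by
  induction n with
  | zero => rfl
  | succ n ih => simp only [msum_succ, map_sum, ih]

lemma msum_congr_K (K K' : ℕ → ℕ) (n : ℕ) (h : ∀ i < n, K i = K' i) (φ : (Cu n → ℕ) → M) :
    msum K n φ = msum K' n φ := by
  induction n with
  | zero => rfl
  | succ n ih =>
    simp only [msum_succ]
    rw [h n (by omega)]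
    exact sum_congr rfl fun u _ => ih (fun i hi => h i (by omega)) _

end

/-- the number of terms -/
def vol (K : ℕ → ℕ) (n : ℕ) : ℝ := ∏ i ∈ range n, (K i : ℝ)

lemma vol_succ (K : ℕ → ℕ) (n : ℕ) : vol K (n + 1) = vol K n * K n := prod_range_succ _ _

lemma vol_nonneg (K : ℕ → ℕ) (n : ℕ) : 0 ≤ vol K n := prod_nonneg fun _ _ => Nat.cast_nonneg _

lemma vol_pos (K : ℕ → ℕ) (hK : ∀ i, 0 < K i) (n : ℕ) : 0 < vol K n :=
  prod_pos fun i _ => Nat.cast_pos.mpr (hK i)

lemma vol_congr (K K' : ℕ → ℕ) (n : ℕ) (h : ∀ i < n, K i = K' i) : vol K n = vol K' n :=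
  prod_congr rfl fun i hi => by rw [h i (mem_range.mp hi)]

lemma msum_mono (K : ℕ → ℕ) (n : ℕ) (φ ψ : (Cu n → ℕ) → ℝ) (h : ∀ d, φ d ≤ ψ d) :
    msum K n φ ≤ msum K n ψ := by
  induction n with
  | zero => exact h _
  | succ n ih => exact sum_le_sum fun u _ => ih _ _ fun d => h _

lemma msum_real_const (K : ℕ → ℕ) (n : ℕ) (c : ℝ) : msum K n (fun _ => c) = vol K n * c := by
  induction n with
  | zero => simp [msum, vol]
  | succ n ih =>
    rw [msum_succ, vol_succ]
    simp only [ih, sum_const, Nat.card_Icc, nsmul_eq_mul]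
    simp only [Nat.add_sub_cancel]
    ring

lemma norm_msum_le (K : ℕ → ℕ) (n : ℕ) (φ : (Cu n → ℕ) → ℂ) :
    ‖msum K n φ‖ ≤ msum K n (fun d => ‖φ d‖) := by
  induction n with
  | zero => exact le_rfl
  | succ n ih => exact (norm_sum_le _ _).trans (sum_le_sum fun u _ => ih _)

lemma norm_msum_le_vol (K : ℕ → ℕ) (n : ℕ) (φ : (Cu n → ℕ) → ℂ) (c : ℝ) (h : ∀ d, ‖φ d‖ ≤ c) :
    ‖msum K n φ‖ ≤ vol K n * c := by
  refine (norm_msum_le K n φ).trans ?_
  rw [← msum_real_const]
  exact msum_mono K n _ _ h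

lemma msum_sq (K : ℕ → ℕ) (n : ℕ) (φ : (Cu n → ℕ) → ℝ) :
    (msum K n φ) ^ 2 ≤ vol K n * msum K n (fun d => (φ d) ^ 2) := by
  induction n with
  | zero => simp [msum, vol]
  | succ n ih =>
    rw [msum_succ, msum_succ, vol_succ]
    calc (∑ u ∈ Icc 1 (K n), msum K n (fun d => φ (ext d u))) ^ 2
        ≤ #(Icc 1 (K n)) * ∑ u ∈ Icc 1 (K n), (msum K n (fun d => φ (ext d u))) ^ 2 :=
          sq_sum_le_card_mul_sum_sq
      _ ≤ #(Icc 1 (K n)) * ∑ u ∈ Icc 1 (K n),
          vol K n * msum K n (fun d => (φ (ext d u)) ^ 2) := by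
          gcongr with u hu
          exact ih _
      _ = _ := by
          rw [← mul_sum, Nat.card_Icc]
          simp only [Nat.add_sub_cancel]
          ring

/-- `a` is orthogonal to all products of bounded functions of the other vertices, on the box `K`. -/
def BoxSmall (n : ℕ) (K : ℕ → ℕ) (η : ℝ) (a : ℕ → ℂ) : Prop :=
  ∀ b : Cu n → ℕ → ℂ, (∀ w m, ‖b w m‖ ≤ 1) → ∀ l : ℕ,
    ‖msum K n (fun d => a (l + d (last n)) * ∏ w ∈ univ.erase (last n), b w (l + d w))‖
      ≤ η * vol K n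

lemma prod_cu_succ (n : ℕ) (g : Cu (n + 1) → ℂ) :
    ∏ w ∈ univ.erase (last (n + 1)), g w =
      (∏ v : Cu n, g (lo v)) * ∏ v ∈ univ.erase (last n), g (up v) := by
  classical
  have h1 : (univ.erase (last (n + 1)) : Finset (Cu (n + 1))) =
      (univ.map ⟨fun v : Cu n => (lo v : Cu (n + 1)), Sum.inl_injective⟩) ∪
        ((univ.erase (last n)).map ⟨fun v : Cu n => (up v : Cu (n + 1)), Sum.inr_injective⟩) := by
    ext w
    simp only [mem_erase, mem_univ, and_true, mem_union, mem_map, Function.Embedding.coeFn_mk,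
      true_and]
    constructor
    · intro hw
      rcases cu_cases w with ⟨v, rfl⟩ | ⟨v, rfl⟩
      · exact Or.inl ⟨v, rfl⟩
      · refine Or.inr ⟨v, ?_, rfl⟩
        rintro rfl
        exact hw rfl
    · rintro (⟨v, rfl⟩ | ⟨v, hv, rfl⟩)
      · exact lo_ne_last v
      · exact up_ne_last hv
  rw [h1, prod_union, prod_map, prod_map]
  · rfl
  · rw [disjoint_left]
    intro w hw hw'
    simp only [mem_map, mem_univ, true_and, Function.Embedding.coeFn_mk] at hw hw'
    obtain ⟨v, rfl⟩ := hw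
    obtain ⟨v', _, e⟩ := hw'
    exact Sum.inl_ne_inr e.symm

lemma norm_prod_le_one {ι : Type*} (s : Finset ι) (g : ι → ℂ) (h : ∀ i, ‖g i‖ ≤ 1) :
    ‖∏ i ∈ s, g i‖ ≤ 1 := by
  rw [norm_prod]
  exact prod_le_one (fun _ _ => norm_nonneg _) fun i _ => h i

/-- **The van der Corput step.** -/
theorem boxSmall_succ (n : ℕ) (K : ℕ → ℕ) (η η' : ℝ) (hη : 0 ≤ η)
    (a : ℕ → ℂ) (ha : ∀ m, ‖a m‖ ≤ 1) (hKn : 0 < K n) (hη2 : 1 / (K n : ℝ) + η' ≤ η ^ 2)
    (hη' : 0 ≤ η')
    (h : ∀ u ∈ Icc 1 (K n), ∀ v ∈ Icc 1 (K n), u ≠ v →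
      BoxSmall n K η' (fun m => a (m + u) * (starRingEnd ℂ) (a (m + v)))) :
    BoxSmall (n + 1) K η a := by
  classical
  intro b hb l
  set V := vol K n with hV
  have hV0 : 0 ≤ V := vol_nonneg K n
  set Gf : (Cu n → ℕ) → ℂ := fun d => ∏ v : Cu n, b (lo v) (l + d v) with hGf
  set Hf : ℕ → (Cu n → ℕ) → ℂ := fun u d => a (l + (u + d (last n))) *
    ∏ v ∈ univ.erase (last n), b (up v) (l + (u + d v)) with hHf
  have hG1 : ∀ d, ‖Gf d‖ ≤ 1 := fun d => norm_prod_le_one _ _ fun v => hb _ _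
  have hH1 : ∀ u d, ‖Hf u d‖ ≤ 1 := fun u d => by
    rw [hHf]; beta_reduce; rw [norm_mul]
    exact mul_le_one₀ (ha _) (norm_nonneg _) (norm_prod_le_one _ _ fun v => hb _ _)
  have hT : msum K (n + 1) (fun d => a (l + d (last (n + 1))) *
      ∏ w ∈ univ.erase (last (n + 1)), b w (l + d w)) =
      msum K n (fun d => Gf d * ∑ u ∈ Icc 1 (K n), Hf u d) := by
    rw [msum_succ, ← msum_sum]
    congr 1
    funext d
    rw [mul_sum]
    refine sum_congr rfl fun u _ => ?_
    rw [prod_cu_succ, last_succ]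
    simp only [ext_lo, ext_up, hGf, hHf]
    ring
  rw [hT]
  set S : (Cu n → ℕ) → ℂ := fun d => ∑ u ∈ Icc 1 (K n), Hf u d with hS
  have h1 : ‖msum K n (fun d => Gf d * S d)‖ ≤ msum K n (fun d => ‖S d‖) := by
    refine (norm_msum_le _ _ _).trans (msum_mono _ _ _ _ fun d => ?_)
    rw [norm_mul]
    exact mul_le_of_le_one_left (norm_nonneg _) (hG1 d)
  have h2 := msum_sq K n (fun d => ‖S d‖)
  -- expand the square
  have h3 : msum K n (fun d => ‖S d‖ ^ 2) =
      ∑ u ∈ Icc 1 (K n), ∑ v ∈ Icc 1 (K n),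
        (msum K n (fun d => Hf u d * (starRingEnd ℂ) (Hf v d))).re := by
    have e1 : (fun d => ‖S d‖ ^ 2) = fun d => Complex.reAddGroupHom
        (∑ u ∈ Icc 1 (K n), ∑ v ∈ Icc 1 (K n), Hf u d * (starRingEnd ℂ) (Hf v d)) := by
      funext d
      have e2 : ∑ u ∈ Icc 1 (K n), ∑ v ∈ Icc 1 (K n), Hf u d * (starRingEnd ℂ) (Hf v d)
          = S d * (starRingEnd ℂ) (S d) := by
        rw [hS]; beta_reduce
        rw [map_sum, sum_mul_sum]
      rw [e2, Complex.mul_conj, Complex.normSq_eq_norm_sq]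
      exact (Complex.ofReal_re _).symm
    rw [e1, ← msum_map, msum_sum]
    simp only [msum_sum]
    change Complex.re _ = _
    rw [Complex.re_sum]
    simp only [Complex.re_sum]
  have h4 : ∀ u ∈ Icc 1 (K n), ∀ v ∈ Icc 1 (K n),
      (msum K n (fun d => Hf u d * (starRingEnd ℂ) (Hf v d))).re ≤
        if u = v then V else η' * V := by
    intro u hu v hv
    refine (Complex.re_le_norm _).trans ?_
    split_ifs with huv
    · have := norm_msum_le_vol K n (fun d => Hf u d * (starRingEnd ℂ) (Hf v d)) 1 (fun d => by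
        rw [norm_mul, RCLike.norm_conj]
        exact mul_le_one₀ (hH1 _ _) (norm_nonneg _) (hH1 _ _))
      rwa [mul_one] at this
    · have := h u hu v hv huv
        (fun w m => b (up w) (m + u) * (starRingEnd ℂ) (b (up w) (m + v))) (fun w m => by
          rw [norm_mul, RCLike.norm_conj]
          exact mul_le_one₀ (hb _ _) (norm_nonneg _) (hb _ _)) l
      refine le_trans (le_of_eq ?_) this
      congr 2
      funext d
      simp only [hHf, map_mul, map_prod, prod_mul_distrib]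
      rw [show l + (u + d (last n)) = l + d (last n) + u by ring,
        show l + (v + d (last n)) = l + d (last n) + v by ring]
      have e3 : ∀ x, (∏ w ∈ univ.erase (last n), b (up w) (l + (x + d w))) =
          ∏ w ∈ univ.erase (last n), b (up w) (l + d w + x) := fun x =>
        prod_congr rfl fun w _ => by rw [show l + (x + d w) = l + d w + x by ring]
      have e4 : ∀ x, (∏ w ∈ univ.erase (last n), (starRingEnd ℂ) (b (up w) (l + (x + d w)))) =
          ∏ w ∈ univ.erase (last n), (starRingEnd ℂ) (b (up w) (l + d w + x)) := fun x =>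
        prod_congr rfl fun w _ => by rw [show l + (x + d w) = l + d w + x by ring]
      rw [e3, e4]
      ring
  have h5 : msum K n (fun d => ‖S d‖ ^ 2) ≤ (K n : ℝ) * V + (K n : ℝ) ^ 2 * (η' * V) := by
    rw [h3]
    calc _ ≤ ∑ u ∈ Icc 1 (K n), ∑ v ∈ Icc 1 (K n), (if u = v then V else η' * V) :=
          sum_le_sum fun u hu => sum_le_sum fun v hv => h4 u hu v hv
      _ ≤ ∑ u ∈ Icc 1 (K n), ∑ v ∈ Icc 1 (K n), ((if u = v then V else 0) + η' * V) := by
          refine sum_le_sum fun u hu => sum_le_sum fun v hv => ?_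
          split_ifs
          · have : 0 ≤ η' * V := by positivity
            linarith
          · linarith
      _ = _ := by
          simp only [sum_add_distrib, sum_const, Nat.card_Icc, Nat.add_sub_cancel, nsmul_eq_mul,
            sum_ite_eq]
          rw [sum_congr rfl (fun u hu => if_pos hu)]
          simp only [sum_const, Nat.card_Icc, Nat.add_sub_cancel, nsmul_eq_mul]
          ring
  have h6 : (msum K n (fun d => ‖S d‖)) ^ 2 ≤ (η * vol K (n + 1)) ^ 2 := by
    refine h2.trans ?_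
    rw [vol_succ, ← hV]
    have hK0 : (0 : ℝ) < K n := Nat.cast_pos.mpr hKn
    calc V * msum K n (fun d => ‖S d‖ ^ 2)
        ≤ V * ((K n : ℝ) * V + (K n : ℝ) ^ 2 * (η' * V)) := by gcongr
      _ = (1 / (K n : ℝ) + η') * (V * K n) ^ 2 := by field_simp
      _ ≤ η ^ 2 * (V * K n) ^ 2 := by gcongr
      _ = _ := by ring
  have h7 : 0 ≤ η * vol K (n + 1) := mul_nonneg hη (vol_nonneg _ _)
  exact h1.trans (abs_le_of_sq_le_sq' h6 h7).2

end Pool.Agent.Lib.MP_663568_nt.Tw
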