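import Mathlib
import Pool.Agent.Lib.MP_663568_nt.Weyl
import Pool.Agent.Lib.MP_663568_nt_h86.Box

/-! # Box averages of polynomial phases -/

set_option autoImplicit false
open Finset Polynomial

namespace Pool.Agent.Lib.MP_663568_nt.Tw

open Katai

lemma boxSmall_mono_K (n : ℕ) (K K' : ℕ → ℕ) (η : ℝ) (a : ℕ → ℂ) (h : ∀ i < n, K i = K' i)
    (hK : BoxSmall n K η a) : BoxSmall n K' η a := by
  intro b hb l
  rw [← msum_congr_K K K' n h, ← vol_congr K K' n h]
  exact hK b hb l

lemma boxSmall_one (K : ℕ → ℕ) (η : ℝ) (hη : 0 ≤ η) (a : ℕ → ℂ)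
    (h : ∀ l : ℕ, ‖∑ u ∈ Icc 1 (K 0), a (l + u)‖ ≤ η * K 0) : BoxSmall 1 K η a := by
  intro b hb l
  have e : msum K 1 (fun d => a (l + d (last 1)) * ∏ w ∈ univ.erase (last 1), b w (l + d w)) =
      (∑ u ∈ Icc 1 (K 0), a (l + u)) * ∏ v : Cu 0, b (lo v) l := by
    rw [msum_succ, sum_mul]
    refine sum_congr rfl fun u _ => ?_
    rw [msum_zero', prod_cu_succ, last_succ]
    simp only [ext_up, ext_lo, add_zero]
    rw [show (univ.erase (last 0) : Finset (Cu 0)) = ∅ from by
      ext w
      simp only [mem_erase, mem_univ, and_true, notMem_empty, iff_false, not_not]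
      rcases w with ⟨⟩
      rfl]
    simp
  rw [e, norm_mul]
  have h1 : vol K 1 = K 0 := by simp [vol]
  rw [h1]
  calc _ ≤ (η * K 0) * 1 := by
        apply mul_le_mul (h l) (norm_prod_le_one _ _ fun v => hb _ _) (norm_nonneg _)
        positivity
    _ = _ := mul_one _

/-- **Polynomial phases with irrational top coefficient are small on boxes, uniformly.** -/
theorem box_poly (n : ℕ) : ∀ B : Set ℝ, IsCompact B → (∀ α ∈ B, Irrational α) →
    ∀ η : ℝ, 0 < η → ∃ K : ℕ → ℕ, (∀ i, 0 < K i) ∧ ∀ P : ℝ[X], P.natDegree ≤ n + 1 →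
      P.coeff (n + 1) ∈ B → BoxSmall (n + 1) K η (fun m => ee (P.eval (m : ℝ))) := by
  induction n with
  | zero =>
    intro B hB hirr η hη
    obtain ⟨L₀, hL₀⟩ := weyl 0 B hB hirr η hη
    refine ⟨fun _ => L₀ + 1, fun _ => Nat.succ_pos _, ?_⟩
    intro P hPd hPc
    refine boxSmall_one _ η hη.le _ fun l => ?_
    have h1 := hL₀ (L₀ + 1) (by omega) (P.comp (X + C (l : ℝ))) (natDegree_shift P _ hPd _)
      (by rw [coeff_shift_top P _ hPd]; exact hPc)
    refine le_trans (le_of_eq ?_) h1
    congr 1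
    refine sum_congr rfl fun u _ => ?_
    congr 1
    simp only [eval_comp, eval_add, eval_X, eval_C]
    push_cast
    rw [add_comm]
  | succ n ih =>
    intro B hB hirr η hη
    obtain ⟨R, hR⟩ := exists_nat_ge (2 / η ^ 2)
    have hR0 : 0 < R := by
      have : (0 : ℝ) < R := lt_of_lt_of_le (by positivity) hR
      exact_mod_cast this
    set B' : Set ℝ := ⋃ u ∈ Icc 1 R, ⋃ v ∈ (Icc 1 R).filter (fun v => v ≠ u),
      (fun α : ℝ => ((n : ℝ) + 2) * ((u : ℝ) - v) * α) '' B with hB'
    have hB'c : IsCompact B' := by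
      apply (Finset.isCompact_biUnion _ fun u _ => ?_)
      apply (Finset.isCompact_biUnion _ fun v _ => ?_)
      exact hB.image (by fun_prop)
    have hB'i : ∀ α ∈ B', Irrational α := by
      intro α hα
      simp only [hB', Set.mem_iUnion, Set.mem_image] at hα
      obtain ⟨u, hu, v, hv, β, hβ, rfl⟩ := hα
      rw [mem_filter] at hv
      have h0 : ((n : ℤ) + 2) * ((u : ℤ) - v) ≠ 0 := by
        apply mul_ne_zero (by omega)
        have := hv.2; omega
      have := (hirr β hβ).intCast_mul h0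
      push_cast at this
      exact this
    obtain ⟨K₀, hK₀, hbox⟩ := ih B' hB'c hB'i (η ^ 2 / 2) (by positivity)
    refine ⟨Function.update K₀ (n + 1) R, ?_, ?_⟩
    · intro i
      by_cases hi : i = n + 1
      · rw [hi, Function.update_self]; exact hR0
      · rw [Function.update_of_ne hi]; exact hK₀ i
    intro P hPd hPc
    have hKn : (Function.update K₀ (n + 1) R) (n + 1) = R := Function.update_self _ _ _
    refine boxSmall_succ (n + 1) _ η (η ^ 2 / 2) hη.le _ (fun m => (norm_ee _).le)
      (by rw [hKn]; exact hR0) ?_ (by positivity) ?_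
    · rw [hKn]
      have hRr : (0 : ℝ) < R := Nat.cast_pos.mpr hR0
      have : 1 / (R : ℝ) ≤ η ^ 2 / 2 := by
        rw [div_le_iff₀ (by positivity)] at hR
        rw [div_le_iff₀ hRr]
        nlinarith
      linarith
    · rw [hKn]
      intro u hu v hv huv
      have e : (fun m : ℕ => ee (P.eval ((m + u : ℕ) : ℝ)) *
          (starRingEnd ℂ) (ee (P.eval ((m + v : ℕ) : ℝ)))) =
          fun m : ℕ => ee ((P.comp (X + C (u : ℝ)) - P.comp (X + C (v : ℝ))).eval (m : ℝ)) := by
        funext m
        rw [← ee_sub]; congr 1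
        simp
      rw [e]
      refine boxSmall_mono_K _ K₀ _ _ _ (fun i hi => ?_) (hbox _ ?_ ?_)
      · rw [Function.update_of_ne (by omega)]
      · rw [natDegree_le_iff_coeff_eq_zero]
        intro N hN
        rw [coeff_sub]
        rcases Nat.lt_or_ge (n + 1 + 1) N with h | h
        · rw [coeff_eq_zero_of_natDegree_lt, coeff_eq_zero_of_natDegree_lt, sub_zero]
          · exact (natDegree_shift P _ hPd _).trans_lt h
          · exact (natDegree_shift P _ hPd _).trans_lt h
        · have : N = n + 1 + 1 := by omega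
          rw [this, coeff_shift_top P _ hPd, coeff_shift_top P _ hPd, sub_self]
      · rw [coeff_sub, coeff_shift_next P (n + 1) hPd, coeff_shift_next P (n + 1) hPd]
        simp only [hB', Set.mem_iUnion, Set.mem_image]
        refine ⟨u, hu, v, ?_, P.coeff (n + 1 + 1), hPc, ?_⟩
        · rw [mem_filter]; exact ⟨hv, huv.symm⟩
        · push_cast; ring

end Pool.Agent.Lib.MP_663568_nt.Tw
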