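import Mathlib
import Pool.Agent.Lib.MP_663568_nt_h86.Cube

/-!
# Compactness of the cubes of a nilmanifold, and approximation of nilsequences

The last vertex of a cube of dimension `n`, `A n = 1`, is a continuous function of the other
vertices.  By the Stone–Weierstrass theorem a continuous function of the last vertex is uniformly
close to a finite sum of products of functions of the other vertices.
-/

set_option autoImplicit false
open Finset

namespace Pool.Agent.Lib.MP_663568_nt.Tw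

section

variable {G : Type*} [Group G] [TopologicalSpace G] [IsTopologicalGroup G] (A : ℕ → Subgroup G)

/-- `A i` is a compact set times `Γ ∩ A i`. -/
def Coc (Γ : Subgroup G) : Prop :=
  ∀ i, ∃ C : Set G, IsCompact C ∧ (∀ c ∈ C, c ∈ A i) ∧
    ∀ x ∈ A i, ∃ c ∈ C, ∃ γ ∈ Γ, x = c * γ

variable (hanti : Antitone A) (hcomm : ∀ i j, ⁅A i, A j⁆ ≤ A (i + j))

/-- glue the two faces -/
def glue {n : ℕ} (k k' : Cu n → G) : Cu (n + 1) → G :=
  fun w => Sum.elim k (fun v => k v * k' v) w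

omit [TopologicalSpace G] [IsTopologicalGroup G] in
lemma glue_lo {n : ℕ} (k k' : Cu n → G) (w : Cu n) : glue k k' (lo w) = k w := rfl

omit [TopologicalSpace G] [IsTopologicalGroup G] in
lemma glue_up {n : ℕ} (k k' : Cu n → G) (w : Cu n) : glue k k' (up w) = k w * k' w := rfl

omit [IsTopologicalGroup G] in
lemma continuous_glue [ContinuousMul G] (n : ℕ) :
    Continuous (fun p : (Cu n → G) × (Cu n → G) => glue p.1 p.2) := by
  refine continuous_pi fun w => ?_
  rcases cu_cases w with ⟨v, rfl⟩ | ⟨v, rfl⟩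
  · simp only [glue_lo]; fun_prop
  · simp only [glue_up]; fun_prop

include hanti hcomm in
theorem cube_compact (Γ : Subgroup G) (hC : Coc A Γ) : ∀ n j : ℕ, ∃ K : Set (Cu n → G),
    IsCompact K ∧ (∀ k ∈ K, IsCube A n j k) ∧ ∀ c, IsCube A n j c → ∃ k ∈ K,
      ∃ γ : Cu n → G, IsCube A n j γ ∧ (∀ w, γ w ∈ Γ) ∧ ∀ w, c w = k w * γ w
  | 0, j => by
    obtain ⟨C, hC1, hC2, hC3⟩ := hC j
    refine ⟨(fun (x : G) (_ : Cu 0) => x) '' C, hC1.image (by fun_prop), ?_, ?_⟩
    · rintro _ ⟨x, hx, rfl⟩; exact hC2 x hx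
    · intro c hc
      obtain ⟨x, hx, γ, hγ, e⟩ := hC3 (c ()) hc
      refine ⟨fun _ => x, ⟨x, hx, rfl⟩, fun _ => γ, ?_, fun _ => hγ, ?_⟩
      · change γ ∈ A j
        have : γ = x⁻¹ * c () := by rw [e]; group
        rw [this]
        exact (A j).mul_mem ((A j).inv_mem (hC2 x hx)) hc
      · rintro ⟨⟩; exact e
  | n + 1, j => by
    obtain ⟨K, hK1, hK2, hK3⟩ := cube_compact Γ hC n j
    obtain ⟨K', hK1', hK2', hK3'⟩ := cube_compact Γ hC n (j + 1)
    have F := facts A hanti hcomm n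
    refine ⟨(fun p : (Cu n → G) × (Cu n → G) => glue p.1 p.2) '' (K ×ˢ K'),
      (hK1.prod hK1').image (continuous_glue n), ?_, ?_⟩
    · rintro _ ⟨⟨k, k'⟩, ⟨h1, h2⟩, rfl⟩
      refine ⟨hK2 k h1, ?_⟩
      refine (congrArg (IsCube A n (j + 1)) ?_).mp (hK2' k' h2)
      funext w
      simp only [glue_lo, glue_up]; group
    · intro c hc
      obtain ⟨k, hk, γ, hγ1, hγ2, hγ3⟩ := hK3 _ hc.1
      have h1 := Facts.conj A hanti F hγ1 hc.2
      obtain ⟨k', hk', γ', hγ1', hγ2', hγ3'⟩ := hK3' _ h1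
      refine ⟨_, ⟨(k, k'), ⟨hk, hk'⟩, rfl⟩, fun w => Sum.elim γ (fun v => γ' v * γ v) w, ?_, ?_, ?_⟩
      · refine ⟨hγ1, ?_⟩
        have h2 := Facts.conj A hanti F (F.inv _ _ hγ1) hγ1'
        refine (congrArg (IsCube A n (j + 1)) ?_).mp h2
        funext w
        change (γ w)⁻¹ * γ' w * ((γ w)⁻¹)⁻¹ = (γ w)⁻¹ * (γ' w * γ w)
        group
      · intro w
        rcases cu_cases w with ⟨v, rfl⟩ | ⟨v, rfl⟩
        · exact hγ2 v
        · exact Γ.mul_mem (hγ2' v) (hγ2 v)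
      · intro w
        rcases cu_cases w with ⟨v, rfl⟩ | ⟨v, rfl⟩
        · exact hγ3 v
        · change c (up v) = k v * k' v * (γ' v * γ v)
          have e1 := hγ3 v
          have e2 := hγ3' v
          beta_reduce at e1 e2
          have e3 : c (up v) = c (lo v) * ((c (lo v))⁻¹ * c (up v)) := by group
          rw [e3]
          have e4 : (c (lo v))⁻¹ * c (up v) = (γ v)⁻¹ * (k' v * γ' v) * γ v := by
            rw [← e2]; group
          rw [e4, e1]; group

variable (Γ : Subgroup G)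

/-- the set of cubes of the nilmanifold -/
def CX (n : ℕ) : Set (Cu n → G ⧸ Γ) :=
  {x | ∃ c : Cu n → G, IsCube A n 0 c ∧ ∀ w, x w = (c w : G ⧸ Γ)}

omit [IsTopologicalGroup G] in
lemma coe_eq_of_mul (a b γ : G) (h : γ ∈ Γ) (e : a = b * γ) : (a : G ⧸ Γ) = (b : G ⧸ Γ) := by
  rw [e]
  exact QuotientGroup.mk_mul_of_mem b h

include hanti hcomm in
lemma isCompact_CX (hC : Coc A Γ) (n : ℕ) : IsCompact (CX A Γ n) := by
  obtain ⟨K, hK1, hK2, hK3⟩ := cube_compact A hanti hcomm Γ hC n 0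
  have : CX A Γ n = (fun (k : Cu n → G) (w : Cu n) => (k w : G ⧸ Γ)) '' K := by
    ext x
    constructor
    · rintro ⟨c, hc, hx⟩
      obtain ⟨k, hk, γ, _, hγ, e⟩ := hK3 c hc
      refine ⟨k, hk, ?_⟩
      funext w
      rw [hx w]
      exact (coe_eq_of_mul Γ _ _ _ (hγ w) (e w)).symm
    · rintro ⟨k, hk, rfl⟩
      exact ⟨k, hK2 k hk, fun w => rfl⟩
  rw [this]
  apply hK1.image
  refine continuous_pi fun w => ?_
  exact QuotientGroup.continuous_mk.comp (continuous_apply w)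

include hanti hcomm in
omit [TopologicalSpace G] [IsTopologicalGroup G] in
lemma CX_unique (n : ℕ) (hn : A n = ⊥) (x y : Cu n → G ⧸ Γ) (hx : x ∈ CX A Γ n)
    (hy : y ∈ CX A Γ n) (h : ∀ w, w ≠ last n → x w = y w) : x = y := by
  obtain ⟨c, hc, hcx⟩ := hx
  obtain ⟨d, hd, hdy⟩ := hy
  have F := facts A hanti hcomm n
  have hcd := F.mul 0 _ _ (F.inv 0 _ hc) hd
  obtain ⟨γ, hγ, z, hz, e⟩ := last_mem A Γ n 0 _ hcd (fun w hw => by
    have := h w hw
    rw [hcx w, hdy w] at this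
    exact QuotientGroup.eq.mp this)
  have hz1 : z = 1 := by
    rw [Nat.add_zero, hn] at hz
    exact Subgroup.mem_bot.mp hz
  rw [hz1, mul_one] at e
  funext w
  by_cases hw : w = last n
  · rw [hw, hcx, hdy]
    apply QuotientGroup.eq.mpr
    rw [e]; exact hγ
  · exact h w hw

/-- finite sums of products of functions of the vertices other than the last one -/
def OffLast {X : Type*} [TopologicalSpace X] {n : ℕ} (S : Set (Cu n → X)) (u : C(S, ℂ)) : Prop :=
  ∃ (ι : Type) (_ : Fintype ι) (a : ι → ℂ) (ψ : ι → Cu n → C(X, ℂ)),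
    (∀ i w x, ‖ψ i w x‖ ≤ 1) ∧
    ∀ x : S, u x = ∑ i, a i * ∏ w ∈ univ.erase (last n), ψ i w (x.1 w)

/-- the star subalgebra of these -/
def offAlg {X : Type*} [TopologicalSpace X] {n : ℕ} (S : Set (Cu n → X)) :
    StarSubalgebra ℂ C(S, ℂ) where
  carrier := {u | OffLast S u}
  mul_mem' := by
    rintro u v ⟨ι, _, a, ψ, h1, h2⟩ ⟨ι', _, a', ψ', h1', h2'⟩
    refine ⟨ι × ι', inferInstance, fun i => a i.1 * a' i.2, fun i w => ψ i.1 w * ψ' i.2 w, ?_, ?_⟩
    · intro i w x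
      rw [ContinuousMap.mul_apply, norm_mul]
      exact mul_le_one₀ (h1 _ _ _) (norm_nonneg _) (h1' _ _ _)
    · intro x
      rw [ContinuousMap.mul_apply, h2, h2', Finset.sum_mul_sum, Fintype.sum_prod_type]
      refine sum_congr rfl fun i _ => sum_congr rfl fun j _ => ?_
      simp only [ContinuousMap.mul_apply, prod_mul_distrib]
      ring
  add_mem' := by
    rintro u v ⟨ι, _, a, ψ, h1, h2⟩ ⟨ι', _, a', ψ', h1', h2'⟩
    refine ⟨ι ⊕ ι', inferInstance, Sum.elim a a', Sum.elim ψ ψ', ?_, ?_⟩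
    · rintro (i | i) w x
      · exact h1 _ _ _
      · exact h1' _ _ _
    · intro x
      rw [ContinuousMap.add_apply, h2, h2', Fintype.sum_sum_type]
      rfl
  algebraMap_mem' := by
    intro r
    refine ⟨Unit, inferInstance, fun _ => r, fun _ _ => 1, ?_, ?_⟩
    · intro i w x; simp
    · intro x; simp
  star_mem' := by
    rintro u ⟨ι, _, a, ψ, h1, h2⟩
    refine ⟨ι, inferInstance, fun i => star (a i), fun i w => star (ψ i w), ?_, ?_⟩
    · intro i w x
      rw [ContinuousMap.star_apply, norm_star]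
      exact h1 _ _ _
    · intro x
      rw [ContinuousMap.star_apply, h2, star_sum]
      refine sum_congr rfl fun i _ => ?_
      rw [star_mul', star_prod]
      rfl

include hanti hcomm in
/-- **Approximation of a function of the last vertex.** -/
theorem nil_approx (hC : Coc A Γ) (h1 : A 1 = ⊤) (hΓ : IsClosed (Γ : Set G)) (n : ℕ)
    (hn : A n = ⊥) (f : G ⧸ Γ → ℂ) (hf : Continuous f) (ε : ℝ) (hε : 0 < ε) :
    ∃ (ι : Type) (_ : Fintype ι) (a : ι → ℂ) (ψ : ι → Cu n → C(G ⧸ Γ, ℂ)),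
      (∀ i w x, ‖ψ i w x‖ ≤ 1) ∧
      ∀ c : Cu n → G, IsCube A n 0 c →
        ‖f (c (last n) : G ⧸ Γ) -
          ∑ i, a i * ∏ w ∈ univ.erase (last n), ψ i w (c w : G ⧸ Γ)‖ ≤ ε := by
  classical
  have := hΓ
  have : T2Space (G ⧸ Γ) := QuotientGroup.instT2Space
  have h0 : A 0 = ⊤ := top_le_iff.mp (h1 ▸ hanti (Nat.zero_le 1))
  have : CompactSpace (G ⧸ Γ) := by
    obtain ⟨C, hC1, hC2, hC3⟩ := hC 0
    refine ⟨?_⟩
    have : (Set.univ : Set (G ⧸ Γ)) = (fun g : G => (g : G ⧸ Γ)) '' C := by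
      ext x
      simp only [Set.mem_univ, true_iff]
      obtain ⟨g, rfl⟩ := QuotientGroup.mk_surjective x
      obtain ⟨c, hc, γ, hγ, e⟩ := hC3 g (by rw [h0]; trivial)
      exact ⟨c, hc, (coe_eq_of_mul Γ _ _ _ hγ e).symm⟩
    rw [this]
    exact hC1.image QuotientGroup.continuous_mk
  have : CompactSpace (CX A Γ n) := isCompact_iff_compactSpace.mp
    (isCompact_CX A hanti hcomm Γ hC n)
  have hsep : (offAlg (CX A Γ n)).SeparatesPoints := by
    intro x y hxy
    have hex : ∃ w, w ≠ last n ∧ x.1 w ≠ y.1 w := by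
      by_contra hcon
      push Not at hcon
      exact hxy (Subtype.ext (CX_unique A hanti hcomm Γ n hn x.1 y.1 x.2 y.2 hcon))
    obtain ⟨w, hw, hne⟩ := hex
    obtain ⟨g, hg1, hg2, hg3⟩ := exists_continuous_zero_one_of_isClosed
      (isClosed_singleton (x := x.1 w)) (isClosed_singleton (x := y.1 w))
      (Set.disjoint_singleton.mpr hne)
    let gC : C(G ⧸ Γ, ℂ) := ⟨fun z => ((g z : ℝ) : ℂ), by fun_prop⟩
    have hw1 : Continuous (fun z : CX A Γ n => z.1 w) :=
      (continuous_apply w).comp continuous_subtype_val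
    let u : C(CX A Γ n, ℂ) := ⟨fun z => gC (z.1 w), gC.continuous.comp hw1⟩
    refine ⟨_, ⟨u, ?_, rfl⟩, ?_⟩
    · refine ⟨Unit, inferInstance, fun _ => 1, fun _ v => if v = w then gC else 1, ?_, ?_⟩
      · intro i v z
        beta_reduce
        split_ifs
        · change ‖((g z : ℝ) : ℂ)‖ ≤ 1
          rw [Complex.norm_real, Real.norm_eq_abs, abs_of_nonneg (hg3 z).1]
          exact (hg3 z).2
        · simp
      · intro z
        rw [Fintype.sum_unique, one_mul]
        rw [prod_eq_single_of_mem w (by simp [hw])]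
        · beta_reduce; rw [if_pos rfl]; rfl
        · intro v _ hv; beta_reduce; rw [if_neg hv]; rfl
    · change gC (x.1 w) ≠ gC (y.1 w)
      change ((g (x.1 w) : ℝ) : ℂ) ≠ ((g (y.1 w) : ℝ) : ℂ)
      rw [hg1 (by simp), hg2 (by simp)]
      simp
  have htop := ContinuousMap.starSubalgebra_topologicalClosure_eq_top_of_separatesPoints _ hsep
  let F : C(CX A Γ n, ℂ) := ⟨fun z => f (z.1 (last n)),
    hf.comp ((continuous_apply (last n)).comp continuous_subtype_val)⟩
  have hF : F ∈ (offAlg (CX A Γ n)).topologicalClosure := by rw [htop]; trivial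
  have hF' : F ∈ closure ((offAlg (CX A Γ n)) : Set C(CX A Γ n, ℂ)) := hF
  obtain ⟨u, ⟨ι, hι, a, ψ, h2, h3⟩, hu⟩ := Metric.mem_closure_iff.mp hF' ε hε
  refine ⟨ι, hι, a, ψ, h2, ?_⟩
  intro c hc
  have hmem : (fun w => (c w : G ⧸ Γ)) ∈ CX A Γ n := ⟨c, hc, fun _ => rfl⟩
  have h4 := h3 ⟨_, hmem⟩
  have h5 := (ContinuousMap.dist_lt_iff hε).mp hu ⟨_, hmem⟩
  rw [h4, dist_eq_norm] at h5
  exact h5.le

end

end Pool.Agent.Lib.MP_663568_nt.Tw
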