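import Mathlib
import Pool.Agent.Lib.MP_663568_nt_h86.Approx
import Pool.Agent.Lib.MP_663568_nt_h86.Box

/-! # Dual functions: nilsequences are combinations of products of their values on cubes -/

set_option autoImplicit false
open Finset

namespace Pool.Agent.Lib.MP_663568_nt.Tw

/-- On all arithmetic cubes, the last value of `D` is up to `ε` a combination, with coefficients of
total mass `M`, of products of `1`-bounded functions of the other vertices. -/
def Dual (n : ℕ) (M ε : ℝ) (D : ℕ → ℂ) : Prop :=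
  ∃ (ι : Type) (_ : Fintype ι) (a : ι → ℂ) (b : ι → Cu n → ℕ → ℂ),
    (∑ i, ‖a i‖ ≤ M) ∧ (∀ i w m, ‖b i w m‖ ≤ 1) ∧
    ∀ (l : ℕ) (k : ℕ → ℕ), ‖D (l + shifts k n (last n)) -
      ∑ i, a i * ∏ w ∈ univ.erase (last n), b i w (l + shifts k n w)‖ ≤ ε

lemma shifts_congr (k k' : ℕ → ℕ) : ∀ (n : ℕ) (_ : ∀ i < n, k i = k' i) (w : Cu n),
    shifts k n w = shifts k' n w
  | 0, _, _ => rfl
  | n + 1, h, w => by
    rcases cu_cases w with ⟨v, rfl⟩ | ⟨v, rfl⟩
    · rw [shifts_lo, shifts_lo]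
      exact shifts_congr k k' n (fun i hi => h i (by omega)) v
    · rw [shifts_up, shifts_up, h n (by omega),
        shifts_congr k k' n (fun i hi => h i (by omega)) v]

lemma ext_shifts (k : ℕ → ℕ) (n u : ℕ) :
    ext (shifts k n) u = shifts (Function.update k n u) (n + 1) := by
  funext w
  rcases cu_cases w with ⟨v, rfl⟩ | ⟨v, rfl⟩
  · rw [ext_lo, shifts_lo]
    exact shifts_congr _ _ n (fun i hi => by rw [Function.update_of_ne (by omega)]) v
  · rw [ext_up, shifts_up, Function.update_self]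
    congr 1
    exact shifts_congr _ _ n (fun i hi => by rw [Function.update_of_ne (by omega)]) v

lemma shifts_last (k : ℕ → ℕ) (n : ℕ) : shifts k n (last n) = ∑ i ∈ range n, k i := by
  induction n with
  | zero => rfl
  | succ n ih => rw [last_succ, shifts_up, ih, sum_range_succ, add_comm]

lemma norm_msum_le_shifts (K : ℕ → ℕ) (c : ℝ) : ∀ (n : ℕ) (φ : (Cu n → ℕ) → ℂ)
    (_ : ∀ k : ℕ → ℕ, (∀ i < n, k i ≤ K i) → ‖φ (shifts k n)‖ ≤ c),
    ‖msum K n φ‖ ≤ vol K n * c
  | 0, φ, h => by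
    have h0 : ‖φ (fun _ => 0)‖ ≤ c := h (fun _ => 0) (by simp)
    simpa [msum, vol] using h0
  | n + 1, φ, h => by
    rw [msum_succ, vol_succ]
    calc _ ≤ ∑ u ∈ Icc 1 (K n), ‖msum K n (fun d => φ (ext d u))‖ := norm_sum_le _ _
      _ ≤ ∑ u ∈ Icc 1 (K n), vol K n * c := by
          refine sum_le_sum fun u hu => norm_msum_le_shifts K c n _ fun k hk => ?_
          rw [ext_shifts]
          refine h _ fun i hi => ?_
          by_cases hin : i = n
          · rw [hin, Function.update_self]; exact (mem_Icc.mp hu).2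
          · rw [Function.update_of_ne hin]; exact hk i (by omega)
      _ = _ := by
          rw [sum_const, Nat.card_Icc, Nat.add_sub_cancel, nsmul_eq_mul]; ring

lemma msum_sub (K : ℕ → ℕ) (n : ℕ) (φ ψ : (Cu n → ℕ) → ℂ) :
    msum K n (fun d => φ d - ψ d) = msum K n φ - msum K n ψ := by
  induction n with
  | zero => rfl
  | succ n ih => simp only [msum_succ, ih, sum_sub_distrib]

lemma msum_mul_left (K : ℕ → ℕ) (n : ℕ) (c : ℂ) (φ : (Cu n → ℕ) → ℂ) :
    msum K n (fun d => c * φ d) = c * msum K n φ := by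
  induction n with
  | zero => rfl
  | succ n ih => simp only [msum_succ, ih, mul_sum]

lemma msum_const (K : ℕ → ℕ) (n : ℕ) (c : ℂ) : msum K n (fun _ => c) = (vol K n : ℂ) * c := by
  induction n with
  | zero => simp [msum, vol]
  | succ n ih =>
    rw [msum_succ, vol_succ]
    simp only [ih, sum_const, Nat.card_Icc, nsmul_eq_mul, Nat.add_sub_cancel]
    push_cast
    ring

lemma shift_sum (x : ℕ → ℂ) (hx : ∀ m, ‖x m‖ ≤ 1) (L m : ℕ) :
    ‖∑ l ∈ Icc 1 L, x (l + m) - ∑ l ∈ Icc 1 L, x l‖ ≤ 2 * m := by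
  induction m with
  | zero => simp
  | succ m ih =>
    have e : ∑ l ∈ Icc 1 L, x (l + (m + 1)) - ∑ l ∈ Icc 1 L, x (l + m) =
        x (L + 1 + m) - x (1 + m) := by
      clear ih
      induction L with
      | zero => simp [add_comm]
      | succ L ih =>
        rw [sum_Icc_succ_top (by omega), sum_Icc_succ_top (by omega)]
        have : ∑ l ∈ Icc 1 L, x (l + (m + 1)) =
            ∑ l ∈ Icc 1 L, x (l + m) + (x (L + 1 + m) - x (1 + m)) := by
          rw [← ih]; ring
        rw [this, show L + 1 + (m + 1) = L + 1 + 1 + m by ring]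
        ring
    have e2 : ∑ l ∈ Icc 1 L, x (l + (m + 1)) - ∑ l ∈ Icc 1 L, x l =
        (x (L + 1 + m) - x (1 + m)) + (∑ l ∈ Icc 1 L, x (l + m) - ∑ l ∈ Icc 1 L, x l) := by
      rw [← e]; ring
    rw [e2]
    calc _ ≤ ‖x (L + 1 + m) - x (1 + m)‖ + ‖∑ l ∈ Icc 1 L, x (l + m) - ∑ l ∈ Icc 1 L, x l‖ :=
          norm_add_le _ _
      _ ≤ (1 + 1) + 2 * m := by
          refine add_le_add ((norm_sub_le _ _).trans (add_le_add (hx _) (hx _))) ih
      _ = _ := by push_cast; ring

/-- **Box-small functions are orthogonal to dual functions.** -/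
theorem dual_small (n : ℕ) (K : ℕ → ℕ) (hK : ∀ i, 0 < K i) (η M ε : ℝ) (hη : 0 ≤ η)
    (a D : ℕ → ℂ) (ha : ∀ m, ‖a m‖ ≤ 1) (hD : ∀ m, ‖D m‖ ≤ 1) (hbox : BoxSmall n K η a)
    (hdual : Dual n M ε D) (L : ℕ) :
    ‖∑ l ∈ Icc 1 L, a l * D l‖ ≤ L * (M * η + ε) + 2 * ∑ i ∈ range n, (K i : ℝ) := by
  obtain ⟨ι, _, c, b, hc, hb, happ⟩ := hdual
  have hV := vol_pos K hK n
  set x : ℕ → ℂ := fun m => a m * D m with hx
  have hx1 : ∀ m, ‖x m‖ ≤ 1 := fun m => by
    rw [hx]; beta_reduce; rw [norm_mul]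
    exact mul_le_one₀ (ha _) (norm_nonneg _) (hD _)
  have hT : ∀ l, ‖msum K n (fun d => x (l + d (last n)))‖ ≤ vol K n * (M * η + ε) := by
    intro l
    have e : msum K n (fun d => x (l + d (last n))) =
        msum K n (fun d => a (l + d (last n)) * (D (l + d (last n)) -
          ∑ i, c i * ∏ w ∈ univ.erase (last n), b i w (l + d w))) +
        ∑ i, c i * msum K n (fun d => a (l + d (last n)) *
          ∏ w ∈ univ.erase (last n), b i w (l + d w)) := by
      simp only [← msum_mul_left]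
      rw [← msum_sum, ← msum_add]
      congr 1
      funext d
      rw [mul_sub, mul_sum]
      have : ∑ i, a (l + d (last n)) * (c i * ∏ w ∈ univ.erase (last n), b i w (l + d w)) =
          ∑ i, c i * (a (l + d (last n)) * ∏ w ∈ univ.erase (last n), b i w (l + d w)) :=
        sum_congr rfl fun i _ => by ring
      rw [this]
      ring
    rw [e]
    refine (norm_add_le _ _).trans ?_
    have h1 := norm_msum_le_shifts K ε n (fun d => a (l + d (last n)) * (D (l + d (last n)) -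
          ∑ i, c i * ∏ w ∈ univ.erase (last n), b i w (l + d w))) (fun k _ => by
      rw [norm_mul]
      calc _ ≤ 1 * ε := mul_le_mul (ha _) (happ l k) (norm_nonneg _) zero_le_one
        _ = ε := one_mul _)
    have h2 : ‖∑ i, c i * msum K n (fun d => a (l + d (last n)) *
          ∏ w ∈ univ.erase (last n), b i w (l + d w))‖ ≤ M * (η * vol K n) := by
      calc _ ≤ ∑ i, ‖c i * msum K n (fun d => a (l + d (last n)) *
          ∏ w ∈ univ.erase (last n), b i w (l + d w))‖ := norm_sum_le _ _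
        _ ≤ ∑ i, ‖c i‖ * (η * vol K n) := by
            refine sum_le_sum fun i _ => ?_
            rw [norm_mul]
            exact mul_le_mul_of_nonneg_left (hbox (b i) (hb i) l) (norm_nonneg _)
        _ = (∑ i, ‖c i‖) * (η * vol K n) := by rw [sum_mul]
        _ ≤ _ := mul_le_mul_of_nonneg_right hc (by positivity)
    calc _ ≤ vol K n * ε + M * (η * vol K n) := add_le_add h1 h2
      _ = _ := by ring
  -- compare with the shifted sums
  have h3 : ‖msum K n (fun d => ∑ l ∈ Icc 1 L, x (l + d (last n))) -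
      (vol K n : ℂ) * ∑ l ∈ Icc 1 L, x l‖ ≤ vol K n * (2 * ∑ i ∈ range n, (K i : ℝ)) := by
    rw [← msum_const, ← msum_sub]
    refine norm_msum_le_shifts K _ n _ fun k hk => ?_
    refine (shift_sum x hx1 L _).trans ?_
    rw [shifts_last]
    push_cast
    have : ∑ i ∈ range n, (k i : ℝ) ≤ ∑ i ∈ range n, (K i : ℝ) :=
      sum_le_sum fun i hi => Nat.cast_le.mpr (hk i (mem_range.mp hi))
    linarith
  have h4 : ‖msum K n (fun d => ∑ l ∈ Icc 1 L, x (l + d (last n)))‖ ≤
      L * (vol K n * (M * η + ε)) := by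
    rw [msum_sum]
    calc _ ≤ ∑ l ∈ Icc 1 L, ‖msum K n (fun d => x (l + d (last n)))‖ := norm_sum_le _ _
      _ ≤ ∑ l ∈ Icc 1 L, vol K n * (M * η + ε) := sum_le_sum fun l _ => hT l
      _ = _ := by rw [sum_const, Nat.card_Icc, Nat.add_sub_cancel, nsmul_eq_mul]
  have h5 : vol K n * ‖∑ l ∈ Icc 1 L, x l‖ ≤
      vol K n * (L * (M * η + ε) + 2 * ∑ i ∈ range n, (K i : ℝ)) := by
    have e1 : vol K n * ‖∑ l ∈ Icc 1 L, x l‖ = ‖(vol K n : ℂ) * ∑ l ∈ Icc 1 L, x l‖ := by
      rw [norm_mul, Complex.norm_real, Real.norm_eq_abs, abs_of_pos hV]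
    rw [e1]
    calc _ = ‖msum K n (fun d => ∑ l ∈ Icc 1 L, x (l + d (last n))) -
        (msum K n (fun d => ∑ l ∈ Icc 1 L, x (l + d (last n))) -
          (vol K n : ℂ) * ∑ l ∈ Icc 1 L, x l)‖ := by congr 1; ring
      _ ≤ _ := (norm_sub_le _ _).trans (add_le_add h4 h3)
      _ = _ := by ring
  exact le_of_mul_le_mul_left h5 hV

lemma Dual.mono_M {n : ℕ} {M M' ε : ℝ} {D : ℕ → ℂ} (h : Dual n M ε D) (hM : M ≤ M') :
    Dual n M' ε D := by
  obtain ⟨ι, i1, a, b, h1, h2, h3⟩ := h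
  exact ⟨ι, i1, a, b, h1.trans hM, h2, h3⟩

lemma Dual.conj {n : ℕ} {M ε : ℝ} {D : ℕ → ℂ} (h : Dual n M ε D) :
    Dual n M ε (fun m => (starRingEnd ℂ) (D m)) := by
  obtain ⟨ι, i1, a, b, h1, h2, h3⟩ := h
  refine ⟨ι, i1, fun i => (starRingEnd ℂ) (a i), fun i w m => (starRingEnd ℂ) (b i w m), ?_, ?_, ?_⟩
  · simpa using h1
  · intro i w m
    rw [RCLike.norm_conj]
    exact h2 i w m
  · intro l k
    have := h3 l k
    rw [← RCLike.norm_conj, map_sub, map_sum] at this
    simpa only [map_mul, map_prod] using this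

lemma Dual.mul {n : ℕ} {M M' ε ε' : ℝ} {D D' : ℕ → ℂ} (h : Dual n M ε D) (h' : Dual n M' ε' D')
    (hD : ∀ m, ‖D m‖ ≤ 1) (hD' : ∀ m, ‖D' m‖ ≤ 1) (hε : 0 ≤ ε) :
    Dual n (M * M') (ε' + ε * (1 + ε')) (fun m => D m * D' m) := by
  obtain ⟨ι, i1, a, b, h1, h2, h3⟩ := h
  obtain ⟨ι', i1', a', b', h1', h2', h3'⟩ := h'
  refine ⟨ι × ι', inferInstance, fun i => a i.1 * a' i.2, fun i w m => b i.1 w m * b' i.2 w m,
    ?_, ?_, ?_⟩
  · rw [Fintype.sum_prod_type]
    simp only [norm_mul, ← mul_sum]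
    rw [← sum_mul]
    exact mul_le_mul h1 h1' (sum_nonneg fun _ _ => norm_nonneg _)
      ((sum_nonneg fun _ _ => norm_nonneg _).trans h1)
  · intro i w m
    rw [norm_mul]
    exact mul_le_one₀ (h2 _ _ _) (norm_nonneg _) (h2' _ _ _)
  · intro l k
    set S := ∑ i, a i * ∏ w ∈ univ.erase (last n), b i w (l + shifts k n w) with hS
    set S' := ∑ i, a' i * ∏ w ∈ univ.erase (last n), b' i w (l + shifts k n w) with hS'
    have e : ∑ i : ι × ι', a i.1 * a' i.2 *
        ∏ w ∈ univ.erase (last n), (b i.1 w (l + shifts k n w) * b' i.2 w (l + shifts k n w))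
        = S * S' := by
      rw [hS, hS', Fintype.sum_prod_type, sum_mul_sum]
      refine sum_congr rfl fun i _ => sum_congr rfl fun j _ => ?_
      rw [prod_mul_distrib]; ring
    rw [e]
    have e2 : D (l + shifts k n (last n)) * D' (l + shifts k n (last n)) - S * S' =
        D (l + shifts k n (last n)) * (D' (l + shifts k n (last n)) - S') +
          (D (l + shifts k n (last n)) - S) * S' := by ring
    rw [e2]
    have hS1 : ‖S'‖ ≤ 1 + ε' := by
      calc ‖S'‖ = ‖D' (l + shifts k n (last n)) - (D' (l + shifts k n (last n)) - S')‖ := by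
            congr 1; ring
        _ ≤ _ := (norm_sub_le _ _).trans (add_le_add (hD' _) (h3' l k))
    calc _ ≤ _ := norm_add_le _ _
      _ ≤ 1 * ε' + ε * (1 + ε') := by
          rw [norm_mul, norm_mul]
          refine add_le_add (mul_le_mul (hD _) (h3' l k) (norm_nonneg _) zero_le_one)
            (mul_le_mul (h3 l k) hS1 (norm_nonneg _) hε)
      _ = _ := by rw [one_mul]

/-- **Nilsequences are dual functions.** -/
theorem dual_nil {G : Type*} [Group G] [TopologicalSpace G] [IsTopologicalGroup G]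
    (A : ℕ → Subgroup G) (hanti : Antitone A) (hcomm : ∀ i j, ⁅A i, A j⁆ ≤ A (i + j))
    (Γ : Subgroup G) (hC : Coc A Γ) (h1 : A 1 = ⊤) (hΓ : IsClosed (Γ : Set G)) (n : ℕ)
    (hn : A n = ⊥) (f : G ⧸ Γ → ℂ) (hf : Continuous f) (ε : ℝ) (hε : 0 < ε) :
    ∃ M : ℝ, 1 ≤ M ∧ ∀ x g y : G, Dual n M ε (fun m => f ((x * g ^ m * y : G) : G ⧸ Γ)) := by
  obtain ⟨ι, i1, a, ψ, h2, h3⟩ := nil_approx A hanti hcomm Γ hC h1 hΓ n hn f hf ε hε
  refine ⟨max 1 (∑ i, ‖a i‖), le_max_left _ _, fun x g y => ?_⟩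
  refine ⟨ι, i1, a, fun i w m => ψ i w ((x * g ^ m * y : G) : G ⧸ Γ), le_max_right _ _,
    fun i w m => h2 _ _ _, fun l k => ?_⟩
  have h4 := h3 _ (isCube_orbit A hanti hcomm h1 g (x * g ^ l) y k n)
  simpa only [pow_add, mul_assoc] using h4

end Pool.Agent.Lib.MP_663568_nt.Tw
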