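import Mathlib
import Pool.Agent.Lib.MP_663568_nt.Poly
import Pool.Agent.Lib.MP_663568_nt.Final
import Pool.Agent.Lib.MP_663568_nt_h86.BoxPoly
import Pool.Agent.Lib.MP_663568_nt_h86.Dual

/-! # The uniform estimate for the Möbius function twisted by a polynomial phase of high degree -/

set_option autoImplicit false
open Finset Polynomial

namespace Pool.Agent.Lib.MP_663568_nt.Tw

open Katai

section

variable {G : Type} [Group G] [TopologicalSpace G] [IsTopologicalGroup G]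

/-- polynomial phases times nilsequences -/
noncomputable def fam (d : ℕ) (K : Set ℝ) (δ : ℝ) {Γ : Subgroup G} (f : G ⧸ Γ → ℂ)
    (i : NearPoly d K δ × (G × G)) (n : ℕ) : ℂ :=
  phase d K δ i.1 n * f ((i.2.1 ^ n * i.2.2 : G) : G ⧸ Γ)

omit [TopologicalSpace G] [IsTopologicalGroup G] in
lemma norm_fam_le (d : ℕ) (K : Set ℝ) (δ : ℝ) {Γ : Subgroup G} (f : G ⧸ Γ → ℂ)
    (hf1 : ∀ x, ‖f x‖ ≤ 1) (i : NearPoly d K δ × (G × G)) (n : ℕ) : ‖fam d K δ f i n‖ ≤ 1 := by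
  rw [fam, norm_mul]
  exact mul_le_one₀ (norm_ee _).le (norm_nonneg _) (hf1 _)

theorem twist_orth (d : ℕ) (hd : 0 < d) (K : Set ℝ) (hK : IsCompact K) (PP : Set ℕ)
    (hindep : ∀ p ∈ PP, ∀ q ∈ PP, p ≠ q → ∀ α ∈ K, ∀ β ∈ K,
      Irrational ((p : ℝ) ^ d * α - (q : ℝ) ^ d * β))
    (A : ℕ → Subgroup G) (hanti : Antitone A) (hcomm : ∀ i j, ⁅A i, A j⁆ ≤ A (i + j))
    (h1 : A 1 = ⊤) (hdA : A d = ⊥) (Γ : Subgroup G) (hΓ : IsClosed (Γ : Set G)) (hC : Coc A Γ)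
    (f : G ⧸ Γ → ℂ) (hf : Continuous f) (hf1 : ∀ x, ‖f x‖ ≤ 1)
    (P : Finset ℕ) (hP : ↑P ⊆ PP) (η : ℝ) (hη : 0 < η) :
    ∃ L : ℕ, 0 < L ∧ ∃ δ : ℝ, 0 < δ ∧ ∀ p ∈ P, ∀ q ∈ P, p ≠ q →
      ∀ (i i' : NearPoly d K δ × (G × G)) (j : ℕ),
      ‖∑ l ∈ Icc 1 L, fam d K δ f i (p * (j + l)) *
        (starRingEnd ℂ) (fam d K δ f i' (q * (j + l)))‖ ≤ η * L := by
  classical
  obtain ⟨t, rfl⟩ : ∃ t, d = t + 1 := ⟨d - 1, by omega⟩
  set d := t + 1 with hd'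
  -- the set of top coefficients
  set B : Set ℝ := ⋃ p ∈ P, ⋃ q ∈ P.filter (fun q => q ≠ p),
    (fun x : ℝ × ℝ => (p : ℝ) ^ d * x.1 - (q : ℝ) ^ d * x.2) '' (K ×ˢ K) with hB
  have hBc : IsCompact B := by
    apply (Finset.isCompact_biUnion _ fun p _ => ?_)
    apply (Finset.isCompact_biUnion _ fun q _ => ?_)
    exact (hK.prod hK).image (by fun_prop)
  have hBi : ∀ α ∈ B, Irrational α := by
    intro α hα
    simp only [hB, Set.mem_iUnion, Set.mem_image] at hα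
    obtain ⟨p, hp, q, hq, ⟨x, y⟩, ⟨hx, hy⟩, rfl⟩ := hα
    rw [mem_filter] at hq
    exact hindep p (hP hp) q (hP hq.1) hq.2.symm x hx y hy
  -- the nilsequences
  set ε₁ : ℝ := min 1 (η / 24) with hε₁
  have hε₁0 : 0 < ε₁ := lt_min one_pos (by positivity)
  have hε₁1 : ε₁ ≤ 1 := min_le_left _ _
  have hε₁2 : ε₁ ≤ η / 24 := min_le_right _ _
  obtain ⟨M, hM1, hM⟩ := dual_nil A hanti hcomm Γ hC h1 hΓ d hdA f hf ε₁ hε₁0
  have hM0 : 0 < M := by linarith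
  obtain ⟨K', hK'0, hbox⟩ := box_poly t B hBc hBi (η / (8 * (M * M))) (by positivity)
  set S0 : ℝ := ∑ i ∈ range d, (K' i : ℝ) with hS0
  have hS00 : 0 ≤ S0 := sum_nonneg fun _ _ => Nat.cast_nonneg _
  set L : ℕ := ⌈16 * S0 / η⌉₊ + 1 with hL
  have hLr : 16 * S0 / η ≤ (L : ℝ) := by
    refine (Nat.le_ceil _).trans ?_
    rw [hL]; push_cast; linarith
  have hLS : 2 * S0 ≤ η / 8 * L := by
    rw [div_le_iff₀ hη] at hLr
    nlinarith
  -- the estimate for exact top coefficients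
  have hW : ∀ Q : ℝ[X], Q.natDegree ≤ d → Q.coeff d ∈ B → ∀ g g' y y' : G,
      ‖∑ l ∈ Icc 1 L, ee (Q.eval (l : ℝ)) * (f ((g ^ l * y : G) : G ⧸ Γ) *
        (starRingEnd ℂ) (f ((g' ^ l * y' : G) : G ⧸ Γ)))‖ ≤ η / 2 * L := by
    intro Q hQd hQc g g' y y'
    have k1 := hM 1 g y
    have k2 := (hM 1 g' y').conj
    have k3 := k1.mul k2 (fun m => hf1 _) (fun m => by rw [RCLike.norm_conj]; exact hf1 _) hε₁0.le
    have k4 := dual_small d K' hK'0 (η / (8 * (M * M))) (M * M) _ (by positivity)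
      (fun m => ee (Q.eval (m : ℝ))) _ (fun m => (norm_ee _).le) (fun m => by
        rw [norm_mul, RCLike.norm_conj]
        exact mul_le_one₀ (hf1 _) (norm_nonneg _) (hf1 _)) (hbox Q hQd hQc) k3 L
    simp only [one_mul] at k4
    refine k4.trans ?_
    have k5 : M * M * (η / (8 * (M * M))) = η / 8 := by field_simp
    have k6 : ε₁ + ε₁ * (1 + ε₁) ≤ η / 8 := by nlinarith
    rw [k5]
    have hL0 : (0 : ℝ) ≤ L := Nat.cast_nonneg _
    calc (L : ℝ) * (η / 8 + (ε₁ + ε₁ * (1 + ε₁))) + 2 * ∑ i ∈ range d, (K' i : ℝ)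
        ≤ (L : ℝ) * (η / 8 + η / 8) + η / 8 * L := by
          refine add_le_add (mul_le_mul_of_nonneg_left (by linarith) hL0) hLS
      _ ≤ _ := by nlinarith
  set S : ℝ := ∑ p ∈ P, (p : ℝ) ^ d with hS
  have hSn : 0 ≤ S := sum_nonneg (fun _ _ => by positivity)
  have hSp : ∀ p ∈ P, (p : ℝ) ^ d ≤ S := fun p hp =>
    single_le_sum (f := fun p : ℕ => (p : ℝ) ^ d) (fun _ _ => by positivity) hp
  have hpi := Real.pi_pos
  set D : ℝ := 2 * Real.pi * (2 * S) * (L : ℝ) ^ d + 1 with hD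
  have hD0 : 0 < D := by positivity
  refine ⟨L, by omega, η / 2 / D, by positivity, ?_⟩
  intro p hp q hq hpq i i' j
  obtain ⟨⟨Pi, hPi, α, hα, hαd⟩, g, y⟩ := i
  obtain ⟨⟨Pj, hPj, β, hβ, hβd⟩, g', y'⟩ := i'
  obtain ⟨n1, c1⟩ := comp_dilate Pi d hPi p j
  obtain ⟨n2, c2⟩ := comp_dilate Pj d hPj q j
  set R : ℝ[X] := Pi.comp (C (p : ℝ) * (X + C (j : ℝ))) - Pj.comp (C (q : ℝ) * (X + C (j : ℝ)))
    with hR
  have hRd : R.natDegree ≤ d := (natDegree_sub_le _ _).trans (max_le n1 n2)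
  have hRc : R.coeff d = (p : ℝ) ^ d * Pi.coeff d - (q : ℝ) ^ d * Pj.coeff d := by
    rw [hR, coeff_sub, c1, c2]
  set Δ : ℝ := ((p : ℝ) ^ d * α - (q : ℝ) ^ d * β) - R.coeff d with hΔ
  have hΔb : |Δ| ≤ 2 * S * (η / 2 / D) := by
    have e : Δ = -((p : ℝ) ^ d * (Pi.coeff d - α)) + (q : ℝ) ^ d * (Pj.coeff d - β) := by
      rw [hΔ, hRc]; ring
    rw [e]
    calc _ ≤ |-((p : ℝ) ^ d * (Pi.coeff d - α))| + |(q : ℝ) ^ d * (Pj.coeff d - β)| := abs_add_le _ _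
      _ = (p : ℝ) ^ d * |Pi.coeff d - α| + (q : ℝ) ^ d * |Pj.coeff d - β| := by
          rw [abs_neg, abs_mul, abs_mul, abs_of_nonneg (show (0:ℝ) ≤ (p : ℝ) ^ d by positivity),
            abs_of_nonneg (show (0:ℝ) ≤ (q : ℝ) ^ d by positivity)]
      _ ≤ S * (η / 2 / D) + S * (η / 2 / D) := by
          apply add_le_add
          · exact mul_le_mul (hSp p hp) hαd.le (abs_nonneg _) hSn
          · exact mul_le_mul (hSp q hq) hβd.le (abs_nonneg _) hSn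
      _ = _ := by ring
  set Q : ℝ[X] := R + C Δ * X ^ d with hQ
  have hQd : Q.natDegree ≤ d := by
    refine (natDegree_add_le _ _).trans (max_le hRd ?_)
    exact natDegree_C_mul_X_pow_le _ _
  have hQc : Q.coeff d = (p : ℝ) ^ d * α - (q : ℝ) ^ d * β := by
    rw [hQ, coeff_add, coeff_C_mul_X_pow, if_pos rfl, hΔ]; ring
  have hQB : Q.coeff d ∈ B := by
    rw [hQc, hB]
    simp only [Set.mem_iUnion]
    exact ⟨p, hp, q, mem_filter.mpr ⟨hq, hpq.symm⟩, (α, β), ⟨hα, hβ⟩, rfl⟩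
  set N : ℕ → ℂ := fun l => f (((g ^ p) ^ l * (g ^ (p * j) * y) : G) : G ⧸ Γ) *
        (starRingEnd ℂ) (f (((g' ^ q) ^ l * (g' ^ (q * j) * y') : G) : G ⧸ Γ)) with hN
  have hN1 : ∀ l, ‖N l‖ ≤ 1 := fun l => by
    rw [hN]; beta_reduce
    rw [norm_mul, RCLike.norm_conj]
    exact mul_le_one₀ (hf1 _) (norm_nonneg _) (hf1 _)
  have m1 : ‖∑ l ∈ Icc 1 L, ee (Q.eval (l : ℝ)) * N l‖ ≤ η / 2 * L :=
    hW Q hQd hQB _ _ _ _
  have h2 : ∀ l ∈ Icc 1 L, fam d K (η / 2 / D) f ⟨⟨Pi, hPi, α, hα, hαd⟩, g, y⟩ (p * (j + l)) *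
        (starRingEnd ℂ) (fam d K (η / 2 / D) f ⟨⟨Pj, hPj, β, hβ, hβd⟩, g', y'⟩ (q * (j + l)))
        = ee (Q.eval (l : ℝ)) * N l + (ee (R.eval (l : ℝ)) - ee (Q.eval (l : ℝ))) * N l := by
    intro l _
    simp only [fam, phase, map_mul]
    have e1 : g ^ (p * (j + l)) * y = (g ^ p) ^ l * (g ^ (p * j) * y) := by
      rw [← mul_assoc, ← pow_mul, ← pow_add]; congr 2; ring
    have e2 : g' ^ (q * (j + l)) * y' = (g' ^ q) ^ l * (g' ^ (q * j) * y') := by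
      rw [← mul_assoc, ← pow_mul, ← pow_add]; congr 2; ring
    rw [e1, e2]
    have e3 : R.eval (l : ℝ) = Pi.eval ((p * (j + l) : ℕ) : ℝ) - Pj.eval ((q * (j + l) : ℕ) : ℝ) := by
      rw [hR]; simp [add_comm]
    have e4 : ee (R.eval (l : ℝ)) = ee (Pi.eval ((p * (j + l) : ℕ) : ℝ)) *
        (starRingEnd ℂ) (ee (Pj.eval ((q * (j + l) : ℕ) : ℝ))) := by rw [e3, ee_sub]
    rw [← sub_eq_zero]
    have e5 : ee (Q.eval (l : ℝ)) * N l + (ee (R.eval (l : ℝ)) - ee (Q.eval (l : ℝ))) * N l =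
        ee (R.eval (l : ℝ)) * N l := by ring
    rw [e5, e4, hN]
    ring
  rw [sum_congr rfl h2, sum_add_distrib]
  have h3 : ‖∑ l ∈ Icc 1 L, (ee (R.eval (l : ℝ)) - ee (Q.eval (l : ℝ))) * N l‖ ≤ η / 2 * L := by
    calc _ ≤ ∑ l ∈ Icc 1 L, ‖(ee (R.eval (l : ℝ)) - ee (Q.eval (l : ℝ))) * N l‖ := norm_sum_le _ _
      _ ≤ ∑ l ∈ Icc 1 L, η / 2 := by
          apply sum_le_sum; intro l hl
          rw [mem_Icc] at hl
          rw [norm_mul]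
          refine (mul_le_of_le_one_right (norm_nonneg _) (hN1 l)).trans ?_
          refine (norm_ee_sub_ee_le _ _).trans ?_
          have e : R.eval (l : ℝ) - Q.eval (l : ℝ) = -(Δ * (l : ℝ) ^ d) := by
            rw [hQ]; simp
          rw [e, abs_neg, abs_mul, abs_of_nonneg (show (0:ℝ) ≤ (l : ℝ) ^ d by positivity)]
          have hl' : (l : ℝ) ^ d ≤ (L : ℝ) ^ d := by
            gcongr; exact_mod_cast hl.2
          calc 2 * Real.pi * (|Δ| * (l : ℝ) ^ d)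
              ≤ 2 * Real.pi * ((2 * S * (η / 2 / D)) * (L : ℝ) ^ d) := by gcongr
            _ = (η / 2) * ((D - 1) / D) := by rw [hD]; field_simp; ring
            _ ≤ (η / 2) * 1 := by
                apply mul_le_mul_of_nonneg_left _ (by positivity)
                rw [div_le_one hD0]; linarith
            _ = η / 2 := mul_one _
      _ = η / 2 * L := by simp; ring
  calc _ ≤ _ := norm_add_le _ _
    _ ≤ η / 2 * L + η / 2 * L := add_le_add m1 h3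
    _ = _ := by ring

/-- The uniform estimate, `f` bounded by one. -/
theorem twist_one (d : ℕ) (hd : 0 < d) (K : Set ℝ) (hK : IsCompact K) (PP : Set ℕ)
    (hPP : ∀ p ∈ PP, p.Prime)
    (hdiv : ¬ Summable (PP.indicator (fun p : ℕ => (1 : ℝ) / p)))
    (hindep : ∀ p ∈ PP, ∀ q ∈ PP, p ≠ q → ∀ α ∈ K, ∀ β ∈ K,
      Irrational ((p : ℝ) ^ d * α - (q : ℝ) ^ d * β))
    (A : ℕ → Subgroup G) (hanti : Antitone A) (hcomm : ∀ i j, ⁅A i, A j⁆ ≤ A (i + j))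
    (h1 : A 1 = ⊤) (hdA : A d = ⊥) (Γ : Subgroup G) (hΓ : IsClosed (Γ : Set G)) (hC : Coc A Γ)
    (f : G ⧸ Γ → ℂ) (hf : Continuous f) (hf1 : ∀ x, ‖f x‖ ≤ 1)
    (a : ℕ → ℂ) (ha : ∀ n, ‖a n‖ ≤ 1)
    (hmul : ∀ p ∈ PP, ∀ m, ¬ p ∣ m → a (p * m) = a p * a m) (ε : ℝ) (hε : 0 < ε) :
    ∃ δ : ℝ, 0 < δ ∧ ∃ H₀ : ℕ, ∀ N H : ℕ, H₀ ≤ H → H ≤ N →
      ∑ n ∈ Icc 1 N, (1 / (n : ℝ)) * GG (fam d K δ f) a H n ≤ ε * H * Real.log N := by
  obtain ⟨P, hPsub, η, hη, hmain⟩ := logarithmic' PP hPP hdiv a ha hmul ε hε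
  obtain ⟨L, hL0, δ, hδ, horth⟩ := twist_orth d hd K hK PP hindep A hanti hcomm h1 hdA Γ hΓ hC f hf
    hf1 P hPsub η hη
  exact ⟨δ, hδ, hmain L hL0 _ (fam d K δ f) (fun i n => norm_fam_le d K δ f hf1 i n) horth⟩

end

end Pool.Agent.Lib.MP_663568_nt.Tw
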