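import Mathlib
import Pool.Agent.Lib.MP_663568_nt.Weyl

/-!
# Functions on nilmanifolds: definitions

Functions on `G ⧸ Γ` are treated as functions on `G` which are invariant under `Γ` on the right.
-/

set_option autoImplicit false
open Finset

namespace Pool.Agent.Lib.MP_663568_nt.Fib

open Katai

variable {G : Type} [Group G] [TopologicalSpace G]

/-- A one-parameter subgroup. -/
def IsOneP (e : ℝ → G) : Prop := Continuous e ∧ ∀ a b : ℝ, e (a + b) = e a * e b

/-- A continuous function on `G ⧸ Γ`. -/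
def Reg (Γ : Subgroup G) (F : G → ℂ) : Prop :=
  Continuous F ∧ ∀ x, ∀ γ ∈ Γ, F (x * γ) = F x

/-- Invariance under left translations by elements of `B`. -/
def Inv {G : Type} [Group G] (B : Subgroup G) (F : G → ℂ) : Prop :=
  ∀ z ∈ B, ∀ x, F (z * x) = F x

/-- `F` has frequency `m` along `e`. -/
def Freq {G : Type} [Group G] (e : ℝ → G) (m : ℤ) (F : G → ℂ) : Prop :=
  ∀ (r : ℝ) (x : G), F (e r * x) = ee (m * r) * F x

/-- The component of `F` of frequency `m` along `e`. -/
noncomputable def Pop {G : Type} [Group G] (e : ℝ → G) (m : ℤ) (F : G → ℂ) (x : G) : ℂ :=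
  ∫ r in (0 : ℝ)..1, ee (-(m * r)) * F (e r * x)

/-- `G` is a compact set times `Γ`. -/
def Cocompact' (Γ : Subgroup G) : Prop :=
  ∃ C : Set G, IsCompact C ∧ ∀ x : G, ∃ c ∈ C, ∃ γ ∈ Γ, x = c * γ

end Pool.Agent.Lib.MP_663568_nt.Fib
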