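import Mathlib
import Pool.Agent.Lib.MP_663568_nt_h86.FDefs

/-!
# Fourier approximation along circles

Regular functions on `G ⧸ Γ` are uniformly approximated by sums of functions having a frequency
along finitely many commuting circles.
-/

set_option autoImplicit false
open Finset

namespace Pool.Agent.Lib.MP_663568_nt.Fib

open Katai

variable {G : Type} [Group G] [TopologicalSpace G] [IsTopologicalGroup G]

/-- M1a: uniform continuity under small left translations -/
theorem reg_unif (Γ : Subgroup G) (hC : Cocompact' Γ) (F : G → ℂ) (hF : Reg Γ F) (ε : ℝ)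
    (hε : 0 < ε) : ∀ᶠ z in nhds (1 : G), ∀ x, ‖F (z * x) - F x‖ ≤ ε := by
  obtain ⟨C, hC, hx⟩ := hC
  obtain ⟨hc, hinv⟩ := hF
  have key : ∀ᶠ z in nhds (1 : G), ∀ c ∈ C, ‖F (z * c) - F c‖ ≤ ε := by
    refine hC.eventually_forall_of_forall_eventually (P := fun z c => ‖F (z * c) - F c‖ ≤ ε)
      fun c _ => ?_
    have hcont : Continuous fun p : G × G => ‖F (p.1 * p.2) - F p.2‖ := by fun_prop
    have h0 : ‖F ((1 : G) * c) - F c‖ < ε := by simpa using hε
    exact (hcont.continuousAt.eventually (gt_mem_nhds h0)).mono fun p hp => le_of_lt hp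
  filter_upwards [key] with z hz x
  obtain ⟨c, hcC, γ, hγ, rfl⟩ := hx x
  rw [← mul_assoc, hinv _ γ hγ, hinv _ γ hγ]
  exact hz c hcC

/-- M1b: components of regular functions are regular -/
theorem reg_Pop (Γ : Subgroup G) (F : G → ℂ) (hF : Reg Γ F) (e : ℝ → G) (he : Continuous e)
    (m : ℤ) : Reg Γ (Pop e m F) := by
  obtain ⟨hc, hinv⟩ := hF
  have hee : Continuous ee := continuous_ee
  constructor
  · unfold Pop
    apply intervalIntegral.continuous_parametric_intervalIntegral_of_continuous'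
    simp only [Function.uncurry_def]
    fun_prop
  · intro x γ hγ
    simp only [Pop]
    congr 1
    funext r
    rw [← mul_assoc, hinv _ γ hγ]

/-- M1c: frequency of a component -/
theorem freq_Pop (F : G → ℂ) (hF : Continuous F) (e : ℝ → G) (he : IsOneP e)
    (hper : ∀ x, F (e 1 * x) = F x) (m : ℤ) : Freq e m (Pop e m F) := by
  intro r₀ x
  simp only [Pop]
  set φ : ℝ → ℂ := fun s => ee (-(m * s)) * F (e s * x) with hφ
  have hφp : Function.Periodic φ 1 := by
    intro s
    simp only [hφ]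
    have h1 : e (s + 1) * x = e 1 * (e s * x) := by rw [add_comm, he.2, mul_assoc]
    have h2 : ee (-(m * (s + 1))) = ee (-(m * s)) := by
      have : (-(m * (s + 1)) : ℝ) = -(m * s) + ((-m : ℤ) : ℝ) := by push_cast; ring
      rw [this, ee_add, ee_int, mul_one]
    rw [h1, hper, h2]
  have h3 : (fun r => ee (-(m * r)) * F (e r * (e r₀ * x)))
      = fun r => ee (m * r₀) * φ (r + r₀) := by
    funext r
    simp only [hφ]
    rw [he.2, mul_assoc, ← mul_assoc (ee _), ← ee_add]
    congr 2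
    ring
  rw [h3, intervalIntegral.integral_const_mul, intervalIntegral.integral_comp_add_right φ r₀]
  congr 1
  have h4 := hφp.intervalIntegral_add_eq r₀ 0
  rw [zero_add, add_comm r₀ 1] at h4
  rw [zero_add, h4]

namespace M1

/-- trigonometric approximation of a continuous function on the circle -/
lemma trig (u : C(UnitAddCircle, ℂ)) (η : ℝ) (hη : 0 < η) :
    ∃ (M : Finset ℤ) (a : ℤ → ℂ), ∀ r : ℝ, ‖u (r : UnitAddCircle) - ∑ m ∈ M, a m * ee (m * r)‖ ≤ η := by
  have h : u ∈ (Submodule.span ℂ (Set.range (fourier (T := (1 : ℝ))))).topologicalClosure := by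
    rw [span_fourier_closure_eq_top]; trivial
  have h' : u ∈ closure ((Submodule.span ℂ (Set.range (fourier (T := (1 : ℝ)))) :
      Set C(UnitAddCircle, ℂ))) := h
  obtain ⟨T, hT, hd⟩ := Metric.mem_closure_iff.mp h' η hη
  obtain ⟨c, hc⟩ := (Finsupp.mem_span_range_iff_exists_finsupp).mp hT
  refine ⟨c.support, c, fun r => ?_⟩
  have h1 : T (r : UnitAddCircle) = ∑ m ∈ c.support, c m * ee (m * r) := by
    rw [← hc, Finsupp.sum, ContinuousMap.coe_sum, Finset.sum_apply]
    refine Finset.sum_congr rfl fun m _ => ?_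
    rw [ContinuousMap.coe_smul, Pi.smul_apply, smul_eq_mul, fourier_coe_apply, ee]
    congr 2
    push_cast
    ring
  rw [← h1]
  have h2 : ‖u (r : UnitAddCircle) - T r‖ ≤ ‖u - T‖ := (u - T).norm_coe_le_norm _
  rw [dist_eq_norm] at hd
  exact h2.trans hd.le

/-- the bump function -/
noncomputable def bump (δ r : ℝ) : ℝ :=
  max 0 (Real.cos (2 * Real.pi * r) - Real.cos (2 * Real.pi * δ))

lemma bump_cont (δ : ℝ) : Continuous (bump δ) := by
  unfold bump; fun_prop

lemma bump_nonneg (δ r : ℝ) : 0 ≤ bump δ r := le_max_left _ _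

lemma bump_neg (δ r : ℝ) : bump δ (-r) = bump δ r := by
  unfold bump
  rw [show 2 * Real.pi * -r = -(2 * Real.pi * r) by ring, Real.cos_neg]

lemma bump_trig (δ η : ℝ) (hη : 0 < η) :
    ∃ (M : Finset ℤ) (a : ℤ → ℂ), ∀ r : ℝ, ‖(bump δ r : ℂ) - ∑ m ∈ M, a m * ee (-(m * r))‖ ≤ η := by
  let u : C(UnitAddCircle, ℂ) :=
    ⟨fun x => ((max 0 ((fourier 1 x : ℂ).re - Real.cos (2 * Real.pi * δ)) : ℝ) : ℂ), by fun_prop⟩
  obtain ⟨M, a, h⟩ := trig u η hη
  refine ⟨M, a, fun r => ?_⟩
  have h1 := h (-r)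
  have h2 : u ((-r : ℝ) : UnitAddCircle) = (bump δ (-r) : ℂ) := by
    change ((max 0 ((fourier 1 ((-r : ℝ) : UnitAddCircle) : ℂ).re
      - Real.cos (2 * Real.pi * δ)) : ℝ) : ℂ) = _
    rw [fourier_coe_apply, bump]
    congr 3
    rw [show (2 * Real.pi * Complex.I * ((1 : ℤ) : ℂ) * ((-r : ℝ) : ℂ) / ((1 : ℝ) : ℂ) : ℂ)
      = ((2 * Real.pi * -r : ℝ) : ℂ) * Complex.I by push_cast; ring, Complex.exp_ofReal_mul_I_re]
  rw [h2, bump_neg] at h1
  convert h1 using 4 with m _
  congr 2
  ring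

lemma bump_support {δ : ℝ} (hδ : 0 < δ) {r : ℝ} (h : bump δ r ≠ 0) :
    |r - round r| < δ := by
  by_contra hc
  apply h
  rw [bump, max_eq_left]
  rw [sub_nonpos]
  have e1 : Real.cos (2 * Real.pi * r) = Real.cos (2 * Real.pi * |r - round r|) := by
    rcases abs_choice (r - round r) with h1 | h1
    · rw [h1, show 2 * Real.pi * (r - round r) = 2 * Real.pi * r - (round r : ℤ) * (2 * Real.pi) by
        ring, Real.cos_sub_int_mul_two_pi]
    · rw [h1, show 2 * Real.pi * -(r - round r)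
        = -(2 * Real.pi * r - (round r : ℤ) * (2 * Real.pi)) by ring, Real.cos_neg,
        Real.cos_sub_int_mul_two_pi]
  rw [e1]
  have h2 : |r - round r| ≤ 1 / 2 := abs_sub_round r
  have hpi := Real.pi_pos
  apply Real.cos_le_cos_of_nonneg_of_le_pi
  · positivity
  · nlinarith
  · nlinarith [not_lt.mp hc]

lemma bump_pos {δ : ℝ} (h0 : 0 < δ) (h1 : δ ≤ 1 / 2) : 0 < ∫ r in (0 : ℝ)..1, bump δ r := by
  refine intervalIntegral.integral_pos one_pos (bump_cont δ).continuousOn
    (fun r _ => bump_nonneg δ r) ⟨0, by simp, ?_⟩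
  unfold bump
  apply lt_max_of_lt_right
  have hpi := Real.pi_pos
  have : Real.cos (2 * Real.pi * δ) < Real.cos (2 * Real.pi * 0) := by
    apply Real.cos_lt_cos_of_nonneg_of_le_pi
    · simp
    · nlinarith
    · nlinarith
  linarith

lemma exists_sup (Γ : Subgroup G) (hC : Cocompact' Γ) (F : G → ℂ) (hF : Reg Γ F) :
    ∃ B : ℝ, 0 ≤ B ∧ ∀ x, ‖F x‖ ≤ B := by
  obtain ⟨C, hC, hx⟩ := hC
  obtain ⟨B, hB⟩ := hC.exists_bound_of_continuousOn hF.1.continuousOn
  refine ⟨max 0 B, le_max_left _ _, fun x => ?_⟩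
  obtain ⟨c, hcC, γ, hγ, rfl⟩ := hx x
  rw [hF.2 _ γ hγ]
  exact (hB c hcC).trans (le_max_right _ _)

/-- approximation along one circle -/
theorem one_circle (Γ : Subgroup G) (hC : Cocompact' Γ) (F : G → ℂ) (hF : Reg Γ F)
    (e : ℝ → G) (he : IsOneP e) (hper : ∀ x, F (e 1 * x) = F x) (ε : ℝ) (hε : 0 < ε) :
    ∃ (M : Finset ℤ) (c : ℤ → ℂ), ∀ x, ‖F x - ∑ m ∈ M, c m * Pop e m F x‖ ≤ ε := by
  obtain ⟨B, hB0, hB⟩ := exists_sup Γ hC F hF
  have he0 : e 0 = 1 := by
    have := he.2 0 0
    rw [add_zero] at this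
    exact (mul_eq_left.mp this.symm)
  have hev : ∀ᶠ r in nhds (0 : ℝ), ∀ x, ‖F (e r * x) - F x‖ ≤ ε / 2 := by
    have h := reg_unif Γ hC F hF (ε / 2) (by positivity)
    rw [← he0] at h
    exact he.1.continuousAt.eventually h
  obtain ⟨δ', hδ', hball⟩ := Metric.eventually_nhds_iff.mp hev
  set δ := min δ' (1 / 2) with hδdef
  have hδ : 0 < δ := lt_min hδ' (by norm_num)
  have hδ2 : δ ≤ 1 / 2 := min_le_right _ _
  have hφp : ∀ x, Function.Periodic (fun s => F (e s * x)) 1 := by
    intro x s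
    change F (e (s + 1) * x) = F (e s * x)
    rw [add_comm, he.2, mul_assoc, hper]
  have hnear : ∀ r x, bump δ r * ‖F x - F (e r * x)‖ ≤ bump δ r * (ε / 2) := by
    intro r x
    rcases eq_or_ne (bump δ r) 0 with h | h
    · rw [h, zero_mul, zero_mul]
    · have h1 := bump_support hδ h
      have h2 : ‖F (e (r - round r) * x) - F x‖ ≤ ε / 2 := by
        apply hball
        rw [Real.dist_eq, sub_zero]
        exact h1.trans_le (min_le_left _ _)
      have h3 : F (e (r - round r) * x) = F (e r * x) := by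
        have := (hφp x).sub_int_mul_eq (x := r) (round r)
        simpa using this
      rw [h3, norm_sub_rev] at h2
      exact mul_le_mul_of_nonneg_left h2 (bump_nonneg δ r)
  set Z := ∫ r in (0 : ℝ)..1, bump δ r with hZ
  have hZpos : 0 < Z := bump_pos hδ hδ2
  set η := Z * (ε / 2) / (B + 1) with hη
  have hηpos : 0 < η := by positivity
  obtain ⟨M, a, hM⟩ := bump_trig δ η hηpos
  refine ⟨M, fun m => a m / Z, fun x => ?_⟩
  have hFc : Continuous F := hF.1
  have hec : Continuous e := he.1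
  have hee : Continuous ee := continuous_ee
  have hbc : Continuous (bump δ) := bump_cont δ
  set P : ℝ → ℂ := fun r => ∑ m ∈ M, a m * ee (-(m * r)) with hP
  have hPc : Continuous P := by
    rw [hP]; fun_prop
  have e1 : ∑ m ∈ M, a m * Pop e m F x = ∫ r in (0 : ℝ)..1, P r * F (e r * x) := by
    simp only [Pop, hP, Finset.sum_mul]
    rw [intervalIntegral.integral_finsetSum]
    · refine Finset.sum_congr rfl fun m _ => ?_
      rw [← intervalIntegral.integral_const_mul]
      congr 1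
      funext r
      ring
    · intro m _
      apply Continuous.intervalIntegrable
      fun_prop
  have e2 : (Z : ℂ) * F x = ∫ r in (0 : ℝ)..1, (bump δ r : ℂ) * F x := by
    rw [intervalIntegral.integral_mul_const, hZ, intervalIntegral.integral_ofReal]
  have e3 : (Z : ℂ) * F x - ∑ m ∈ M, a m * Pop e m F x
      = (∫ r in (0 : ℝ)..1, (bump δ r : ℂ) * (F x - F (e r * x)))
        + ∫ r in (0 : ℝ)..1, ((bump δ r : ℂ) - P r) * F (e r * x) := by
    rw [e1, e2, ← intervalIntegral.integral_sub, ← intervalIntegral.integral_add]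
    · congr 1
      funext r
      ring
    all_goals
      apply Continuous.intervalIntegrable
      fun_prop
  have h1 : ‖∫ r in (0 : ℝ)..1, (bump δ r : ℂ) * (F x - F (e r * x))‖ ≤ Z * (ε / 2) := by
    have := intervalIntegral.norm_integral_le_of_norm_le (μ := MeasureTheory.volume)
      (a := 0) (b := 1)
      (f := fun r => (bump δ r : ℂ) * (F x - F (e r * x))) (g := fun r => bump δ r * (ε / 2))
      zero_le_one (Filter.Eventually.of_forall fun r _ => by
        rw [norm_mul, Complex.norm_real, Real.norm_of_nonneg (bump_nonneg δ r)]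
        exact hnear r x) ((hbc.mul continuous_const).intervalIntegrable _ _)
    rwa [intervalIntegral.integral_mul_const] at this
  have h2 : ‖∫ r in (0 : ℝ)..1, ((bump δ r : ℂ) - P r) * F (e r * x)‖ ≤ Z * (ε / 2) := by
    have := intervalIntegral.norm_integral_le_of_norm_le_const (a := 0) (b := 1)
      (C := η * B) (f := fun r => ((bump δ r : ℂ) - P r) * F (e r * x)) (fun r _ => by
        rw [norm_mul]
        exact mul_le_mul (hM r) (hB _) (norm_nonneg _) hηpos.le)
    refine this.trans ?_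
    rw [sub_zero, abs_one, mul_one, hη, div_mul_eq_mul_div]
    apply div_le_of_le_mul₀ (by positivity) (by positivity)
    apply mul_le_mul_of_nonneg_left (by linarith) (by positivity)
  have hZ0 : (Z : ℂ) ≠ 0 := by exact_mod_cast hZpos.ne'
  have e4 : F x - ∑ m ∈ M, a m / Z * Pop e m F x
      = ((Z : ℂ) * F x - ∑ m ∈ M, a m * Pop e m F x) / Z := by
    rw [sub_div, mul_div_cancel_left₀ _ hZ0, Finset.sum_div]
    congr 1
    refine Finset.sum_congr rfl fun m _ => ?_
    ring
  rw [e4, norm_div, Complex.norm_real, Real.norm_of_nonneg hZpos.le, div_le_iff₀ hZpos, e3]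
  calc _ ≤ Z * (ε / 2) + Z * (ε / 2) := (norm_add_le _ _).trans (add_le_add h1 h2)
    _ = ε * Z := by ring

end M1

/-- M1d: finite Fourier approximation for a family of circles.  `J` is a class of functions closed
under taking components and scalar multiples. -/
theorem fourier_list (Γ : Subgroup G) (hC : Cocompact' Γ) (es : List (ℝ → G))
    (hes : ∀ e ∈ es, IsOneP e) (J : (G → ℂ) → Prop) (hreg : ∀ F, J F → Reg Γ F)
    (hper : ∀ F, J F → ∀ e ∈ es, ∀ x, F (e 1 * x) = F x)
    (hcomm : ∀ F, J F → ∀ e ∈ es, ∀ e' ∈ es, ∀ r r' x,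
      F (e r * (e' r' * x)) = F (e' r' * (e r * x)))
    (hJ : ∀ F, J F → ∀ e ∈ es, ∀ m : ℤ, J (Pop e m F))
    (hsmul : ∀ F, J F → ∀ c : ℂ, J (fun x => c * F x)) (F : G → ℂ) (hF : J F)
    (ε : ℝ) (hε : 0 < ε) :
    ∃ (ι : Type) (_ : Fintype ι) (Fs : ι → G → ℂ),
      (∀ i, J (Fs i) ∧ ∀ e ∈ es, ∃ m : ℤ, Freq e m (Fs i)) ∧
      ∀ x, ‖F x - ∑ i, Fs i x‖ ≤ ε := by
  induction es generalizing ε with
  | nil =>
    refine ⟨Unit, inferInstance, fun _ => F, fun _ => ⟨hF, by simp⟩, fun x => ?_⟩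
    simp [hε.le]
  | cons e es ih =>
    obtain ⟨ι, hι, Fs, h1, h2⟩ := ih (fun e' h => hes e' (List.mem_cons_of_mem _ h))
      (fun F hF e' h => hper F hF e' (List.mem_cons_of_mem _ h))
      (fun F hF e' h e'' h' => hcomm F hF e' (List.mem_cons_of_mem _ h) e''
        (List.mem_cons_of_mem _ h'))
      (fun F hF e' h => hJ F hF e' (List.mem_cons_of_mem _ h)) (ε / 2) (by positivity)
    have he : e ∈ e :: es := List.mem_cons_self
    have h3 : ∀ i, ∃ (M : Finset ℤ) (c : ℤ → ℂ),
        ∀ x, ‖Fs i x - ∑ m ∈ M, c m * Pop e m (Fs i) x‖ ≤ ε / 2 / (Fintype.card ι + 1) :=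
      fun i => M1.one_circle Γ hC (Fs i) (hreg _ (h1 i).1) e (hes e he)
        (hper _ (h1 i).1 e he) _ (by positivity)
    choose M c h4 using h3
    refine ⟨(i : ι) × (M i : Finset ℤ), inferInstance,
      fun p x => c p.1 p.2 * Pop e p.2 (Fs p.1) x, fun p => ⟨?_, ?_⟩, fun x => ?_⟩
    · exact hsmul _ (hJ _ (h1 p.1).1 e he _) _
    · intro e' he'
      rcases List.mem_cons.mp he' with rfl | he''
      · refine ⟨p.2, fun r x => ?_⟩
        have := freq_Pop (Fs p.1) (hreg _ (h1 p.1).1).1 e' (hes e' he)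
          (hper _ (h1 p.1).1 e' he) p.2 r x
        change c p.1 p.2 * Pop e' p.2 (Fs p.1) (e' r * x) = _
        rw [this]
        ring
      · obtain ⟨m', hm'⟩ := (h1 p.1).2 e' he''
        refine ⟨m', fun r x => ?_⟩
        change c p.1 p.2 * Pop e p.2 (Fs p.1) (e' r * x)
          = ee (m' * r) * (c p.1 p.2 * Pop e p.2 (Fs p.1) x)
        have : Pop e p.2 (Fs p.1) (e' r * x) = ee (m' * r) * Pop e p.2 (Fs p.1) x := by
          simp only [Pop]
          rw [← intervalIntegral.integral_const_mul]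
          congr 1
          funext s
          rw [hcomm _ (h1 p.1).1 e he e' he' s r x, hm' r]
          ring
        rw [this]
        ring
    · have e5 : ∑ p : (i : ι) × (M i : Finset ℤ), c p.1 p.2 * Pop e p.2 (Fs p.1) x
          = ∑ i, ∑ m ∈ M i, c i m * Pop e m (Fs i) x := by
        rw [Fintype.sum_sigma]
        refine Finset.sum_congr rfl fun i _ => ?_
        exact Finset.sum_coe_sort (M i) fun m => c i m * Pop e m (Fs i) x
      rw [e5]
      have e6 : F x - ∑ i, ∑ m ∈ M i, c i m * Pop e m (Fs i) x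
          = (F x - ∑ i, Fs i x) + ∑ i, (Fs i x - ∑ m ∈ M i, c i m * Pop e m (Fs i) x) := by
        rw [Finset.sum_sub_distrib]; ring
      rw [e6]
      have h5 : ‖∑ i, (Fs i x - ∑ m ∈ M i, c i m * Pop e m (Fs i) x)‖ ≤ ε / 2 := by
        refine (norm_sum_le _ _).trans ((Finset.sum_le_sum fun i _ => h4 i x).trans ?_)
        rw [Finset.sum_const, nsmul_eq_mul, Finset.card_univ, mul_div_assoc',
          div_le_iff₀ (by positivity)]
        nlinarith
      calc _ ≤ ε / 2 + ε / 2 := (norm_add_le _ _).trans (add_le_add (h2 x) h5)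
        _ = ε := by ring

end Pool.Agent.Lib.MP_663568_nt.Fib
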