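import Mathlib
import Pool.Agent.Lib.MP_663568_nt.Final
import Pool.Agent.Lib.MP_663568_nt_h86.FDefs

/-! # The uniform estimate for one function and one set of group elements: definitions -/

set_option autoImplicit false
open Finset

namespace Pool.Agent.Lib.MP_663568_nt.Fib

open Katai

variable {G : Type} [Group G] [TopologicalSpace G]

/-- the index set: an element of `U N` and a base point -/
abbrev Idx (N : Subgroup G) (U : Set G) : Type := {g : G // ∃ u ∈ U, ∃ w ∈ N, g = u * w} × G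

/-- the family of sequences `F (g ^ n x)` -/
def orb (N : Subgroup G) (U : Set G) (F : G → ℂ) (i : Idx N U) (n : ℕ) : ℂ :=
  F ((i.1 : G) ^ n * i.2)

/-- The uniform estimate for `F` and all `g ∈ U N`, `U` a neighbourhood of `K`. -/
def UnifOn (N : Subgroup G) (F : G → ℂ) (K : Set G) : Prop :=
  ∀ ε : ℝ, 0 < ε → ∃ U : Set G, IsOpen U ∧ K ⊆ U ∧ ∃ H₀ : ℕ, ∀ M H : ℕ, H₀ ≤ H → H ≤ M →
    ∑ n ∈ Icc 1 M, (1 / (n : ℝ)) * GG (orb N U F) muC H n ≤ ε * H * Real.log M

/-- `g` acts ergodically on the horizontal torus. -/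
def Erg (Γ : Subgroup G) (g : G) : Prop :=
  ∀ χ : G →* Circle, Continuous χ → (∀ γ ∈ Γ, χ γ = 1) → χ g = 1 → χ = 1

/-- `(a, b)` acts ergodically on the horizontal torus of `G × G`. -/
def JErg (Γ : Subgroup G) (a b : G) : Prop :=
  ∀ χ χ' : G →* Circle, Continuous χ → Continuous χ' → (∀ γ ∈ Γ, χ γ = 1) →
    (∀ γ ∈ Γ, χ' γ = 1) → χ a * χ' b = 1 → χ = 1 ∧ χ' = 1

end Pool.Agent.Lib.MP_663568_nt.Fib
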