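import Mathlib
import Pool.Agent.Lib.MP_663568_nt_h86.FUnif

/-! # M13: operations with the uniform estimate -/

set_option autoImplicit false
open Finset

namespace Pool.Agent.Lib.MP_663568_nt.Fib

open Katai

variable {G : Type} [Group G]

namespace Calc

theorem window_le {N : Subgroup G} {U : Set G} {F : G → ℂ} {B : ℝ} (hB : ∀ x, ‖F x‖ ≤ B)
    (H n : ℕ) (i : Idx N U) :
    ‖∑ h ∈ Icc 1 H, orb N U F i (n + h) * muC (n + h)‖ ≤ H * B := by
  have hB0 : 0 ≤ B := (norm_nonneg _).trans (hB 1)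
  calc _ ≤ ∑ h ∈ Icc 1 H, ‖orb N U F i (n + h) * muC (n + h)‖ := norm_sum_le _ _
    _ ≤ ∑ _h ∈ Icc 1 H, B := by
        refine sum_le_sum fun h _ => ?_
        rw [norm_mul]
        calc _ ≤ B * 1 := mul_le_mul (hB _) (norm_muC _) (norm_nonneg _) hB0
          _ = B := mul_one B
    _ = H * B := by simp

theorem le_GG' {N : Subgroup G} {U : Set G} {F : G → ℂ} (hF : ∃ B : ℝ, ∀ x, ‖F x‖ ≤ B)
    (H n : ℕ) (i : Idx N U) :
    ‖∑ h ∈ Icc 1 H, orb N U F i (n + h) * muC (n + h)‖ ≤ GG (orb N U F) muC H n := by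
  obtain ⟨B, hB⟩ := hF
  refine le_ciSup (f := fun i => ‖∑ h ∈ Icc 1 H, orb N U F i (n + h) * muC (n + h)‖)
    ⟨H * B, ?_⟩ i
  rintro _ ⟨i, rfl⟩
  exact window_le hB H n i

theorem GG_le_sum {κ : Type} (S : Finset κ) {N : Subgroup G} (U : κ → Set G) {W : Set G}
    (hW : ∀ x ∈ W, ∃ j ∈ S, x ∈ U j) {F : G → ℂ} (hF : ∃ B : ℝ, ∀ x, ‖F x‖ ≤ B) (H n : ℕ) :
    GG (orb N W F) muC H n ≤ ∑ j ∈ S, GG (orb N (U j) F) muC H n := by
  refine Real.iSup_le ?_ (sum_nonneg fun _ _ => GG_nonneg _ _ _ _)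
  rintro ⟨⟨g, u, hu, w, hw, rfl⟩, x⟩
  obtain ⟨j, hj, huj⟩ := hW u hu
  have h1 := le_GG' (N := N) (U := U j) hF H n ⟨⟨u * w, u, huj, w, hw, rfl⟩, x⟩
  refine h1.trans ?_
  exact single_le_sum (f := fun j => GG (orb N (U j) F) muC H n)
    (fun _ _ => GG_nonneg _ _ _ _) hj

theorem log_nonneg (M : ℕ) : 0 ≤ Real.log M := Real.log_natCast_nonneg M

end Calc

open Calc

variable [TopologicalSpace G] [IsTopologicalGroup G]

/-- M13a (file FCalc.lean) -/
theorem unifOn_const_mul (N : Subgroup G) (F : G → ℂ) (K : Set G) (h : UnifOn N F K) (c : ℂ)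
    (hF : ∃ B : ℝ, ∀ x, ‖F x‖ ≤ B) : UnifOn N (fun x => c * F x) K := by
  intro ε hε
  obtain ⟨U, hU, hKU, H₀, hH⟩ := h (ε / (‖c‖ + 1)) (by positivity)
  refine ⟨U, hU, hKU, H₀, fun M H h1 h2 => ?_⟩
  have hG : ∀ n, GG (orb N U fun x => c * F x) muC H n = ‖c‖ * GG (orb N U F) muC H n := by
    intro n
    rw [GG, GG, Real.mul_iSup_of_nonneg (norm_nonneg _)]
    congr 1
    funext i
    rw [← norm_mul, mul_sum]
    congr 1
    refine sum_congr rfl fun h _ => ?_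
    simp only [orb]
    ring
  have h3 := hH M H h1 h2
  have h4 : ∑ n ∈ Icc 1 M, (1 / (n : ℝ)) * GG (orb N U fun x => c * F x) muC H n =
      ‖c‖ * ∑ n ∈ Icc 1 M, (1 / (n : ℝ)) * GG (orb N U F) muC H n := by
    rw [mul_sum]
    refine sum_congr rfl fun n _ => ?_
    rw [hG]
    ring
  rw [h4]
  have h5 : 0 ≤ (H : ℝ) * Real.log M := mul_nonneg (by positivity) (log_nonneg M)
  calc _ ≤ ‖c‖ * (ε / (‖c‖ + 1) * H * Real.log M) :=
        mul_le_mul_of_nonneg_left h3 (norm_nonneg _)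
    _ = (‖c‖ / (‖c‖ + 1)) * (ε * (H * Real.log M)) := by field_simp
    _ ≤ 1 * (ε * (H * Real.log M)) := by
        refine mul_le_mul_of_nonneg_right ?_ (by positivity)
        rw [div_le_one (by positivity)]
        linarith
    _ = ε * H * Real.log M := by ring

/-- M13b -/
theorem unifOn_approx (N : Subgroup G) (F : G → ℂ) (K : Set G) (hF : ∃ B : ℝ, ∀ x, ‖F x‖ ≤ B)
    (h : ∀ ε : ℝ, 0 < ε → ∃ (ι : Type) (_ : Fintype ι) (Fs : ι → G → ℂ),
      (∀ i, UnifOn N (Fs i) K ∧ ∃ B : ℝ, ∀ x, ‖Fs i x‖ ≤ B) ∧ ∀ x, ‖F x - ∑ i, Fs i x‖ ≤ ε) :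
    UnifOn N F K := by
  intro ε hε
  obtain ⟨ι, _, Fs, hFs, hap⟩ := h (ε / 4) (by positivity)
  have h1 := fun i => (hFs i).1 (ε / (2 * (Fintype.card ι + 1))) (by positivity)
  choose U hU hKU H₀ hH using h1
  refine ⟨⋂ i, U i, isOpen_iInter_of_finite hU, Set.subset_iInter hKU, 3 + ∑ i, H₀ i, ?_⟩
  intro M H hHH hHM
  have hM3 : 3 ≤ M := by omega
  have hH₀ : ∀ i, H₀ i ≤ H := by
    intro i
    have := single_le_sum (f := H₀) (fun _ _ => Nat.zero_le _) (mem_univ i)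
    omega
  have hlogM : 1 ≤ Real.log M := by
    rw [Real.le_log_iff_exp_le (by positivity)]
    have h1 : Real.exp 1 < 2.7182818286 := Real.exp_one_lt_d9
    have h2 : (3 : ℝ) ≤ M := by exact_mod_cast hM3
    linarith
  have hpt : ∀ n, GG (orb N (⋂ i, U i) F) muC H n ≤
      ∑ i, GG (orb N (U i) (Fs i)) muC H n + ε / 4 * H := by
    intro n
    refine Real.iSup_le ?_ (add_nonneg (sum_nonneg fun _ _ => GG_nonneg _ _ _ _) (by positivity))
    rintro ⟨⟨g, u, hu, w, hw, rfl⟩, x⟩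
    rw [Set.mem_iInter] at hu
    let i' : ∀ i, Idx N (U i) := fun i => ⟨⟨u * w, u, hu i, w, hw, rfl⟩, x⟩
    have e1 : ∑ h ∈ Icc 1 H, orb N (⋂ i, U i) F
        ⟨⟨u * w, u, Set.mem_iInter.2 hu, w, hw, rfl⟩, x⟩ (n + h) * muC (n + h) =
        ∑ i, ∑ h ∈ Icc 1 H, orb N (U i) (Fs i) (i' i) (n + h) * muC (n + h) +
        ∑ h ∈ Icc 1 H, (F ((u * w) ^ (n + h) * x) - ∑ i, Fs i ((u * w) ^ (n + h) * x)) *
          muC (n + h) := by
      rw [sum_comm, ← sum_add_distrib]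
      refine sum_congr rfl fun h _ => ?_
      simp only [orb, i']
      rw [← sum_mul]
      ring
    rw [e1]
    refine (norm_add_le _ _).trans (add_le_add ?_ ?_)
    · refine (norm_sum_le _ _).trans (sum_le_sum fun i _ => ?_)
      exact le_GG' (hFs i).2 H n (i' i)
    · calc _ ≤ ∑ h ∈ Icc 1 H, ‖(F ((u * w) ^ (n + h) * x) -
            ∑ i, Fs i ((u * w) ^ (n + h) * x)) * muC (n + h)‖ := norm_sum_le _ _
        _ ≤ ∑ _h ∈ Icc 1 H, ε / 4 := by
            refine sum_le_sum fun h _ => ?_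
            rw [norm_mul]
            calc _ ≤ ε / 4 * 1 := mul_le_mul (hap _) (norm_muC _) (norm_nonneg _) (by positivity)
              _ = ε / 4 := mul_one _
        _ = ε / 4 * H := by simp [mul_comm]
  have hH0 : (0 : ℝ) ≤ H := by positivity
  calc _ ≤ ∑ n ∈ Icc 1 M, (1 / (n : ℝ)) *
        (∑ i, GG (orb N (U i) (Fs i)) muC H n + ε / 4 * H) := by
        refine sum_le_sum fun n _ => ?_
        exact mul_le_mul_of_nonneg_left (hpt n) (by positivity)
    _ = ∑ i, ∑ n ∈ Icc 1 M, (1 / (n : ℝ)) * GG (orb N (U i) (Fs i)) muC H n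
        + (∑ n ∈ Icc 1 M, (1 / (n : ℝ))) * (ε / 4 * H) := by
        simp only [mul_add, sum_add_distrib]
        congr 1
        · simp only [mul_sum]
          rw [sum_comm]
        · rw [sum_mul]
    _ ≤ ∑ _i : ι, (ε / (2 * (Fintype.card ι + 1)) * H * Real.log M)
        + (1 + Real.log M) * (ε / 4 * H) := by
        apply add_le_add
        · exact sum_le_sum fun i _ => hH i M H (hH₀ i) hHM
        · exact mul_le_mul_of_nonneg_right (sum_inv_le_log M) (by positivity)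
    _ = (Fintype.card ι : ℝ) / (Fintype.card ι + 1) * (ε / 2 * H * Real.log M)
        + (1 + Real.log M) * (ε / 4 * H) := by
        rw [sum_const, card_univ, nsmul_eq_mul]
        field_simp
    _ ≤ 1 * (ε / 2 * H * Real.log M) + (Real.log M + Real.log M) * (ε / 4 * H) := by
        apply add_le_add
        · apply mul_le_mul_of_nonneg_right _ (by positivity)
          rw [div_le_one (by positivity)]; linarith
        · apply mul_le_mul_of_nonneg_right _ (by positivity)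
          linarith
    _ = ε * H * Real.log M := by ring

/-- M13c: compact subsets of countable unions -/
theorem unifOn_compact (N : Subgroup G) (F : G → ℂ) (hF : ∃ B : ℝ, ∀ x, ‖F x‖ ≤ B)
    (C : Set G) (hC : IsCompact C) (K : ℕ → Set G) (hCK : C ⊆ ⋃ j, K j)
    (h : ∀ j, UnifOn N F (K j)) : UnifOn N F C := by
  intro ε hε
  have h1 := fun j => h j (ε / 2 / 2 ^ j) (by positivity)
  choose U hU hKU H₀ hH using h1
  obtain ⟨S, hS⟩ := hC.elim_finite_subcover U hU (hCK.trans (Set.iUnion_mono hKU))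
  refine ⟨⋃ j ∈ S, U j, isOpen_biUnion fun j _ => hU j, hS, ∑ j ∈ S, H₀ j, ?_⟩
  intro M H hHH hHM
  have hH₀ : ∀ j ∈ S, H₀ j ≤ H := fun j hj =>
    (single_le_sum (f := H₀) (fun _ _ => Nat.zero_le _) hj).trans hHH
  have h5 : 0 ≤ (H : ℝ) * Real.log M := mul_nonneg (by positivity) (log_nonneg M)
  calc _ ≤ ∑ n ∈ Icc 1 M, (1 / (n : ℝ)) * ∑ j ∈ S, GG (orb N (U j) F) muC H n := by
        refine sum_le_sum fun n _ => mul_le_mul_of_nonneg_left ?_ (by positivity)
        refine GG_le_sum S U (fun x hx => ?_) hF H n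
        simpa using hx
    _ = ∑ j ∈ S, ∑ n ∈ Icc 1 M, (1 / (n : ℝ)) * GG (orb N (U j) F) muC H n := by
        simp only [mul_sum]
        rw [sum_comm]
    _ ≤ ∑ j ∈ S, ε / 2 / 2 ^ j * H * Real.log M :=
        sum_le_sum fun j hj => hH j M H (hH₀ j hj) hHM
    _ = (∑ j ∈ S, ε / 2 / 2 ^ j) * (H * Real.log M) := by
        rw [sum_mul]
        exact sum_congr rfl fun j _ => by ring
    _ ≤ ε * (H * Real.log M) := by
        refine mul_le_mul_of_nonneg_right ?_ h5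
        have h6 : HasSum (fun n : ℕ => ε / 2 / 2 ^ n) ε := hasSum_geometric_two' ε
        exact sum_le_hasSum S (fun j _ => by positivity) h6
    _ = ε * H * Real.log M := by ring

end Pool.Agent.Lib.MP_663568_nt.Fib
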