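import Mathlib
import Pool.Agent.Lib.MP_663568_nt_h86.FUnif

/-! # M11: from local orthogonality to orthogonality near a compact set -/

set_option autoImplicit false
open Finset

namespace Pool.Agent.Lib.MP_663568_nt.Fib

open Katai

namespace Glob

/-- Splitting of windows. -/
theorem split (f : ℕ → ℂ) (hf : ∀ n, ‖f n‖ ≤ 1) (L₀ : ℕ) (hL₀ : 0 < L₀) (δ : ℝ) (hδ : 0 ≤ δ)
    (h : ∀ j, ‖∑ l ∈ Icc 1 L₀, f (j + l)‖ ≤ δ * L₀) (L : ℕ) :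
    ∀ j, ‖∑ l ∈ Icc 1 L, f (j + l)‖ ≤ δ * L + L₀ := by
  induction L using Nat.strong_induction_on with
  | _ L ih =>
    intro j
    by_cases hL : L < L₀
    · calc _ ≤ ∑ l ∈ Icc 1 L, ‖f (j + l)‖ := norm_sum_le _ _
        _ ≤ ∑ _l ∈ Icc 1 L, (1 : ℝ) := sum_le_sum fun l _ => hf _
        _ = L := by simp
        _ ≤ L₀ := by exact_mod_cast hL.le
        _ ≤ δ * L + L₀ := by
            have : 0 ≤ δ * L := by positivity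
            linarith
    · rw [not_lt] at hL
      obtain ⟨L', rfl⟩ := Nat.exists_eq_add_of_le hL
      have e1 : ∑ l ∈ Icc 1 (L₀ + L'), f (j + l) =
          ∑ l ∈ Icc 1 L₀, f (j + l) + ∑ l ∈ Icc 1 L', f (j + L₀ + l) := by
        have e2 : ∀ (a b : ℕ), ∑ l ∈ Icc 1 b, f (a + l) = ∑ l ∈ range b, f (a + 1 + l) := by
          intro a b
          rw [range_eq_Ico, ← Finset.Ico_add_one_right_eq_Icc]
          rw [Finset.sum_Ico_eq_sum_range, ← range_eq_Ico]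
          refine sum_congr (by simp) fun l _ => ?_
          congr 1
          ring
        rw [e2, e2, e2, sum_range_add]
        congr 1
        refine sum_congr rfl fun l _ => ?_
        congr 1
        ring
      rw [e1]
      have h1 := h j
      have h2 := ih L' (by omega) (j + L₀)
      calc _ ≤ ‖∑ l ∈ Icc 1 L₀, f (j + l)‖ + ‖∑ l ∈ Icc 1 L', f (j + L₀ + l)‖ := norm_add_le _ _
        _ ≤ δ * L₀ + (δ * L' + L₀) := add_le_add h1 h2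
        _ = δ * ((L₀ + L' : ℕ) : ℝ) + L₀ := by push_cast; ring

variable {G : Type} [Group G] [TopologicalSpace G]

theorem pair (F : G → ℂ) (hF1 : ∀ x, ‖F x‖ ≤ 1) (N : Subgroup G) (K : Set G)
    (hK : IsCompact K) (p q : ℕ)
    (hloc : ∀ a ∈ K, ∀ b ∈ K, ∀ η : ℝ, 0 < η →
      ∃ L₀ : ℕ, 0 < L₀ ∧ ∃ U V : Set G, IsOpen U ∧ a ∈ U ∧ IsOpen V ∧ b ∈ V ∧
      ∀ u ∈ U, ∀ v ∈ V, ∀ w ∈ N, ∀ w' ∈ N, ∀ x x' : G,
        ‖∑ l ∈ Icc 1 L₀, F ((u * w) ^ (p * l) * x) *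
          (starRingEnd ℂ) (F ((v * w') ^ (q * l) * x'))‖ ≤ η * L₀)
    (η : ℝ) (hη : 0 < η) :
    ∃ L₁ : ℕ, ∃ W : Set G, IsOpen W ∧ K ⊆ W ∧ ∀ L : ℕ, L₁ ≤ L →
      ∀ u ∈ W, ∀ v ∈ W, ∀ w ∈ N, ∀ w' ∈ N, ∀ (x x' : G) (j : ℕ),
      ‖∑ l ∈ Icc 1 L, F ((u * w) ^ (p * (j + l)) * x) *
        (starRingEnd ℂ) (F ((v * w') ^ (q * (j + l)) * x'))‖ ≤ η * L := by
  have h1 : ∀ c : ↥(K ×ˢ K), ∃ L₀ : ℕ, 0 < L₀ ∧ ∃ O : Set (G × G), IsOpen O ∧ (c : G × G) ∈ O ∧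
      ∀ u v : G, (u, v) ∈ O → ∀ w ∈ N, ∀ w' ∈ N, ∀ x x' : G,
        ‖∑ l ∈ Icc 1 L₀, F ((u * w) ^ (p * l) * x) *
          (starRingEnd ℂ) (F ((v * w') ^ (q * l) * x'))‖ ≤ η / 2 * L₀ := by
    rintro ⟨⟨a, b⟩, ha, hb⟩
    obtain ⟨L₀, hL₀, U, V, hU, haU, hV, hbV, h⟩ := hloc a ha b hb (η / 2) (by positivity)
    exact ⟨L₀, hL₀, U ×ˢ V, hU.prod hV, ⟨haU, hbV⟩, fun u v huv => h u huv.1 v huv.2⟩
  choose L₀ hL₀ O hO hcO h using h1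
  obtain ⟨T, hT⟩ := (hK.prod hK).elim_finite_subcover O hO (fun c hc =>
    Set.mem_iUnion.2 ⟨⟨c, hc⟩, hcO ⟨c, hc⟩⟩)
  obtain ⟨u₁, u₂, hu₁, hu₂, hKu₁, hKu₂, hsub⟩ := generalized_tube_lemma hK hK
    (isOpen_biUnion fun c (_ : c ∈ T) => hO c) hT
  refine ⟨⌈2 / η * ∑ c ∈ T, (L₀ c : ℝ)⌉₊, u₁ ∩ u₂, hu₁.inter hu₂, Set.subset_inter hKu₁ hKu₂, ?_⟩
  intro L hL u hu v hv w hw w' hw' x x' j
  have huv := hsub (Set.mk_mem_prod hu.1 hv.2)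
  rw [Set.mem_iUnion₂] at huv
  obtain ⟨c, hc, huv⟩ := huv
  have hsplit := split (fun n => F ((u * w) ^ (p * n) * x) *
    (starRingEnd ℂ) (F ((v * w') ^ (q * n) * x'))) (fun n => by
      rw [norm_mul, RCLike.norm_conj]
      exact mul_le_one₀ (hF1 _) (norm_nonneg _) (hF1 _)) (L₀ c) (hL₀ c) (η / 2) (by positivity)
    (fun j => by
      have h3 := h c u v huv w hw w' hw' ((u * w) ^ (p * j) * x) ((v * w') ^ (q * j) * x')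
      have e3 : ∀ l, F ((u * w) ^ (p * (j + l)) * x) *
          (starRingEnd ℂ) (F ((v * w') ^ (q * (j + l)) * x')) =
          F ((u * w) ^ (p * l) * ((u * w) ^ (p * j) * x)) *
          (starRingEnd ℂ) (F ((v * w') ^ (q * l) * ((v * w') ^ (q * j) * x'))) := by
        intro l
        rw [← mul_assoc ((u * w) ^ (p * l)), ← pow_add, ← mul_assoc ((v * w') ^ (q * l)),
          ← pow_add, ← mul_add p, ← mul_add q, add_comm l j]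
      simp only [e3]
      exact h3) L j
  refine hsplit.trans ?_
  have h4 : (L₀ c : ℝ) ≤ ∑ c ∈ T, (L₀ c : ℝ) :=
    single_le_sum (f := fun c => (L₀ c : ℝ)) (fun _ _ => Nat.cast_nonneg _) hc
  have h5 : 2 / η * ∑ c ∈ T, (L₀ c : ℝ) ≤ L := (Nat.le_ceil _).trans (by exact_mod_cast hL)
  have h6 : ∑ c ∈ T, (L₀ c : ℝ) ≤ η / 2 * L := by
    have h7 := mul_le_mul_of_nonneg_left h5 (by positivity : 0 ≤ η / 2)
    have e : η / 2 * (2 / η * ∑ c ∈ T, (L₀ c : ℝ)) = ∑ c ∈ T, (L₀ c : ℝ) := by field_simp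
    rwa [e] at h7
  linarith

end Glob

variable {G : Type} [Group G] [TopologicalSpace G] [IsTopologicalGroup G]

/-- M11 (file FGlob.lean): from local orthogonality to orthogonality near a compact set -/
theorem glob_orth (F : G → ℂ) (hF1 : ∀ x, ‖F x‖ ≤ 1) (N : Subgroup G) (K : Set G)
    (hK : IsCompact K) (P : Finset ℕ)
    (hloc : ∀ p ∈ P, ∀ q ∈ P, p ≠ q → ∀ a ∈ K, ∀ b ∈ K, ∀ η : ℝ, 0 < η →
      ∃ L₀ : ℕ, 0 < L₀ ∧ ∃ U V : Set G, IsOpen U ∧ a ∈ U ∧ IsOpen V ∧ b ∈ V ∧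
      ∀ u ∈ U, ∀ v ∈ V, ∀ w ∈ N, ∀ w' ∈ N, ∀ x x' : G,
        ‖∑ l ∈ Icc 1 L₀, F ((u * w) ^ (p * l) * x) *
          (starRingEnd ℂ) (F ((v * w') ^ (q * l) * x'))‖ ≤ η * L₀)
    (η : ℝ) (hη : 0 < η) :
    ∃ L : ℕ, 0 < L ∧ ∃ W : Set G, IsOpen W ∧ K ⊆ W ∧ ∀ p ∈ P, ∀ q ∈ P, p ≠ q →
      ∀ (i i' : Idx N W) (j : ℕ),
      ‖∑ l ∈ Icc 1 L, orb N W F i (p * (j + l)) *
        (starRingEnd ℂ) (orb N W F i' (q * (j + l)))‖ ≤ η * L := by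
  classical
  have h1 : ∀ c : ℕ × ℕ, ∃ L₁ : ℕ, ∃ W : Set G, IsOpen W ∧ K ⊆ W ∧
      (c.1 ∈ P → c.2 ∈ P → c.1 ≠ c.2 → ∀ L : ℕ, L₁ ≤ L →
      ∀ u ∈ W, ∀ v ∈ W, ∀ w ∈ N, ∀ w' ∈ N, ∀ (x x' : G) (j : ℕ),
      ‖∑ l ∈ Icc 1 L, F ((u * w) ^ (c.1 * (j + l)) * x) *
        (starRingEnd ℂ) (F ((v * w') ^ (c.2 * (j + l)) * x'))‖ ≤ η * L) := by
    intro c
    by_cases hc : c.1 ∈ P ∧ c.2 ∈ P ∧ c.1 ≠ c.2
    · obtain ⟨L₁, W, h2, h3, h4⟩ := Glob.pair F hF1 N K hK c.1 c.2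
        (hloc c.1 hc.1 c.2 hc.2.1 hc.2.2) η hη
      exact ⟨L₁, W, h2, h3, fun _ _ _ => h4⟩
    · exact ⟨0, Set.univ, isOpen_univ, Set.subset_univ _, fun h2 h3 h4 => absurd ⟨h2, h3, h4⟩ hc⟩
  choose L₁ W hW hKW h using h1
  refine ⟨1 + ∑ c ∈ P ×ˢ P, L₁ c, by omega, ⋂ c ∈ P ×ˢ P, W c,
    isOpen_biInter_finset fun c _ => hW c, Set.subset_iInter₂ fun c _ => hKW c, ?_⟩
  rintro p hp q hq hpq ⟨⟨_, u, hu, w, hw, rfl⟩, x⟩ ⟨⟨_, v, hv, w', hw', rfl⟩, x'⟩ j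
  have hc : (p, q) ∈ P ×ˢ P := mem_product.2 ⟨hp, hq⟩
  have hL : L₁ (p, q) ≤ 1 + ∑ c ∈ P ×ˢ P, L₁ c :=
    (single_le_sum (f := L₁) (fun _ _ => Nat.zero_le _) hc).trans (Nat.le_add_left _ _)
  exact h (p, q) hp hq hpq _ hL u (Set.mem_iInter₂.1 hu _ hc) v (Set.mem_iInter₂.1 hv _ hc)
    w hw w' hw' x x' j

end Pool.Agent.Lib.MP_663568_nt.Fib
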