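import Mathlib
import Pool.Agent.Lib.MP_663568_nt_h86.FDefs
import Pool.Agent.Lib.MP_663568_nt_h86.Dual

/-!
# Approximation of functions of the last vertex which are invariant under `A n`
-/

set_option autoImplicit false
open Finset

namespace Pool.Agent.Lib.MP_663568_nt.Fib

open Katai Tw

section M4

variable {G : Type} [Group G] [TopologicalSpace G] [IsTopologicalGroup G]

namespace M4aux

omit [TopologicalSpace G] [IsTopologicalGroup G] in
/-- `F` at the last vertex is determined by the other vertices modulo `Γ`. -/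
lemma last_eq (A : ℕ → Subgroup G) (hanti : Antitone A)
    (hcomm : ∀ i j, ⁅A i, A j⁆ ≤ A (i + j)) (h0 : A 0 = ⊤) (Γ : Subgroup G) (n : ℕ) (F : G → ℂ)
    (hF : ∀ x, ∀ γ ∈ Γ, F (x * γ) = F x) (hinv : Inv (A n) F) (c d : Cu n → G)
    (hc : IsCube A n 0 c) (hd : IsCube A n 0 d)
    (h : ∀ w, w ≠ last n → (c w : G ⧸ Γ) = (d w : G ⧸ Γ)) : F (c (last n)) = F (d (last n)) := by
  have FA := facts A hanti hcomm n
  have hcd := FA.mul 0 _ _ (FA.inv 0 _ hc) hd
  obtain ⟨γ, hγ, z, hz, e⟩ := last_mem A Γ n 0 _ hcd (fun w hw => QuotientGroup.eq.mp (h w hw))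
  rw [Nat.add_zero] at hz
  have e1 : d (last n) = (c (last n) * γ) * z := by
    rw [mul_assoc, ← e]; group
  have e2 : (c (last n) * γ) * z = ((c (last n) * γ) * z * (c (last n) * γ)⁻¹) * (c (last n) * γ) := by
    group
  have hmem : (c (last n) * γ) * z * (c (last n) * γ)⁻¹ ∈ A n := by
    have h1 : (c (last n) * γ) * z * (c (last n) * γ)⁻¹ * z⁻¹ ∈ A n := by
      have := hcomm 0 n (Subgroup.commutator_mem_commutator
        (show c (last n) * γ ∈ A 0 by rw [h0]; trivial) hz)
      rwa [Nat.zero_add] at this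
    have h2 := (A n).mul_mem h1 hz
    rwa [inv_mul_cancel_right] at h2
  rw [e1, e2, hinv _ hmem, hF _ γ hγ]

end M4aux

/-- M4: `Tw.nil_approx` for functions invariant under `A n` (instead of `A n = ⊥`), with `A 0 = ⊤`
only (instead of `A 1 = ⊤`). -/
theorem nil_approx_inv (A : ℕ → Subgroup G) (hanti : Antitone A)
    (hcomm : ∀ i j, ⁅A i, A j⁆ ≤ A (i + j)) (h0 : A 0 = ⊤) (Γ : Subgroup G) (hC : Coc A Γ)
    (hΓ : IsClosed (Γ : Set G)) (n : ℕ) (F : G → ℂ) (hF : Reg Γ F) (hinv : Inv (A n) F)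
    (ε : ℝ) (hε : 0 < ε) :
    ∃ (ι : Type) (_ : Fintype ι) (a : ι → ℂ) (ψ : ι → Cu n → G → ℂ),
      (∀ i w x, ‖ψ i w x‖ ≤ 1) ∧
      ∀ c : Cu n → G, IsCube A n 0 c →
        ‖F (c (last n)) - ∑ i, a i * ∏ w ∈ univ.erase (last n), ψ i w (c w)‖ ≤ ε := by
  classical
  have := hΓ
  have : T2Space (G ⧸ Γ) := QuotientGroup.instT2Space
  have : CompactSpace (G ⧸ Γ) := by
    obtain ⟨C, hC1, hC2, hC3⟩ := hC 0
    refine ⟨?_⟩
    have : (Set.univ : Set (G ⧸ Γ)) = (fun g : G => (g : G ⧸ Γ)) '' C := by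
      ext x
      simp only [Set.mem_univ, true_iff]
      obtain ⟨g, rfl⟩ := QuotientGroup.mk_surjective x
      obtain ⟨c, hc, γ, hγ, e⟩ := hC3 g (by rw [h0]; trivial)
      exact ⟨c, hc, (coe_eq_of_mul Γ _ _ _ hγ e).symm⟩
    rw [this]
    exact hC1.image QuotientGroup.continuous_mk
  have hcpt : CompactSpace (CX A Γ n) := isCompact_iff_compactSpace.mp
    (isCompact_CX A hanti hcomm Γ hC n)
  -- the function on the quotient
  let f : G ⧸ Γ → ℂ := Quotient.lift F (by
    intro a b hab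
    have h1 : a⁻¹ * b ∈ Γ := QuotientGroup.leftRel_apply.mp hab
    have h2 : b = a * (a⁻¹ * b) := by group
    rw [h2, hF.2 _ _ h1])
  have hfc : Continuous f := hF.1.quotient_lift _
  have hfF : ∀ g : G, f (g : G ⧸ Γ) = F g := fun g => rfl
  -- the space of all the vertices but the last one
  let x₀ : G ⧸ Γ := ((1 : G) : G ⧸ Γ)
  let r : (Cu n → G ⧸ Γ) → (Cu n → G ⧸ Γ) := fun x => Function.update x (last n) x₀
  have hr : Continuous r := continuous_id.update (last n) continuous_const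
  let S : Set (Cu n → G ⧸ Γ) := r '' CX A Γ n
  have hScpt : CompactSpace S := isCompact_iff_compactSpace.mp
    ((isCompact_CX A hanti hcomm Γ hC n).image hr)
  let π : CX A Γ n → S := fun x => ⟨r x.1, x.1, x.2, rfl⟩
  have hπ : Continuous π := Continuous.subtype_mk (hr.comp continuous_subtype_val) _
  have hπs : Function.Surjective π := by
    rintro ⟨_, x, hx, rfl⟩
    exact ⟨⟨x, hx⟩, rfl⟩
  have hq : Topology.IsQuotientMap π := Topology.IsQuotientMap.of_surjective_continuous hπs hπ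
  have hwell : ∀ x y : CX A Γ n, π x = π y → f (x.1 (last n)) = f (y.1 (last n)) := by
    intro x y hxy
    obtain ⟨c, hc, hcx⟩ := x.2
    obtain ⟨d, hd, hdy⟩ := y.2
    rw [hcx, hdy, hfF, hfF]
    refine M4aux.last_eq A hanti hcomm h0 Γ n F hF.2 hinv c d hc hd (fun w hw => ?_)
    rw [← hcx, ← hdy]
    have h1 := congrFun (congrArg Subtype.val hxy) w
    change Function.update x.1 (last n) x₀ w = Function.update y.1 (last n) x₀ w at h1
    rwa [Function.update_of_ne hw, Function.update_of_ne hw] at h1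
  let Ft : S → ℂ := fun s => f ((hπs s).choose.1 (last n))
  have hFtπ : ∀ x : CX A Γ n, Ft (π x) = f (x.1 (last n)) := fun x =>
    hwell _ _ (hπs (π x)).choose_spec
  have hFt : Continuous Ft := by
    rw [hq.continuous_iff]
    have : Ft ∘ π = fun x : CX A Γ n => f (x.1 (last n)) := funext hFtπ
    rw [this]
    exact hfc.comp ((continuous_apply (last n)).comp continuous_subtype_val)
  have hsep : (offAlg S).SeparatesPoints := by
    intro x y hxy
    have hex : ∃ w, w ≠ last n ∧ x.1 w ≠ y.1 w := by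
      by_contra hcon
      push Not at hcon
      apply hxy
      apply Subtype.ext
      funext w
      by_cases hw : w = last n
      · obtain ⟨x', _, hx'⟩ := x.2
        obtain ⟨y', _, hy'⟩ := y.2
        rw [← hx', ← hy', hw]
        change Function.update x' (last n) x₀ (last n) = Function.update y' (last n) x₀ (last n)
        rw [Function.update_self, Function.update_self]
      · exact hcon w hw
    obtain ⟨w, hw, hne⟩ := hex
    obtain ⟨g, hg1, hg2, hg3⟩ := exists_continuous_zero_one_of_isClosed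
      (isClosed_singleton (x := x.1 w)) (isClosed_singleton (x := y.1 w))
      (Set.disjoint_singleton.mpr hne)
    let gC : C(G ⧸ Γ, ℂ) := ⟨fun z => ((g z : ℝ) : ℂ), by fun_prop⟩
    have hw1 : Continuous (fun z : S => z.1 w) :=
      (continuous_apply w).comp continuous_subtype_val
    let u : C(S, ℂ) := ⟨fun z => gC (z.1 w), gC.continuous.comp hw1⟩
    refine ⟨_, ⟨u, ?_, rfl⟩, ?_⟩
    · refine ⟨Unit, inferInstance, fun _ => 1, fun _ v => if v = w then gC else 1, ?_, ?_⟩
      · intro i v z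
        beta_reduce
        split_ifs
        · change ‖((g z : ℝ) : ℂ)‖ ≤ 1
          rw [Complex.norm_real, Real.norm_eq_abs, abs_of_nonneg (hg3 z).1]
          exact (hg3 z).2
        · simp
      · intro z
        rw [Fintype.sum_unique, one_mul]
        rw [prod_eq_single_of_mem w (by simp [hw])]
        · beta_reduce; rw [if_pos rfl]; rfl
        · intro v _ hv; beta_reduce; rw [if_neg hv]; rfl
    · change gC (x.1 w) ≠ gC (y.1 w)
      change ((g (x.1 w) : ℝ) : ℂ) ≠ ((g (y.1 w) : ℝ) : ℂ)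
      rw [hg1 (by simp), hg2 (by simp)]
      simp
  have htop := ContinuousMap.starSubalgebra_topologicalClosure_eq_top_of_separatesPoints _ hsep
  let FF : C(S, ℂ) := ⟨Ft, hFt⟩
  have hFF : FF ∈ (offAlg S).topologicalClosure := by rw [htop]; trivial
  have hFF' : FF ∈ closure ((offAlg S) : Set C(S, ℂ)) := hFF
  obtain ⟨u, ⟨ι, hι, a, ψ, h2, h3⟩, hu⟩ := Metric.mem_closure_iff.mp hFF' ε hε
  refine ⟨ι, hι, a, fun i w x => ψ i w (x : G ⧸ Γ), fun i w x => h2 _ _ _, ?_⟩
  intro c hc
  have hmem : (fun w => (c w : G ⧸ Γ)) ∈ CX A Γ n := ⟨c, hc, fun _ => rfl⟩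
  have h4 := h3 (π ⟨_, hmem⟩)
  have h5 := (ContinuousMap.dist_lt_iff hε).mp hu (π ⟨_, hmem⟩)
  have h6 : FF (π ⟨_, hmem⟩) = F (c (last n)) := (hFtπ _).trans (hfF _)
  have h7 : ∀ i, ∏ w ∈ univ.erase (last n), ψ i w ((π ⟨_, hmem⟩).1 w)
      = ∏ w ∈ univ.erase (last n), ψ i w (c w : G ⧸ Γ) := by
    intro i
    refine prod_congr rfl fun w hw => ?_
    have hw' : w ≠ last n := (mem_erase.mp hw).1
    change ψ i w (Function.update (fun w => (c w : G ⧸ Γ)) (last n) x₀ w) = _
    rw [Function.update_of_ne hw']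
  simp only [h7] at h4
  rw [h4, h6, dist_eq_norm] at h5
  exact h5.le

/-- M4': such functions along orbits of elements of `A 1` are dual functions. -/
theorem dual_nil_inv (A : ℕ → Subgroup G) (hanti : Antitone A)
    (hcomm : ∀ i j, ⁅A i, A j⁆ ≤ A (i + j)) (h0 : A 0 = ⊤) (Γ : Subgroup G) (hC : Coc A Γ)
    (hΓ : IsClosed (Γ : Set G)) (n : ℕ) (F : G → ℂ) (hF : Reg Γ F) (hinv : Inv (A n) F)
    (ε : ℝ) (hε : 0 < ε) :
    ∃ M : ℝ, 1 ≤ M ∧ ∀ g ∈ A 1, ∀ y : G, Dual n M ε (fun m => F (g ^ m * y)) := by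
  obtain ⟨ι, i1, a, ψ, h2, h3⟩ := nil_approx_inv A hanti hcomm h0 Γ hC hΓ n F hF hinv ε hε
  refine ⟨max 1 (∑ i, ‖a i‖), le_max_left _ _, fun g hg y => ?_⟩
  refine ⟨ι, i1, a, fun i w m => ψ i w (g ^ m * y), le_max_right _ _,
    fun i w m => h2 _ _ _, fun l k => ?_⟩
  have harith : ∀ m : ℕ, IsCube A m 0 (fun w => g ^ shifts k m w) := by
    intro m
    induction m with
    | zero =>
      change g ^ _ ∈ A 0
      rw [h0]; trivial
    | succ m ih =>
      refine ⟨ih, ?_⟩
      have := isCube_const A m 1 (g ^ k m) ((A 1).pow_mem hg _)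
      refine (congrArg (IsCube A m 1) ?_).mp this
      funext w
      beta_reduce
      rw [shifts_lo, shifts_up, pow_add]
      have : g ^ k m * g ^ shifts k m w = g ^ shifts k m w * g ^ k m := by
        rw [← pow_add, ← pow_add, add_comm]
      rw [this]; group
  have FA := facts A hanti hcomm n
  have hcube : IsCube A n 0 (fun w => g ^ l * g ^ shifts k n w * y) :=
    FA.mul 0 _ _ (FA.mul 0 _ _ (isCube_const A n 0 (g ^ l) (by rw [h0]; trivial)) (harith n))
      (isCube_const A n 0 y (by rw [h0]; trivial))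
  have h4 := h3 _ hcube
  simpa only [pow_add, mul_assoc] using h4

end M4

end Pool.Agent.Lib.MP_663568_nt.Fib
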