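import Mathlib
import Pool.Agent.Lib.MP_663568_nt_h86.FDefs

/-!
# Functions of a given level

`Lev A Γ es s F`: `F` is a continuous function on `G ⧸ Γ`, invariant under `A (s + 1)`, which has a
frequency along every circle of the list `es s` (these generate `A s` modulo `A (s + 1)`).
-/

set_option autoImplicit false
open Finset

namespace Pool.Agent.Lib.MP_663568_nt.Fib

open Katai

section

variable {G : Type} [Group G] [TopologicalSpace G]

/-- functions of level `s` with a vertical character -/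
def Lev (A : ℕ → Subgroup G) (Γ : Subgroup G) (es : ℕ → List (ℝ → G)) (s : ℕ) (F : G → ℂ) :
    Prop := Reg Γ F ∧ Inv (A (s + 1)) F ∧ ∀ e ∈ es s, ∃ m : ℤ, Freq e m F

/-- a nonzero frequency along one of the circles `zs s` -/
def Good (zs : ℕ → List (ℝ → G)) (s : ℕ) (F : G → ℂ) : Prop :=
  ∃ z ∈ zs s, ∃ m : ℤ, m ≠ 0 ∧ Freq z m F

end

section grp

variable {G : Type} [Group G] (A : ℕ → Subgroup G) (hcomm : ∀ i j, ⁅A i, A j⁆ ≤ A (i + j))
  (h1 : A 1 = ⊤)

include hcomm in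
lemma comm_mem {i j : ℕ} {a b : G} (ha : a ∈ A i) (hb : b ∈ A j) :
    a * b * a⁻¹ * b⁻¹ ∈ A (i + j) :=
  hcomm i j (Subgroup.commutator_mem_commutator ha hb)

include hcomm h1 in
lemma comm_left {s : ℕ} (a : G) {w : G} (hw : w ∈ A s) : a * w * a⁻¹ * w⁻¹ ∈ A (s + 1) := by
  have := comm_mem A hcomm (i := 1) (a := a) (by rw [h1]; trivial) hw
  rwa [add_comm] at this

include hcomm h1 in
lemma comm_right {s : ℕ} (a : G) {w : G} (hw : w ∈ A s) : w * a * w⁻¹ * a⁻¹ ∈ A (s + 1) :=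
  comm_mem A hcomm hw (by rw [h1]; trivial)

variable (hanti : Antitone A)

include hcomm h1 hanti in
lemma conj_mem' {s : ℕ} (a : G) {w : G} (hw : w ∈ A s) : a * w * a⁻¹ ∈ A s := by
  have h2 := hanti (Nat.le_succ s) (comm_left A hcomm h1 a hw)
  have := (A s).mul_mem h2 hw
  simpa using this

include hcomm h1 in
/-- moving an element of `A s` through -/
lemma shift_eq {s : ℕ} {F : G → ℂ} (hinv : Inv (A (s + 1)) F) {w : G} (hw : w ∈ A s) (a y : G) :
    F (a * (w * y)) = F (w * (a * y)) := by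
  have h2 := comm_left A hcomm h1 a hw
  have h3 := hinv _ h2 (w * (a * y))
  rw [← h3]
  congr 1
  group

include hcomm h1 in
/-- elements of `Γ ∩ A s` act trivially -/
lemma gamma_act [TopologicalSpace G] {Γ : Subgroup G} {s : ℕ} {F : G → ℂ} (hF : Reg Γ F)
    (hinv : Inv (A (s + 1)) F) {γ : G} (hγ : γ ∈ Γ) (hγs : γ ∈ A s) (x : G) :
    F (γ * x) = F x := by
  have h2 := comm_right A hcomm h1 x hγs
  have h3 := hinv _ h2 (x * γ)
  rw [hF.2 x γ hγ] at h3
  rw [← h3]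
  congr 1
  group

include hcomm hanti in
/-- elements of `A s` commute -/
lemma swap_eq {s : ℕ} (hs : 1 ≤ s) {F : G → ℂ} (hinv : Inv (A (s + 1)) F) {a b : G}
    (ha : a ∈ A s) (hb : b ∈ A s) (x : G) : F (a * (b * x)) = F (b * (a * x)) := by
  have h2 : a * b * a⁻¹ * b⁻¹ ∈ A (s + 1) := hanti (by omega) (comm_mem A hcomm ha hb)
  have h3 := hinv _ h2 (b * (a * x))
  rw [← h3]
  congr 1
  group

lemma inv_sub {B : Subgroup G} {F F' : G → ℂ} (h : Inv B F) (h' : Inv B F') :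
    Inv B (fun x => F x - F' x) := fun z hz x => by
  beta_reduce
  rw [h z hz x, h' z hz x]

include hcomm h1 hanti in
lemma inv_translate {s : ℕ} {F : G → ℂ} (h : Inv (A s) F) (a : G) :
    Inv (A s) (fun x => F (a * x)) := fun z hz x => by
  beta_reduce
  have := h _ (conj_mem' A hcomm h1 hanti a hz) (a * x)
  rw [← this]
  congr 1
  group

/-- the set of elements which act by a scalar of modulus one -/
def scal (F : G → ℂ) : Subgroup G where
  carrier := {z | ∃ c : ℂ, ‖c‖ = 1 ∧ ∀ y, F (z * y) = c * F y}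
  mul_mem' := by
    rintro a b ⟨c, hc, h⟩ ⟨c', hc', h'⟩
    exact ⟨c * c', by rw [norm_mul, hc, hc', one_mul], fun y => by rw [mul_assoc, h, h', mul_assoc]⟩
  one_mem' := ⟨1, by simp, fun y => by simp⟩
  inv_mem' := by
    rintro a ⟨c, hc, h⟩
    have hc0 : c ≠ 0 := by
      intro h0; rw [h0] at hc; simp at hc
    refine ⟨c⁻¹, by rw [norm_inv, hc, inv_one], fun y => ?_⟩
    have := h (a⁻¹ * y)
    rw [mul_inv_cancel_left] at this
    rw [this, inv_mul_cancel_left₀ hc0]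

lemma freq_zero_fun (e : ℝ → G) (m : ℤ) : Freq e m (fun _ => 0) := fun r x => by simp

lemma Freq.mul_const {e : ℝ → G} {m : ℤ} {F : G → ℂ} (h : Freq e m F) (c : ℂ) :
    Freq e m (fun x => c * F x) := fun r x => by
  beta_reduce
  rw [h r x]; ring

end grp

section

variable {G : Type} [Group G] [TopologicalSpace G]

/-- a function of level `s` has a character on `A s` -/
lemma lev_char (A : ℕ → Subgroup G) (Γ : Subgroup G) (es : ℕ → List (ℝ → G)) (s : ℕ)
    (hgen : A s ≤ Subgroup.closure {x | ∃ e ∈ es s, ∃ r, x = e r} ⊔ A (s + 1))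
    (F : G → ℂ) (hF : Lev A Γ es s F) (z : G) (hz : z ∈ A s) :
    ∃ c : ℂ, ‖c‖ = 1 ∧ ∀ y, F (z * y) = c * F y := by
  have h1 : Subgroup.closure {x | ∃ e ∈ es s, ∃ r, x = e r} ⊔ A (s + 1) ≤ scal F := by
    apply sup_le
    · rw [Subgroup.closure_le]
      rintro x ⟨e, he, r, rfl⟩
      obtain ⟨m, hm⟩ := hF.2.2 e he
      exact ⟨ee (m * r), norm_ee _, fun y => hm r y⟩
    · intro x hx
      exact ⟨1, by simp, fun y => by rw [one_mul]; exact hF.2.1 x hx y⟩
  exact h1 (hgen hz)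

lemma reg_translate [IsTopologicalGroup G] {Γ : Subgroup G} {F : G → ℂ} (h : Reg Γ F) (a : G) :
    Reg Γ (fun x => F (a * x)) :=
  ⟨h.1.comp (continuous_const.mul continuous_id), fun x γ hγ => by
    beta_reduce
    rw [← mul_assoc]; exact h.2 _ γ hγ⟩

lemma reg_sub {Γ : Subgroup G} {F F' : G → ℂ} (h : Reg Γ F) (h' : Reg Γ F') :
    Reg Γ (fun x => F x - F' x) :=
  ⟨h.1.sub h'.1, fun x γ hγ => by beta_reduce; rw [h.2 x γ hγ, h'.2 x γ hγ]⟩

lemma reg_const_mul {Γ : Subgroup G} {F : G → ℂ} (h : Reg Γ F) (c : ℂ) :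
    Reg Γ (fun x => c * F x) :=
  ⟨continuous_const.mul h.1, fun x γ hγ => by beta_reduce; rw [h.2 x γ hγ]⟩

lemma reg_mul {Γ : Subgroup G} {F F' : G → ℂ} (h : Reg Γ F) (h' : Reg Γ F') :
    Reg Γ (fun x => F x * F' x) :=
  ⟨h.1.mul h'.1, fun x γ hγ => by beta_reduce; rw [h.2 x γ hγ, h'.2 x γ hγ]⟩

lemma reg_conj {Γ : Subgroup G} {F : G → ℂ} (h : Reg Γ F) :
    Reg Γ (fun x => (starRingEnd ℂ) (F x)) :=
  ⟨Complex.continuous_conj.comp h.1, fun x γ hγ => by beta_reduce; rw [h.2 x γ hγ]⟩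

lemma reg_bdd {Γ : Subgroup G} (hC : Cocompact' Γ) {F : G → ℂ} (h : Reg Γ F) :
    ∃ B : ℝ, 0 < B ∧ ∀ x, ‖F x‖ ≤ B := by
  obtain ⟨C, hC1, hC2⟩ := hC
  obtain ⟨B, hB⟩ := (hC1.image (continuous_norm.comp h.1)).bddAbove
  refine ⟨max B 1, lt_max_of_lt_right one_pos, fun x => ?_⟩
  obtain ⟨c, hc, γ, hγ, rfl⟩ := hC2 x
  rw [h.2 c γ hγ]
  exact (hB ⟨c, hc, rfl⟩).trans (le_max_left _ _)

end

end Pool.Agent.Lib.MP_663568_nt.Fib
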