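import Mathlib
import Pool.Agent.Lib.MP_663568_nt_h86.FLev

/-! # Frames: functions of level `s` with sum of squares of absolute values equal to one -/

set_option autoImplicit false
open Finset

namespace Pool.Agent.Lib.MP_663568_nt.Fib

open Katai

section

variable {G : Type} [Group G] [TopologicalSpace G] [IsTopologicalGroup G]

/-- M6 (file FFrame.lean) -/
theorem exists_frame (A : ℕ → Subgroup G) (hanti : Antitone A)
    (hcomm : ∀ i j, ⁅A i, A j⁆ ≤ A (i + j)) (h1 : A 1 = ⊤)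
    (Γ : Subgroup G) (hC : Cocompact' Γ) (es : ℕ → List (ℝ → G)) (s : ℕ) (hs : 1 ≤ s)
    (hes : ∀ e ∈ es s, IsOneP e ∧ e 1 ∈ Γ ∧ ∀ r, e r ∈ A s)
    (hgen : A s ≤ Subgroup.closure {x | ∃ e ∈ es s, ∃ r, x = e r} ⊔ A (s + 1))
    (F : G → ℂ) (hF : Lev A Γ es s F) (hne : ∃ x, F x ≠ 0) :
    ∃ (k : ℕ) (f : Fin k → G → ℂ), (∀ i, Lev A Γ es s (f i)) ∧
      (∀ i, ∀ z ∈ A s, ∀ c : ℂ, (∀ y, F (z * y) = c * F y) → ∀ y, f i (z * y) = c * f i y) ∧
      ∀ x, ∑ i, f i x * (starRingEnd ℂ) (f i x) = 1 := by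
  classical
  obtain ⟨x0, hx0⟩ := hne
  obtain ⟨C, hC1, hC2⟩ := hC
  -- finitely many translates
  have hcov : C ⊆ ⋃ a : G, {x | F (a * x) ≠ 0} := by
    intro x _
    refine Set.mem_iUnion.2 ⟨x0 * x⁻¹, ?_⟩
    show F (x0 * x⁻¹ * x) ≠ 0
    rw [inv_mul_cancel_right]
    exact hx0
  have hopen : ∀ a : G, IsOpen {x | F (a * x) ≠ 0} := fun a =>
    (reg_translate hF.1 a).1.isOpen_preimage {0}ᶜ isOpen_compl_singleton
  obtain ⟨t, ht⟩ := hC1.elim_finite_subcover _ hopen hcov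
  have hall : ∀ x : G, ∃ a ∈ t, F (a * x) ≠ 0 := by
    intro x
    obtain ⟨c, hc, γ, hγ, rfl⟩ := hC2 x
    obtain ⟨a, ha, h⟩ := Set.mem_iUnion₂.1 (ht hc)
    refine ⟨a, ha, ?_⟩
    rw [← mul_assoc, hF.1.2 _ γ hγ]
    exact h
  have hΓa : ∀ a x γ : G, γ ∈ Γ → F (a * (x * γ)) = F (a * x) := fun a x γ h =>
    (reg_translate hF.1 a).2 x γ h
  have hIa : ∀ a z y : G, z ∈ A (s + 1) → F (a * (z * y)) = F (a * y) := fun a z y h =>
    inv_translate A hcomm h1 hanti hF.2.1 a z h y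
  -- the sum of squares
  set H : G → ℝ := fun x => ∑ a ∈ t, ‖F (a * x)‖ ^ 2 with hH
  have hHpos : ∀ x, 0 < H x := by
    intro x
    obtain ⟨a, ha, h⟩ := hall x
    exact lt_of_lt_of_le (by positivity : (0 : ℝ) < ‖F (a * x)‖ ^ 2)
      (Finset.single_le_sum (f := fun a => ‖F (a * x)‖ ^ 2) (fun _ _ => by positivity) ha)
  have hHc : Continuous H := continuous_finsetSum _ fun a _ =>
    ((reg_translate hF.1 a).1.norm).pow 2
  have hHΓ : ∀ x, ∀ γ ∈ Γ, H (x * γ) = H x := by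
    intro x γ hγ
    refine Finset.sum_congr rfl fun a _ => ?_
    rw [hΓa a x γ hγ]
  have hact : ∀ z ∈ A s, ∀ c : ℂ, (∀ y, F (z * y) = c * F y) → ∀ a y, F (a * (z * y)) = c * F (a * y) := by
    intro z hz c hc a y
    rw [shift_eq A hcomm h1 hF.2.1 hz a y, hc]
  have hH1 : ∀ z ∈ A (s + 1), ∀ y, H (z * y) = H y := by
    intro z hz y
    refine Finset.sum_congr rfl fun a _ => ?_
    rw [hIa a z y hz]
  have hnorm : ∀ z ∈ A s, ∀ c : ℂ, (∀ y, F (z * y) = c * F y) → ‖c‖ = 1 := by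
    intro z hz c hc
    obtain ⟨c', hc'1, hc'⟩ := lev_char A Γ es s hgen F hF z hz
    have h2 : c * F x0 = c' * F x0 := by rw [← hc, hc']
    rw [mul_right_cancel₀ hx0 h2]
    exact hc'1
  have hHs : ∀ z ∈ A s, ∀ c : ℂ, (∀ y, F (z * y) = c * F y) → ∀ y, H (z * y) = H y := by
    intro z hz c hc y
    refine Finset.sum_congr rfl fun a _ => ?_
    rw [hact z hz c hc a y, norm_mul, hnorm z hz c hc, one_mul]
  set f : Fin t.card → G → ℂ := fun i x => ((√(H x) : ℝ) : ℂ)⁻¹ * F ((t.equivFin.symm i : G) * x)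
    with hf
  have hfs : ∀ i, ∀ z ∈ A s, ∀ c : ℂ, (∀ y, F (z * y) = c * F y) →
      ∀ y, f i (z * y) = c * f i y := by
    intro i z hz c hc y
    simp only [hf]
    rw [hact z hz c hc, hHs z hz c hc y]
    ring
  refine ⟨t.card, f, fun i => ⟨⟨?_, ?_⟩, ?_, ?_⟩, hfs, ?_⟩
  · refine Continuous.mul (Continuous.inv₀ ?_ fun x => ?_) (reg_translate hF.1 _).1
    · exact Complex.continuous_ofReal.comp (Real.continuous_sqrt.comp hHc)
    · have := Real.sqrt_pos.2 (hHpos x)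
      exact_mod_cast this.ne'
  · intro x γ hγ
    simp only [hf]
    rw [hHΓ x γ hγ, hΓa _ x γ hγ]
  · intro z hz x
    simp only [hf]
    rw [hH1 z hz x, hIa _ z x hz]
  · intro e he
    obtain ⟨m, hm⟩ := hF.2.2 e he
    exact ⟨m, fun r x => hfs i (e r) ((hes e he).2.2 r) _ (fun y => hm r y) x⟩
  · intro x
    have hterm : ∀ i : Fin t.card, f i x * (starRingEnd ℂ) (f i x) =
        (((H x)⁻¹ * ‖F ((t.equivFin.symm i : G) * x)‖ ^ 2 : ℝ) : ℂ) := by
      intro i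
      rw [Complex.mul_conj, Complex.normSq_eq_norm_sq]
      simp only [hf]
      rw [norm_mul, norm_inv, Complex.norm_real, Real.norm_of_nonneg (Real.sqrt_nonneg _), mul_pow,
        inv_pow, Real.sq_sqrt (hHpos x).le]
    rw [Finset.sum_congr rfl fun i _ => hterm i, ← Complex.ofReal_sum, ← Finset.mul_sum]
    have hsum : ∑ i : Fin t.card, ‖F ((t.equivFin.symm i : G) * x)‖ ^ 2 = H x := by
      rw [hH]
      simp only
      rw [← Finset.sum_coe_sort t (fun a => ‖F (a * x)‖ ^ 2)]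
      exact (Equiv.sum_comp t.equivFin.symm (fun a : t => ‖F ((a : G) * x)‖ ^ 2))
    rw [hsum, inv_mul_cancel₀ (hHpos x).ne']
    norm_num

end

end Pool.Agent.Lib.MP_663568_nt.Fib
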