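import Mathlib
import Pool.Agent.Lib.MP_663568_nt_h86.Box
import Pool.Agent.Lib.MP_663568_nt_h86.BoxPoly

/-! # The van der Corput step with a gap, and linear combinations of box-small functions -/

set_option autoImplicit false
open Finset

namespace Pool.Agent.Lib.MP_663568_nt.Fib

open Katai Tw

lemma card_close (R h0 u : ℕ) (h1 : 1 ≤ h0) :
    ((Icc 1 R).filter (fun v => ¬ (u + h0 ≤ v ∨ v + h0 ≤ u))).card ≤ 2 * h0 := by
  have : ((Icc 1 R).filter (fun v => ¬ (u + h0 ≤ v ∨ v + h0 ≤ u))) ⊆ Ico (u + 1 - h0) (u + h0) := by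
    intro v hv
    rw [mem_filter, mem_Icc] at hv
    rw [mem_Ico]
    omega
  refine (card_le_card this).trans ?_
  rw [Nat.card_Ico]
  omega

/-- **The van der Corput step with a gap.** -/
theorem boxSmall_succ_gap (n : ℕ) (K : ℕ → ℕ) (η η' : ℝ) (hη : 0 ≤ η)
    (a : ℕ → ℂ) (ha : ∀ m, ‖a m‖ ≤ 1) (hKn : 0 < K n) (h0 : ℕ) (h01 : 1 ≤ h0)
    (hη2 : 2 * (h0 : ℝ) / (K n : ℝ) + η' ≤ η ^ 2) (hη' : 0 ≤ η')
    (h : ∀ u ∈ Icc 1 (K n), ∀ v ∈ Icc 1 (K n), (u + h0 ≤ v ∨ v + h0 ≤ u) →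
      BoxSmall n K η' (fun m => a (m + u) * (starRingEnd ℂ) (a (m + v)))) :
    BoxSmall (n + 1) K η a := by
  classical
  intro b hb l
  set V := vol K n with hV
  have hV0 : 0 ≤ V := vol_nonneg K n
  set Gf : (Cu n → ℕ) → ℂ := fun d => ∏ v : Cu n, b (lo v) (l + d v) with hGf
  set Hf : ℕ → (Cu n → ℕ) → ℂ := fun u d => a (l + (u + d (last n))) *
    ∏ v ∈ univ.erase (last n), b (up v) (l + (u + d v)) with hHf
  have hG1 : ∀ d, ‖Gf d‖ ≤ 1 := fun d => norm_prod_le_one _ _ fun v => hb _ _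
  have hH1 : ∀ u d, ‖Hf u d‖ ≤ 1 := fun u d => by
    rw [hHf]; beta_reduce; rw [norm_mul]
    exact mul_le_one₀ (ha _) (norm_nonneg _) (norm_prod_le_one _ _ fun v => hb _ _)
  have hT : msum K (n + 1) (fun d => a (l + d (last (n + 1))) *
      ∏ w ∈ univ.erase (last (n + 1)), b w (l + d w)) =
      msum K n (fun d => Gf d * ∑ u ∈ Icc 1 (K n), Hf u d) := by
    rw [msum_succ, ← msum_sum]
    congr 1
    funext d
    rw [mul_sum]
    refine sum_congr rfl fun u _ => ?_
    rw [prod_cu_succ, last_succ]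
    simp only [ext_lo, ext_up, hGf, hHf]
    ring
  rw [hT]
  set S : (Cu n → ℕ) → ℂ := fun d => ∑ u ∈ Icc 1 (K n), Hf u d with hS
  have h1 : ‖msum K n (fun d => Gf d * S d)‖ ≤ msum K n (fun d => ‖S d‖) := by
    refine (norm_msum_le _ _ _).trans (msum_mono _ _ _ _ fun d => ?_)
    rw [norm_mul]
    exact mul_le_of_le_one_left (norm_nonneg _) (hG1 d)
  have h2 := msum_sq K n (fun d => ‖S d‖)
  -- expand the square
  have h3 : msum K n (fun d => ‖S d‖ ^ 2) =
      ∑ u ∈ Icc 1 (K n), ∑ v ∈ Icc 1 (K n),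
        (msum K n (fun d => Hf u d * (starRingEnd ℂ) (Hf v d))).re := by
    have e1 : (fun d => ‖S d‖ ^ 2) = fun d => Complex.reAddGroupHom
        (∑ u ∈ Icc 1 (K n), ∑ v ∈ Icc 1 (K n), Hf u d * (starRingEnd ℂ) (Hf v d)) := by
      funext d
      have e2 : ∑ u ∈ Icc 1 (K n), ∑ v ∈ Icc 1 (K n), Hf u d * (starRingEnd ℂ) (Hf v d)
          = S d * (starRingEnd ℂ) (S d) := by
        rw [hS]; beta_reduce
        rw [map_sum, sum_mul_sum]
      rw [e2, Complex.mul_conj, Complex.normSq_eq_norm_sq]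
      exact (Complex.ofReal_re _).symm
    rw [e1, ← msum_map, msum_sum]
    simp only [msum_sum]
    change Complex.re _ = _
    rw [Complex.re_sum]
    simp only [Complex.re_sum]
  have h4 : ∀ u ∈ Icc 1 (K n), ∀ v ∈ Icc 1 (K n),
      (msum K n (fun d => Hf u d * (starRingEnd ℂ) (Hf v d))).re ≤
        (if ¬ (u + h0 ≤ v ∨ v + h0 ≤ u) then V else 0) + η' * V := by
    intro u hu v hv
    refine (Complex.re_le_norm _).trans ?_
    have hηV : 0 ≤ η' * V := by positivity
    by_cases huv : ¬ (u + h0 ≤ v ∨ v + h0 ≤ u)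
    · rw [if_pos huv]
      have := norm_msum_le_vol K n (fun d => Hf u d * (starRingEnd ℂ) (Hf v d)) 1 (fun d => by
        rw [norm_mul, RCLike.norm_conj]
        exact mul_le_one₀ (hH1 _ _) (norm_nonneg _) (hH1 _ _))
      rw [mul_one] at this
      linarith
    · rw [if_neg huv, zero_add]
      rw [not_not] at huv
      have := h u hu v hv huv
        (fun w m => b (up w) (m + u) * (starRingEnd ℂ) (b (up w) (m + v))) (fun w m => by
          rw [norm_mul, RCLike.norm_conj]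
          exact mul_le_one₀ (hb _ _) (norm_nonneg _) (hb _ _)) l
      refine le_trans (le_of_eq ?_) this
      congr 2
      funext d
      simp only [hHf, map_mul, map_prod, prod_mul_distrib]
      rw [show l + (u + d (last n)) = l + d (last n) + u by ring,
        show l + (v + d (last n)) = l + d (last n) + v by ring]
      have e3 : ∀ x, (∏ w ∈ univ.erase (last n), b (up w) (l + (x + d w))) =
          ∏ w ∈ univ.erase (last n), b (up w) (l + d w + x) := fun x =>
        prod_congr rfl fun w _ => by rw [show l + (x + d w) = l + d w + x by ring]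
      have e4 : ∀ x, (∏ w ∈ univ.erase (last n), (starRingEnd ℂ) (b (up w) (l + (x + d w)))) =
          ∏ w ∈ univ.erase (last n), (starRingEnd ℂ) (b (up w) (l + d w + x)) := fun x =>
        prod_congr rfl fun w _ => by rw [show l + (x + d w) = l + d w + x by ring]
      rw [e3, e4]
      ring
  have h5 : msum K n (fun d => ‖S d‖ ^ 2) ≤ (K n : ℝ) * (2 * h0 * V) + (K n : ℝ) ^ 2 * (η' * V) := by
    rw [h3]
    calc _ ≤ ∑ u ∈ Icc 1 (K n), ∑ v ∈ Icc 1 (K n),
            ((if ¬ (u + h0 ≤ v ∨ v + h0 ≤ u) then V else 0) + η' * V) :=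
          sum_le_sum fun u hu => sum_le_sum fun v hv => h4 u hu v hv
      _ = ∑ u ∈ Icc 1 (K n), ((((Icc 1 (K n)).filter
            (fun v => ¬ (u + h0 ≤ v ∨ v + h0 ≤ u))).card : ℝ) * V + (K n : ℝ) * (η' * V)) := by
          refine sum_congr rfl fun u _ => ?_
          rw [sum_add_distrib, ← sum_filter, sum_const, sum_const, Nat.card_Icc,
            Nat.add_sub_cancel, nsmul_eq_mul, nsmul_eq_mul]
      _ ≤ ∑ u ∈ Icc 1 (K n), (2 * h0 * V + (K n : ℝ) * (η' * V)) := by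
          refine sum_le_sum fun u _ => ?_
          have := card_close (K n) h0 u h01
          have h' : (((Icc 1 (K n)).filter
            (fun v => ¬ (u + h0 ≤ v ∨ v + h0 ≤ u))).card : ℝ) ≤ 2 * h0 := by exact_mod_cast this
          gcongr
      _ = _ := by
          rw [sum_const, Nat.card_Icc, Nat.add_sub_cancel, nsmul_eq_mul]
          ring
  have h6 : (msum K n (fun d => ‖S d‖)) ^ 2 ≤ (η * vol K (n + 1)) ^ 2 := by
    refine h2.trans ?_
    rw [vol_succ, ← hV]
    have hK0 : (0 : ℝ) < K n := Nat.cast_pos.mpr hKn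
    calc V * msum K n (fun d => ‖S d‖ ^ 2)
        ≤ V * ((K n : ℝ) * (2 * h0 * V) + (K n : ℝ) ^ 2 * (η' * V)) := by gcongr
      _ = (2 * (h0 : ℝ) / (K n : ℝ) + η') * (V * K n) ^ 2 := by field_simp
      _ ≤ η ^ 2 * (V * K n) ^ 2 := by gcongr
      _ = _ := by ring
  have h7 : 0 ≤ η * vol K (n + 1) := mul_nonneg hη (vol_nonneg _ _)
  exact h1.trans (abs_le_of_sq_le_sq' h6 h7).2

lemma boxSmall_mono_eta (n : ℕ) (K : ℕ → ℕ) (η η' : ℝ) (h : η ≤ η') (a : ℕ → ℂ)
    (ha : BoxSmall n K η a) : BoxSmall n K η' a := by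
  intro b hb l
  exact (ha b hb l).trans (mul_le_mul_of_nonneg_right h (vol_nonneg _ _))

lemma boxSmall_of_norm (n : ℕ) (K : ℕ → ℕ) (η : ℝ) (a : ℕ → ℂ) (ha : ∀ m, ‖a m‖ ≤ η) :
    BoxSmall n K η a := by
  intro b hb l
  rw [mul_comm]
  refine norm_msum_le_vol K n _ η fun d => ?_
  rw [norm_mul]
  calc _ ≤ η * 1 := mul_le_mul (ha _) (norm_prod_le_one _ _ fun v => hb _ _) (norm_nonneg _)
        ((norm_nonneg _).trans (ha 0))
    _ = η := mul_one _

lemma boxSmall_add (n : ℕ) (K : ℕ → ℕ) (η η' : ℝ) (a a' : ℕ → ℂ) (h : BoxSmall n K η a)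
    (h' : BoxSmall n K η' a') : BoxSmall n K (η + η') (fun m => a m + a' m) := by
  intro b hb l
  simp only [add_mul]
  rw [msum_add]
  refine (norm_add_le _ _).trans ?_
  exact add_le_add (h b hb l) (h' b hb l)

lemma msum_mul_left' (K : ℕ → ℕ) (n : ℕ) (c : ℂ) (φ : (Cu n → ℕ) → ℂ) :
    msum K n (fun d => c * φ d) = c * msum K n φ := by
  induction n with
  | zero => rfl
  | succ n ih => simp only [msum_succ, ih, mul_sum]

lemma boxSmall_mul (n : ℕ) (K : ℕ → ℕ) (η : ℝ) (c : ℂ) (a : ℕ → ℂ) (h : BoxSmall n K η a) :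
    BoxSmall n K (‖c‖ * η) (fun m => c * a m) := by
  intro b hb l
  simp only [mul_assoc]
  rw [msum_mul_left', norm_mul]
  calc _ ≤ ‖c‖ * (η * vol K n) := mul_le_mul_of_nonneg_left (h b hb l) (norm_nonneg _)
    _ = _ := by ring

lemma boxSmall_sum {ι : Type} (s : Finset ι) (n : ℕ) (K : ℕ → ℕ) (η : ι → ℝ) (a : ι → ℕ → ℂ)
    (h : ∀ i ∈ s, BoxSmall n K (η i) (a i)) :
    BoxSmall n K (∑ i ∈ s, η i) (fun m => ∑ i ∈ s, a i m) := by
  classical
  induction s using Finset.induction_on with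
  | empty =>
    simp only [sum_empty]
    exact boxSmall_of_norm n K 0 _ fun m => by simp
  | insert i s hi ih =>
    simp only [sum_insert hi]
    exact boxSmall_add n K _ _ _ _ (h i (mem_insert_self _ _))
      (ih fun j hj => h j (mem_insert_of_mem hj))

end Pool.Agent.Lib.MP_663568_nt.Fib
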