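import Mathlib
import Pool.Agent.Lib.MP_663568_nt_h86.FLev

/-! # The hypotheses of the induction over the level; the system on `G × G` -/

set_option autoImplicit false
open Finset

namespace Pool.Agent.Lib.MP_663568_nt.Fib

open Katai

section

variable {G : Type} [Group G] [TopologicalSpace G]

/-- The hypotheses of the induction. -/
structure Sys (A : ℕ → Subgroup G) (Γ : Subgroup G) (g : G) (es zs : ℕ → List (ℝ → G)) : Prop where
  anti : Antitone A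
  comm : ∀ i j, ⁅A i, A j⁆ ≤ A (i + j)
  one : A 1 = ⊤
  cocomp : Cocompact' Γ
  es_onep : ∀ s, 1 ≤ s → ∀ e ∈ es s, IsOneP e ∧ e 1 ∈ Γ ∧ ∀ r, e r ∈ A s
  zs_onep : ∀ s, 1 ≤ s → ∀ e ∈ zs s, IsOneP e ∧ ∀ r, e r ∈ A s
  gen : ∀ s, 1 ≤ s → A s ≤ Subgroup.closure {x | ∃ e ∈ es s, ∃ r, x = e r} ⊔ A (s + 1)
  zfreq : ∀ s, 1 ≤ s → ∀ z ∈ zs s, ∀ F, Lev A Γ es s F → ∃ m : ℤ, Freq z m F
  alpha : ∀ F, Lev A Γ es 1 F → Good zs 1 F → (∃ x, F x ≠ 0) → ∃ x, F (g * x) ≠ F x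
  beta : ∀ s, 1 ≤ s → ∀ F, Lev A Γ es (s + 1) F → Good zs (s + 1) F → (∃ x, F x ≠ 0) →
    ∃ z ∈ zs s, ∃ r x, F (g * z r * g⁻¹ * (z r)⁻¹ * x) ≠ F x

end

/-- the filtration on `G × G` -/
def prodA {G : Type} [Group G] (A : ℕ → Subgroup G) : ℕ → Subgroup (G × G) :=
  fun s => (A s).prod (A s)

/-- the circles of `G × G` -/
def prodEs {G : Type} [Group G] (es : ℕ → List (ℝ → G)) : ℕ → List (ℝ → G × G) :=
  fun s => (es s).map (fun e r => (e r, 1)) ++ (es s).map (fun e r => (1, e r))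

/-- the circles `(e (p ^ s r), e (q ^ s r))` -/
def prodZs {G : Type} [Group G] (p q : ℕ) (es : ℕ → List (ℝ → G)) : ℕ → List (ℝ → G × G) :=
  fun s => (es s).map (fun e r => (e ((p : ℝ) ^ s * r), e ((q : ℝ) ^ s * r)))

end Pool.Agent.Lib.MP_663568_nt.Fib
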