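import Mathlib
import Pool.Agent.Lib.MP_663568_nt_h86.FFourier
import Pool.Agent.Lib.MP_663568_nt_h86.FSys
import Pool.Agent.Lib.MP_663568_nt_h86.FGap

/-!
# Functions with a good vertical character are box-small along orbits

`Sys A Γ g es zs` collects what is needed of a group element `g`; `box_char` is the induction over
the level: van der Corput, the commutator trick, and Fourier approximation along the circles of the
lower level.
-/

set_option autoImplicit false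
open Finset

namespace Pool.Agent.Lib.MP_663568_nt.Fib

open Katai Tw

section

variable {G : Type} [Group G] [TopologicalSpace G] [IsTopologicalGroup G]

variable {A : ℕ → Subgroup G} {Γ : Subgroup G} {g : G} {es zs : ℕ → List (ℝ → G)}

omit [TopologicalSpace G] [IsTopologicalGroup G] in
lemma pow_tau (τ : ℝ → ℂ) (hτ : ∀ a b, τ (a + b) = τ a * τ b) (h0 : τ 0 = 1) (r : ℝ) (n : ℕ) :
    τ (n * r) = τ r ^ n := by
  induction n with
  | zero => simp [h0]
  | succ n ih => rw [Nat.cast_succ, add_mul, one_mul, hτ, ih, pow_succ]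

/-- a function `ρ (w x) - ρ x` which is invariant under `w` vanishes -/
lemma cobound_zero (hC : Cocompact' Γ) (ρ φ : G → ℂ) (hρ : Reg Γ ρ) (w : G)
    (h : ∀ x, φ x = ρ (w * x) - ρ x) (hinv : ∀ x, φ (w * x) = φ x) (x : G) : φ x = 0 := by
  obtain ⟨B, hB0, hB⟩ := reg_bdd hC hρ
  have h1 : ∀ n : ℕ, ρ (w ^ n * x) - ρ x = n * φ x := by
    intro n
    induction n with
    | zero => simp
    | succ n ih =>
      have h2 : ∀ n : ℕ, φ (w ^ n * x) = φ x := by
        intro n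
        induction n with
        | zero => simp
        | succ n ih => rw [pow_succ', mul_assoc, hinv, ih]
      have h3 := h (w ^ n * x)
      rw [h2 n, ← mul_assoc, ← pow_succ'] at h3
      push_cast
      have : ρ (w ^ (n + 1) * x) = φ x + ρ (w ^ n * x) := by rw [h3]; ring
      rw [this, add_sub_assoc, ih]; ring
  by_contra hne
  have hpos : 0 < ‖φ x‖ := norm_pos_iff.mpr hne
  obtain ⟨n, hn⟩ := exists_nat_gt (2 * B / ‖φ x‖)
  rw [div_lt_iff₀ hpos] at hn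
  have h4 : ‖ρ (w ^ n * x) - ρ x‖ ≤ 2 * B := (norm_sub_le _ _).trans (by linarith [hB x, hB (w ^ n * x)])
  rw [h1 n, norm_mul, Complex.norm_natCast] at h4
  linarith

omit [TopologicalSpace G] [IsTopologicalGroup G] in
/-- Pop of a translate -/
lemma Pop_translate (e : ℝ → G) (m : ℤ) (F : G → ℂ) (w : G)
    (hsw : ∀ r x, F (w * (e r * x)) = F (e r * (w * x))) (x : G) :
    Pop e m (fun y => F (w * y)) x = Pop e m F (w * x) := by
  simp only [Pop, hsw]

lemma Pop_sub (e : ℝ → G) (he : Continuous e) (m : ℤ) (F F' : G → ℂ) (hF : Continuous F)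
    (hF' : Continuous F') (x : G) :
    Pop e m (fun y => F y - F' y) x = Pop e m F x - Pop e m F' x := by
  have c1 : Continuous (fun r : ℝ => ee (-(m * r)) * F (e r * x)) :=
    (continuous_ee.comp (by fun_prop)).mul (hF.comp (he.mul continuous_const))
  have c2 : Continuous (fun r : ℝ => ee (-(m * r)) * F' (e r * x)) :=
    (continuous_ee.comp (by fun_prop)).mul (hF'.comp (he.mul continuous_const))
  simp only [Pop, mul_sub]
  rw [intervalIntegral.integral_sub (c1.intervalIntegrable _ _) (c2.intervalIntegrable _ _)]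

omit [TopologicalSpace G] [IsTopologicalGroup G] in
lemma inv_Pop {B : Subgroup G} (e : ℝ → G) (m : ℤ) (F : G → ℂ) (hF : Inv B F)
    (hconj : ∀ r, ∀ z ∈ B, e r * z * (e r)⁻¹ ∈ B) : Inv B (Pop e m F) := by
  intro z hz x
  simp only [Pop]
  congr 1
  funext r
  congr 1
  have := hF _ (hconj r z hz) (e r * x)
  rw [← this]
  congr 1
  group

/-- **The derivative of a function of level `s + 1`.** -/
theorem deriv_approx (S : Sys A Γ g es zs) (s : ℕ) (hs : 1 ≤ s) (F : G → ℂ)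
    (hF : Lev A Γ es (s + 1) F) (hG : Good zs (s + 1) F) (hF1 : ∀ x, ‖F x‖ ≤ 1)
    (ε : ℝ) (hε : 0 < ε) :
    ∃ h0 : ℕ, 1 ≤ h0 ∧ ∀ u v : ℕ, (u + h0 ≤ v ∨ v + h0 ≤ u) →
      ∃ (ι : Type) (_ : Fintype ι) (c : ι → ℂ) (φ : ι → G → ℂ),
        (∀ i, Lev A Γ es s (φ i) ∧ Good zs s (φ i) ∧ ∀ x, ‖φ i x‖ ≤ 1) ∧
        ∀ x, ‖F (g ^ u * x) * (starRingEnd ℂ) (F (g ^ v * x)) - ∑ i, c i * φ i x‖ ≤ ε := by
  classical
  by_cases hne : ∃ x, F x ≠ 0
  swap
  · push Not at hne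
    refine ⟨1, le_rfl, fun u v _ => ⟨Empty, inferInstance, Empty.elim, Empty.elim,
      fun i => i.elim, fun x => ?_⟩⟩
    simp [hne, hε.le]
  obtain ⟨x0, hx0⟩ := hne
  -- the character
  have hchar := lev_char A Γ es (s + 1) (S.gen (s + 1) (by omega)) F hF
  choose! χ hχ1 hχ using hchar
  obtain ⟨z, hz, r0, x1, hr0⟩ := S.beta s hs F hF hG ⟨x0, hx0⟩
  obtain ⟨⟨hzc, hzadd⟩, hzA⟩ := S.zs_onep s hs z hz
  have hz0 : z 0 = 1 := by
    have := hzadd 0 0
    rw [add_zero] at this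
    exact left_eq_mul.mp this
  have hk : ∀ w ∈ A s, g * w * g⁻¹ * w⁻¹ ∈ A (s + 1) := fun w hw => comm_left A S.comm S.one g hw
  set τ : ℝ → ℂ := fun r => χ (g * z r * g⁻¹ * (z r)⁻¹) with hτ
  have hτ1 : ∀ r, ‖τ r‖ = 1 := fun r => hχ1 _ (hk _ (hzA r))
  have hτm : ∀ r y, F (g * z r * g⁻¹ * (z r)⁻¹ * y) = τ r * F y := fun r y => hχ _ (hk _ (hzA r)) y
  have hτ0 : τ 0 = 1 := by
    have := hτm 0 x0
    rw [hz0] at this
    simp only [mul_one, inv_one, mul_inv_cancel, one_mul] at this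
    have h3 : (τ 0 - 1) * F x0 = 0 := by rw [sub_mul, ← this]; ring
    rcases mul_eq_zero.mp h3 with h | h
    · exact sub_eq_zero.mp h
    · exact absurd h hx0
  have hτadd : ∀ a b, τ (a + b) = τ a * τ b := by
    intro a b
    have e1 := hτm (a + b) x0
    have e2 : g * z (a + b) * g⁻¹ * (z (a + b))⁻¹ * x0 =
        (g * z a * g⁻¹ * (z a)⁻¹) * (z a * ((g * z b * g⁻¹ * (z b)⁻¹) * ((z a)⁻¹ * x0))) := by
      rw [hzadd]; group
    rw [e2, hτm, shift_eq A S.comm S.one hF.2.1 (hk _ (hzA b)), hτm, mul_inv_cancel_left] at e1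
    have h3 : (τ (a + b) - τ a * τ b) * F x0 = 0 := by rw [sub_mul, ← e1]; ring
    rcases mul_eq_zero.mp h3 with h | h
    · exact sub_eq_zero.mp h
    · exact absurd h hx0
  have hτr0 : τ r0 ≠ 1 := by
    intro h
    apply hr0
    rw [hτm, h, one_mul]
  have hcpos : 0 < ‖τ r0 - 1‖ := norm_pos_iff.mpr (sub_ne_zero.mpr hτr0)
  -- the commutator relation
  have hpow : ∀ (r : ℝ) (u : ℕ) (x : G), F (g ^ u * (z r * x)) = τ r ^ u * F (z r * (g ^ u * x)) := by
    intro r u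
    induction u with
    | zero => intro x; simp
    | succ u ih =>
      intro x
      have e1 : g ^ (u + 1) * (z r * x) =
          g ^ u * ((g * z r * g⁻¹ * (z r)⁻¹) * (z r * (g * x))) := by
        rw [pow_succ]; group
      rw [e1, shift_eq A S.comm S.one hF.2.1 (hk _ (hzA r)), hτm, ih (g * x), pow_succ' (τ r)]
      rw [show g ^ (u + 1) * x = g ^ u * (g * x) by rw [pow_succ, mul_assoc]]
      ring
  -- small translations
  set ε₁ : ℝ := ε * ‖τ r0 - 1‖ / 8 with hε₁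
  have hε₁0 : 0 < ε₁ := by positivity
  have hsmall : ∀ᶠ r in nhds (0 : ℝ), ∀ x, ‖F (z r * x) - F x‖ ≤ ε₁ := by
    have h1 := reg_unif Γ S.cocomp F hF.1 ε₁ hε₁0
    have h2 : Filter.Tendsto z (nhds 0) (nhds 1) := by
      have := hzc.tendsto 0
      rwa [hz0] at this
    exact h2.eventually h1
  obtain ⟨δ, hδ, hδ'⟩ := Metric.eventually_nhds_iff.mp hsmall
  obtain ⟨h0, hh0⟩ := exists_nat_gt (|r0| / δ)
  refine ⟨h0 + 1, by omega, fun u v huv => ?_⟩
  -- the number `h = |u - v|` and the scalar `κ`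
  have hκ : ∃ h : ℕ, h0 < h ∧ ∃ κ : ℂ, ‖κ - 1‖ = ‖τ r0 - 1‖ ∧
      τ (r0 / h) ^ u * (starRingEnd ℂ) (τ (r0 / h) ^ v) = κ := by
    have hkey : ∀ h : ℕ, 0 < h → τ (r0 / h) ^ h = τ r0 := by
      intro h hh
      rw [← pow_tau τ hτadd hτ0]
      congr 1
      have : (h : ℝ) ≠ 0 := by positivity
      field_simp
    have hunit : ∀ (r : ℝ) (n : ℕ), τ r ^ n * (starRingEnd ℂ) (τ r ^ n) = 1 := by
      intro r n
      rw [Complex.mul_conj, Complex.normSq_eq_norm_sq, norm_pow, hτ1]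
      simp
    rcases huv with h | h
    · obtain ⟨d, rfl⟩ : ∃ d, v = u + d := ⟨v - u, by omega⟩
      refine ⟨d, by omega, (starRingEnd ℂ) (τ r0), ?_, ?_⟩
      · have : (starRingEnd ℂ) (τ r0) - 1 = (starRingEnd ℂ) (τ r0 - 1) := by simp
        rw [this, RCLike.norm_conj]
      · rw [pow_add, map_mul, ← mul_assoc, hunit, one_mul, hkey d (by omega)]
    · obtain ⟨d, rfl⟩ : ∃ d, u = v + d := ⟨u - v, by omega⟩
      refine ⟨d, by omega, τ r0, rfl, ?_⟩
      rw [pow_add, mul_right_comm, hunit, one_mul, hkey d (by omega)]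
  obtain ⟨h, hh, κ, hκ1, hκ2⟩ := hκ
  have hhpos : (0 : ℝ) < h := by
    have : 0 < h := by omega
    exact_mod_cast this
  set w : G := z (r0 / h) with hw
  have hwA : w ∈ A s := hzA _
  have hwsmall : ∀ x, ‖F (w * x) - F x‖ ≤ ε₁ := by
    apply hδ'
    rw [Real.dist_eq, sub_zero, abs_div, abs_of_pos hhpos, div_lt_iff₀ hhpos]
    rw [div_lt_iff₀ hδ] at hh0
    have : (h0 : ℝ) < h := by exact_mod_cast hh
    nlinarith
  have hκne : κ - 1 ≠ 0 := by
    intro h3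
    rw [h3, norm_zero] at hκ1
    exact hcpos.ne hκ1
  set ψ : G → ℂ := fun x => F (g ^ u * x) * (starRingEnd ℂ) (F (g ^ v * x)) with hψ
  have hψreg : Reg Γ ψ := reg_mul (reg_translate hF.1 _) (reg_conj (reg_translate hF.1 _))
  have hψinv : Inv (A (s + 1)) ψ := by
    intro y hy x
    simp only [hψ]
    rw [shift_eq A S.comm S.one hF.2.1 hy, shift_eq A S.comm S.one hF.2.1 hy, hχ y hy, hχ y hy,
      map_mul]
    have : χ y * (starRingEnd ℂ) (χ y) = 1 := by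
      rw [Complex.mul_conj, Complex.normSq_eq_norm_sq, hχ1 y hy]; simp
    calc _ = (χ y * (starRingEnd ℂ) (χ y)) * (F (g ^ u * x) * (starRingEnd ℂ) (F (g ^ v * x))) := by
          ring
      _ = _ := by rw [this, one_mul]
  have hψw : ∀ x, ‖ψ (w * x) - κ * ψ x‖ ≤ 2 * ε₁ := by
    intro x
    have e1 : ψ (w * x) = κ * (F (w * (g ^ u * x)) * (starRingEnd ℂ) (F (w * (g ^ v * x)))) := by
      simp only [hψ, hw]
      rw [hpow, hpow, map_mul, ← hκ2]
      ring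
    have e2 : ψ (w * x) - κ * ψ x = κ * ((F (w * (g ^ u * x)) - F (g ^ u * x)) *
        (starRingEnd ℂ) (F (w * (g ^ v * x))) + F (g ^ u * x) *
        (starRingEnd ℂ) (F (w * (g ^ v * x)) - F (g ^ v * x))) := by
      rw [e1]
      simp only [hψ, map_sub]
      ring
    have hκn : ‖κ‖ = 1 := by
      rw [← hκ2, norm_mul, RCLike.norm_conj, norm_pow, norm_pow, hτ1]; simp
    rw [e2, norm_mul, hκn, one_mul]
    calc _ ≤ ‖(F (w * (g ^ u * x)) - F (g ^ u * x)) * (starRingEnd ℂ) (F (w * (g ^ v * x)))‖ +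
          ‖F (g ^ u * x) * (starRingEnd ℂ) (F (w * (g ^ v * x)) - F (g ^ v * x))‖ := norm_add_le _ _
      _ ≤ ε₁ * 1 + 1 * ε₁ := by
          rw [norm_mul, norm_mul, RCLike.norm_conj, RCLike.norm_conj]
          exact add_le_add (mul_le_mul (hwsmall _) (hF1 _) (norm_nonneg _) hε₁0.le)
            (mul_le_mul (hF1 _) (hwsmall _) (norm_nonneg _) zero_le_one)
      _ = 2 * ε₁ := by ring
  -- the coboundary
  set ψ' : G → ℂ := fun x => (κ - 1)⁻¹ * (ψ (w * x) - ψ x) with hψ'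
  have hdist : ∀ x, ‖ψ x - ψ' x‖ ≤ ε / 2 := by
    intro x
    have e1 : ψ x - ψ' x = -((κ - 1)⁻¹ * (ψ (w * x) - κ * ψ x)) := by
      simp only [hψ']
      field_simp
      ring
    rw [e1, norm_neg, norm_mul, norm_inv, hκ1]
    calc _ ≤ ‖τ r0 - 1‖⁻¹ * (2 * ε₁) := mul_le_mul_of_nonneg_left (hψw x) (by positivity)
      _ = ε / 4 := by rw [hε₁]; field_simp; ring
      _ ≤ ε / 2 := by linarith
  -- the class of coboundaries
  set J : (G → ℂ) → Prop := fun φ => ∃ ρ : G → ℂ, Reg Γ ρ ∧ Inv (A (s + 1)) ρ ∧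
    ∀ x, φ x = ρ (w * x) - ρ x with hJ
  have hJ' : ∀ φ, J φ → Reg Γ φ ∧ Inv (A (s + 1)) φ := by
    rintro φ ⟨ρ, h1, h2, h3⟩
    have : φ = fun x => ρ (w * x) - ρ x := funext h3
    rw [this]
    exact ⟨reg_sub (reg_translate h1 w) h1,
      inv_sub (inv_translate A S.comm S.one S.anti h2 w) h2⟩
  have hes := S.es_onep s hs
  obtain ⟨ι, hι, φ, hφ1, hφ2⟩ := fourier_list Γ S.cocomp (es s) (fun e he => (hes e he).1) J
    (fun φ hφ => (hJ' φ hφ).1)
    (fun φ hφ e he x => gamma_act A S.comm S.one (hJ' φ hφ).1 (hJ' φ hφ).2 (hes e he).2.1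
      ((hes e he).2.2 1) x)
    (fun φ hφ e he e' he' r r' x => swap_eq A S.comm S.anti hs (hJ' φ hφ).2
      ((hes e he).2.2 r) ((hes e' he').2.2 r') x)
    (by
      rintro φ ⟨ρ, h1, h2, h3⟩ e he m
      refine ⟨Pop e m ρ, reg_Pop Γ ρ h1 e (hes e he).1.1 m, ?_, ?_⟩
      · exact inv_Pop e m ρ h2 (fun r y hy => conj_mem' A S.comm S.one S.anti _ hy)
      · intro x
        have e1 : φ = fun x => ρ (w * x) - ρ x := funext h3
        rw [e1, Pop_sub e (hes e he).1.1 m (fun y => ρ (w * y)) ρ (reg_translate h1 w).1 h1.1,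
          Pop_translate]
        intro r y
        exact swap_eq A S.comm S.anti hs h2 hwA ((hes e he).2.2 r) y)
    (by
      rintro φ ⟨ρ, h1, h2, h3⟩ c
      refine ⟨fun x => c * ρ x, reg_const_mul h1 c, fun y hy x => ?_, fun x => ?_⟩
      · beta_reduce; rw [h2 y hy x]
      · beta_reduce; rw [h3 x]; ring)
    ψ' (by
      refine ⟨fun x => (κ - 1)⁻¹ * ψ x, reg_const_mul hψreg _, fun y hy x => ?_, fun x => ?_⟩
      · beta_reduce; rw [hψinv y hy x]
      · simp only [hψ']; ring)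
    (ε / 2) (by positivity)
  -- the components are good
  have hgood : ∀ i, Lev A Γ es s (φ i) ∧ Good zs s (φ i) := by
    intro i
    obtain ⟨h2, h3⟩ := hφ1 i
    have hLev : Lev A Γ es s (φ i) := ⟨(hJ' _ h2).1, (hJ' _ h2).2, h3⟩
    refine ⟨hLev, ?_⟩
    obtain ⟨m, hm⟩ := S.zfreq s hs z hz (φ i) hLev
    by_cases hm0 : m = 0
    · obtain ⟨ρ, h4, h5, h6⟩ := h2
      have h7 : ∀ x, φ i (w * x) = φ i x := by
        intro x
        have := hm (r0 / h) x
        rw [hm0] at this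
        simpa [ee] using this
      have h8 := cobound_zero S.cocomp ρ (φ i) h4 w h6 h7
      refine ⟨z, hz, 1, one_ne_zero, fun r x => ?_⟩
      rw [h8, h8, mul_zero]
    · exact ⟨z, hz, m, hm0, hm⟩
  have hbdd : ∀ i, ∃ B : ℝ, 0 < B ∧ ∀ x, ‖φ i x‖ ≤ B := fun i => reg_bdd S.cocomp (hgood i).1.1
  choose B hB0 hB using hbdd
  refine ⟨ι, hι, fun i => (B i : ℂ), fun i x => ((B i)⁻¹ : ℝ) * φ i x, fun i => ⟨⟨?_, ?_, ?_⟩, ?_, ?_⟩, ?_⟩
  · exact reg_const_mul (hgood i).1.1 _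
  · intro y hy x
    beta_reduce
    rw [(hgood i).1.2.1 y hy x]
  · intro e he
    obtain ⟨m, hm⟩ := (hgood i).1.2.2 e he
    exact ⟨m, hm.mul_const _⟩
  · obtain ⟨z', hz', m, hm, hm'⟩ := (hgood i).2
    exact ⟨z', hz', m, hm, hm'.mul_const _⟩
  · intro x
    rw [norm_mul, Complex.norm_real, Real.norm_eq_abs, abs_of_pos (inv_pos.mpr (hB0 i)),
      inv_mul_le_iff₀ (hB0 i), mul_one]
    exact hB i x
  · intro x
    have e1 : ∑ i, (B i : ℂ) * (((B i)⁻¹ : ℝ) * φ i x) = ∑ i, φ i x := by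
      refine sum_congr rfl fun i _ => ?_
      have : (B i : ℂ) ≠ 0 := by exact_mod_cast (hB0 i).ne'
      push_cast
      field_simp
    rw [e1]
    calc _ = ‖(ψ x - ψ' x) + (ψ' x - ∑ i, φ i x)‖ := by congr 1; simp only [hψ]; ring
      _ ≤ ε / 2 + ε / 2 := (norm_add_le _ _).trans (add_le_add (hdist x) (hφ2 x))
      _ = ε := by ring

omit [TopologicalSpace G] [IsTopologicalGroup G] in
lemma pow_act (F : G → ℂ) (c : ℂ) (h : ∀ x, F (g * x) = c * F x) (n : ℕ) (x : G) :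
    F (g ^ n * x) = c ^ n * F x := by
  induction n with
  | zero => simp
  | succ n ih => rw [pow_succ', mul_assoc, h, ih, pow_succ']; ring

lemma geom_bound (c : ℂ) (hc : ‖c‖ = 1) (R : ℕ) : ‖1 - c‖ * ‖∑ u ∈ Icc 1 R, c ^ u‖ ≤ 2 := by
  rw [← norm_mul]
  have : (1 - c) * ∑ u ∈ Icc 1 R, c ^ u = c - c ^ (R + 1) := by
    induction R with
    | zero => simp
    | succ R ih => rw [sum_Icc_succ_top (by omega), mul_add, ih]; ring
  rw [this]
  calc _ ≤ ‖c‖ + ‖c ^ (R + 1)‖ := norm_sub_le _ _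
    _ = 2 := by rw [norm_pow, hc]; norm_num

/-- level one -/
lemma level_one (S : Sys A Γ g es zs) (F : G → ℂ) (hF : Lev A Γ es 1 F) (hG : Good zs 1 F)
    (hF1 : ∀ x, ‖F x‖ ≤ 1) (η : ℝ) (hη : 0 < η) :
    ∃ L : ℕ, ∀ R : ℕ, L ≤ R → ∀ (x : G) (l : ℕ),
      ‖∑ u ∈ Icc 1 R, F (g ^ (l + u) * x)‖ ≤ η * R := by
  by_cases hne : ∃ x, F x ≠ 0
  swap
  · push Not at hne
    refine ⟨0, fun R _ x l => ?_⟩
    simp [hne]
    positivity
  obtain ⟨c, hc1, hc⟩ := lev_char A Γ es 1 (S.gen 1 le_rfl) F hF g (by rw [S.one]; trivial)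
  obtain ⟨x1, hx1⟩ := S.alpha F hF hG hne
  have hcne : c ≠ 1 := by
    rintro rfl
    exact hx1 (by rw [hc, one_mul])
  have hpos : 0 < ‖1 - c‖ := norm_pos_iff.mpr (sub_ne_zero.mpr hcne.symm)
  obtain ⟨L, hL⟩ := exists_nat_ge (2 / (η * ‖1 - c‖))
  refine ⟨L, fun R hR x l => ?_⟩
  have e1 : ∑ u ∈ Icc 1 R, F (g ^ (l + u) * x) = c ^ l * F x * ∑ u ∈ Icc 1 R, c ^ u := by
    rw [mul_sum]
    refine sum_congr rfl fun u _ => ?_
    rw [pow_act F c hc, pow_add]; ring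
  rw [e1, norm_mul, norm_mul, norm_pow, hc1, one_pow, one_mul]
  have h2 := geom_bound c hc1 R
  have h3 : ‖∑ u ∈ Icc 1 R, c ^ u‖ ≤ 2 / ‖1 - c‖ := by
    rw [le_div_iff₀ hpos, mul_comm]; exact h2
  have h4 : (L : ℝ) ≤ R := by exact_mod_cast hR
  calc _ ≤ 1 * (2 / ‖1 - c‖) := mul_le_mul (hF1 x) h3 (norm_nonneg _) zero_le_one
    _ = η * (2 / (η * ‖1 - c‖)) := by field_simp
    _ ≤ η * R := by gcongr; exact hL.trans h4

/-- **Functions with a good vertical character are box-small along the orbits of `g`.** -/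
theorem box_char (S : Sys A Γ g es zs) (s : ℕ) (hs : 1 ≤ s) : ∀ (ι : Type) [Finite ι]
    (F : ι → G → ℂ), (∀ i, Lev A Γ es s (F i) ∧ Good zs s (F i) ∧ ∀ x, ‖F i x‖ ≤ 1) →
    ∀ η : ℝ, 0 < η → ∃ K : ℕ → ℕ, (∀ i, 0 < K i) ∧
      ∀ i x, BoxSmall s K η (fun l => F i (g ^ l * x)) := by
  classical
  induction s, hs using Nat.le_induction with
  | base =>
    intro ι _ F hF η hη
    have := Fintype.ofFinite ι
    have h1 : ∀ i, ∃ L : ℕ, ∀ R : ℕ, L ≤ R → ∀ (x : G) (l : ℕ),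
      ‖∑ u ∈ Icc 1 R, F i (g ^ (l + u) * x)‖ ≤ η * R := fun i =>
      level_one S (F i) (hF i).1 (hF i).2.1 (hF i).2.2 η hη
    choose L hL using h1
    refine ⟨fun _ => ∑ i, L i + 1, fun _ => Nat.succ_pos _, fun i x => ?_⟩
    refine boxSmall_one _ η hη.le _ fun l => ?_
    refine hL i _ ?_ x l
    have := Finset.single_le_sum (f := L) (fun _ _ => Nat.zero_le _) (Finset.mem_univ i)
    omega
  | succ s hs ih =>
    intro ι _ F hF η hη
    have := Fintype.ofFinite ι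
    have h1 : ∀ i, ∃ h0 : ℕ, 1 ≤ h0 ∧ ∀ u v : ℕ, (u + h0 ≤ v ∨ v + h0 ≤ u) →
      ∃ (κ : Type) (_ : Fintype κ) (c : κ → ℂ) (φ : κ → G → ℂ),
        (∀ i, Lev A Γ es s (φ i) ∧ Good zs s (φ i) ∧ ∀ x, ‖φ i x‖ ≤ 1) ∧
        ∀ x, ‖F i (g ^ u * x) * (starRingEnd ℂ) (F i (g ^ v * x)) - ∑ i, c i * φ i x‖ ≤
          η ^ 2 / 8 := fun i =>
      deriv_approx S s hs (F i) (hF i).1 (hF i).2.1 (hF i).2.2 (η ^ 2 / 8) (by positivity)
    choose h0 hh0 hder using h1
    set H : ℕ := ∑ i, h0 i + 1 with hH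
    have hH0 : ∀ i, h0 i ≤ H := fun i => by
      have := Finset.single_le_sum (f := h0) (fun _ _ => Nat.zero_le _) (Finset.mem_univ i)
      omega
    obtain ⟨R, hR⟩ := exists_nat_ge (4 * (H : ℝ) / η ^ 2)
    have hHpos : (0 : ℝ) < H := by
      have : 0 < H := by omega
      exact_mod_cast this
    have hR0 : (0 : ℝ) < R := lt_of_lt_of_le (by positivity) hR
    have hR0' : 0 < R := by exact_mod_cast hR0
    have h2 : ∀ t : ι × Fin (R + 1) × Fin (R + 1), ∃ (κ : Type) (_ : Fintype κ) (c : κ → ℂ)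
        (φ : κ → G → ℂ), (∀ i, Lev A Γ es s (φ i) ∧ Good zs s (φ i) ∧ ∀ x, ‖φ i x‖ ≤ 1) ∧
        (((t.2.1 : ℕ) + H ≤ t.2.2 ∨ (t.2.2 : ℕ) + H ≤ t.2.1) → ∀ x,
          ‖F t.1 (g ^ (t.2.1 : ℕ) * x) * (starRingEnd ℂ) (F t.1 (g ^ (t.2.2 : ℕ) * x)) -
            ∑ i, c i * φ i x‖ ≤ η ^ 2 / 8) := by
      rintro ⟨i, u, v⟩
      by_cases hgap : ((u : ℕ) + H ≤ v ∨ (v : ℕ) + H ≤ u)
      · obtain ⟨κ, hκ, c, φ, h3, h4⟩ := hder i u v (by have := hH0 i; omega)
        exact ⟨κ, hκ, c, φ, h3, fun _ => h4⟩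
      · exact ⟨Empty, inferInstance, Empty.elim, Empty.elim, fun i => i.elim,
          fun h => absurd h hgap⟩
    choose κ hκ c φ h3 h4 using h2
    set M : ℝ := ∑ t, ∑ k, ‖c t k‖ with hM
    have hM0 : 0 ≤ M := sum_nonneg fun _ _ => sum_nonneg fun _ _ => norm_nonneg _
    have hMt : ∀ t, ∑ k, ‖c t k‖ ≤ M := fun t =>
      Finset.single_le_sum (f := fun t => ∑ k, ‖c t k‖)
        (fun _ _ => sum_nonneg fun _ _ => norm_nonneg _) (Finset.mem_univ t)
    obtain ⟨K₀, hK₀, hbox⟩ := ih (Σ t, κ t) (fun p => φ p.1 p.2) (fun p => h3 p.1 p.2)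
      (η ^ 2 / (8 * (1 + M))) (by positivity)
    refine ⟨Function.update K₀ s R, ?_, ?_⟩
    · intro i
      by_cases hi : i = s
      · rw [hi, Function.update_self]; exact hR0'
      · rw [Function.update_of_ne hi]; exact hK₀ i
    intro i x
    have hKs : (Function.update K₀ s R) s = R := Function.update_self _ _ _
    refine boxSmall_succ_gap s _ η (η ^ 2 / 4) hη.le _ (fun m => (hF i).2.2 _)
      (by rw [hKs]; exact hR0') H (by omega) ?_ (by positivity) ?_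
    · rw [hKs]
      have : 2 * (H : ℝ) / R ≤ η ^ 2 / 2 := by
        rw [div_le_iff₀ (by positivity)] at hR
        rw [div_le_iff₀ hR0]
        nlinarith
      have h5 : 0 ≤ η ^ 2 := by positivity
      linarith
    · rw [hKs]
      intro u hu v hv huv
      rw [mem_Icc] at hu hv
      refine boxSmall_mono_K _ K₀ _ _ _ (fun i hi => ?_) ?_
      · rw [Function.update_of_ne (by omega)]
      set t : ι × Fin (R + 1) × Fin (R + 1) := (i, ⟨u, by omega⟩, ⟨v, by omega⟩) with ht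
      have h5 := h4 t huv
      have h6 := boxSmall_sum (Finset.univ : Finset (κ t)) s K₀
        (fun k => ‖c t k‖ * (η ^ 2 / (8 * (1 + M)))) (fun k m => c t k * φ t k (g ^ m * x))
        (fun k _ => boxSmall_mul s K₀ _ (c t k) _ (hbox ⟨t, k⟩ x))
      have h7 := boxSmall_of_norm s K₀ (η ^ 2 / 8)
        (fun m => F i (g ^ u * (g ^ m * x)) * (starRingEnd ℂ) (F i (g ^ v * (g ^ m * x))) -
          ∑ k, c t k * φ t k (g ^ m * x)) (fun m => h5 (g ^ m * x))
      have h8 := boxSmall_add s K₀ _ _ _ _ h7 h6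
      have e1 : (fun m => F i (g ^ (m + u) * x) * (starRingEnd ℂ) (F i (g ^ (m + v) * x))) =
          fun m => (F i (g ^ u * (g ^ m * x)) * (starRingEnd ℂ) (F i (g ^ v * (g ^ m * x))) -
          ∑ k, c t k * φ t k (g ^ m * x)) + ∑ k, c t k * φ t k (g ^ m * x) := by
        funext m
        rw [sub_add_cancel, ← mul_assoc, ← mul_assoc, ← pow_add, ← pow_add, add_comm u m,
          add_comm v m]
      rw [e1]
      refine boxSmall_mono_eta s K₀ _ _ ?_ _ h8
      rw [← sum_mul]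
      have h9 : (∑ k, ‖c t k‖) * (η ^ 2 / (8 * (1 + M))) ≤ η ^ 2 / 8 := by
        have h10 : ∑ k, ‖c t k‖ ≤ 1 + M := by linarith [hMt t]
        calc _ ≤ (1 + M) * (η ^ 2 / (8 * (1 + M))) := by gcongr
          _ = η ^ 2 / 8 := by field_simp
      linarith

end

end Pool.Agent.Lib.MP_663568_nt.Fib
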