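import Mathlib
import Pool.Agent.Lib.MP_663568_nt_h86.FDefs
import Pool.Agent.Lib.MP_663568_nt_h86.Approx

/-!
# The relative square of a filtration

For a filtration `A 0 = A 1 = ⊤`, `A 2`, ... of `G` the relative square is the filtration of `G × G`
whose term of index `i` consists of the pairs in `A i × A i` which agree modulo `A (i + 1)`.
-/

set_option autoImplicit false
open Finset

namespace Pool.Agent.Lib.MP_663568_nt.Fib

open Katai Tw
open scoped commutatorElement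

variable {G : Type} [Group G]

namespace Sq

/-- the terms of the filtration are normal -/
lemma conj_mem (A : ℕ → Subgroup G) (hcomm : ∀ i j, ⁅A i, A j⁆ ≤ A (i + j)) (h0 : A 0 = ⊤)
    {n : ℕ} {x : G} (hx : x ∈ A n) (g : G) : g * x * g⁻¹ ∈ A n := by
  have h1 : ⁅g, x⁆ ∈ A (0 + n) :=
    hcomm 0 n (Subgroup.commutator_mem_commutator (by rw [h0]; trivial) hx)
  rw [zero_add] at h1
  have h2 : g * x * g⁻¹ = ⁅g, x⁆ * x := by
    rw [commutatorElement_def]; group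
  rw [h2]
  exact (A n).mul_mem h1 hx

lemma conj_mem' (A : ℕ → Subgroup G) (hcomm : ∀ i j, ⁅A i, A j⁆ ≤ A (i + j)) (h0 : A 0 = ⊤)
    {n : ℕ} {x : G} (hx : x ∈ A n) (g : G) : g⁻¹ * x * g ∈ A n := by
  have := conj_mem A hcomm h0 hx g⁻¹
  rwa [inv_inv] at this

end Sq

/-- the relative square of a filtration -/
def sq (A : ℕ → Subgroup G) (hanti : Antitone A) (hcomm : ∀ i j, ⁅A i, A j⁆ ≤ A (i + j))
    (h0 : A 0 = ⊤) : ℕ → Subgroup (G × G)
  | 0 => ⊤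
  | i + 1 =>
    { carrier := {x | x.1 ∈ A (i + 1) ∧ x.2 ∈ A (i + 1) ∧ x.1 * x.2⁻¹ ∈ A (i + 2)}
      mul_mem' := by
        rintro x y ⟨hx1, hx2, hx3⟩ ⟨hy1, hy2, hy3⟩
        refine ⟨(A (i + 1)).mul_mem hx1 hy1, (A (i + 1)).mul_mem hx2 hy2, ?_⟩
        have h : (x * y).1 * (x * y).2⁻¹ = x.1 * (y.1 * y.2⁻¹) * x.1⁻¹ * (x.1 * x.2⁻¹) := by
          rw [Prod.fst_mul, Prod.snd_mul]; group
        rw [h]
        exact (A (i + 2)).mul_mem (Sq.conj_mem A hcomm h0 hy3 _) hx3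
      one_mem' := by
        refine ⟨(A (i + 1)).one_mem, (A (i + 1)).one_mem, ?_⟩
        simp
      inv_mem' := by
        rintro x ⟨hx1, hx2, hx3⟩
        refine ⟨(A (i + 1)).inv_mem hx1, (A (i + 1)).inv_mem hx2, ?_⟩
        have h : (x⁻¹).1 * (x⁻¹).2⁻¹ = x.1⁻¹ * (x.1 * x.2⁻¹)⁻¹ * x.1 := by
          rw [Prod.fst_inv, Prod.snd_inv]; group
        rw [h]
        exact Sq.conj_mem' A hcomm h0 ((A (i + 2)).inv_mem hx3) _ }

theorem mem_sq_succ (A : ℕ → Subgroup G) (hanti : Antitone A)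
    (hcomm : ∀ i j, ⁅A i, A j⁆ ≤ A (i + j)) (h0 : A 0 = ⊤) (i : ℕ) (x : G × G) :
    x ∈ sq A hanti hcomm h0 (i + 1) ↔
      x.1 ∈ A (i + 1) ∧ x.2 ∈ A (i + 1) ∧ x.1 * x.2⁻¹ ∈ A (i + 2) := Iff.rfl

/-- if `A 1 = ⊤`, then the term of index `0` is of the same form -/
theorem mem_sq (A : ℕ → Subgroup G) (hanti : Antitone A)
    (hcomm : ∀ i j, ⁅A i, A j⁆ ≤ A (i + j)) (h0 : A 0 = ⊤) (h1 : A 1 = ⊤) (i : ℕ) (x : G × G) :
    x ∈ sq A hanti hcomm h0 i ↔ x.1 ∈ A i ∧ x.2 ∈ A i ∧ x.1 * x.2⁻¹ ∈ A (i + 1) := by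
  cases i with
  | zero =>
    constructor
    · intro _
      rw [zero_add, h0, h1]
      exact ⟨trivial, trivial, trivial⟩
    · intro _
      exact (trivial : x ∈ (⊤ : Subgroup (G × G)))
  | succ i => exact Iff.rfl

/-- M5 -/
theorem sq_anti (A : ℕ → Subgroup G) (hanti : Antitone A) (hcomm : ∀ i j, ⁅A i, A j⁆ ≤ A (i + j))
    (h0 : A 0 = ⊤) : Antitone (sq A hanti hcomm h0) := by
  refine antitone_nat_of_succ_le ?_
  intro i
  cases i with
  | zero => exact fun _ _ => (trivial : _ ∈ (⊤ : Subgroup (G × G)))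
  | succ i =>
    intro x hx
    rw [mem_sq_succ] at hx ⊢
    exact ⟨hanti (Nat.le_succ _) hx.1, hanti (Nat.le_succ _) hx.2.1,
      hanti (Nat.le_succ _) hx.2.2⟩

namespace Sq

/-- if `w` commutes with `c` and with `[b, c]` modulo `N`, then `[w b, c] = [b, c]` modulo `N`;
`w' b` version on the right as well -/
lemma comm_eq {N : Subgroup G} [N.Normal] {w b c : G} (h1 : ⁅w, c⁆ ∈ N) (h2 : ⁅w, ⁅b, c⁆⁆ ∈ N) :
    (QuotientGroup.mk' N) ⁅w * b, c⁆ = (QuotientGroup.mk' N) ⁅b, c⁆ := by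
  have e1 : Commute ((QuotientGroup.mk' N) w) ((QuotientGroup.mk' N) c) := by
    rw [← commutatorElement_eq_one_iff_commute, ← map_commutatorElement]
    exact (QuotientGroup.eq_one_iff _).2 h1
  have e2 : Commute ((QuotientGroup.mk' N) w) ((QuotientGroup.mk' N) ⁅b, c⁆) := by
    rw [← commutatorElement_eq_one_iff_commute, ← map_commutatorElement]
    exact (QuotientGroup.eq_one_iff _).2 h2
  rw [map_commutatorElement, map_commutatorElement, map_mul]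
  rw [map_commutatorElement] at e2
  generalize (QuotientGroup.mk' N) w = w at *
  generalize (QuotientGroup.mk' N) b = b at *
  generalize (QuotientGroup.mk' N) c = c at *
  rw [commutatorElement_def] at e2 ⊢
  rw [commutatorElement_def]
  have e3 : w⁻¹ * c⁻¹ = c⁻¹ * w⁻¹ := (e1.inv_inv).eq
  calc w * b * c * (w * b)⁻¹ * c⁻¹ = w * b * c * b⁻¹ * (w⁻¹ * c⁻¹) := by group
    _ = w * (b * c * b⁻¹ * c⁻¹) * w⁻¹ := by rw [e3]; group
    _ = (b * c * b⁻¹ * c⁻¹) * w * w⁻¹ := by rw [e2.eq]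
    _ = b * c * b⁻¹ * c⁻¹ := by group

end Sq

theorem sq_comm (A : ℕ → Subgroup G) (hanti : Antitone A) (hcomm : ∀ i j, ⁅A i, A j⁆ ≤ A (i + j))
    (h0 : A 0 = ⊤) (h1 : A 1 = ⊤) (i j : ℕ) :
    ⁅sq A hanti hcomm h0 i, sq A hanti hcomm h0 j⁆ ≤ sq A hanti hcomm h0 (i + j) := by
  rw [Subgroup.commutator_le]
  rintro ⟨a, b⟩ hx ⟨c, d⟩ hy
  rw [mem_sq A hanti hcomm h0 h1] at hx hy
  rw [mem_sq A hanti hcomm h0 h1]
  obtain ⟨ha, hb, hw⟩ := hx
  obtain ⟨hc, hd, hw'⟩ := hy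
  simp only at ha hb hw hc hd hw'
  have hac : ⁅a, c⁆ ∈ A (i + j) := hcomm i j (Subgroup.commutator_mem_commutator ha hc)
  have hbd : ⁅b, d⁆ ∈ A (i + j) := hcomm i j (Subgroup.commutator_mem_commutator hb hd)
  have hbc : ⁅b, c⁆ ∈ A (i + j) := hcomm i j (Subgroup.commutator_mem_commutator hb hc)
  have hcb : ⁅c, b⁆ ∈ A (i + j) := by
    rw [← commutatorElement_inv]; exact (A (i + j)).inv_mem hbc
  have hdb : ⁅d, b⁆ ∈ A (i + j) := by
    rw [← commutatorElement_inv]; exact (A (i + j)).inv_mem hbd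
  refine ⟨hac, hbd, ?_⟩
  show ⁅a, c⁆ * ⁅b, d⁆⁻¹ ∈ A (i + j + 1)
  haveI hN : (A (i + j + 1)).Normal :=
    ⟨fun n hn g => Sq.conj_mem A hcomm h0 hn g⟩
  set N := A (i + j + 1) with hNdef
  have key1 : (QuotientGroup.mk' N) ⁅a, c⁆ = (QuotientGroup.mk' N) ⁅b, c⁆ := by
    have := Sq.comm_eq (N := N) (w := a * b⁻¹) (b := b) (c := c)
      (by
        have := hcomm (i + 1) j (Subgroup.commutator_mem_commutator hw hc)
        rwa [show i + 1 + j = i + j + 1 by ring] at this)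
      (by
        have := hcomm (i + 1) (i + j) (Subgroup.commutator_mem_commutator hw hbc)
        exact hanti (by omega) this)
    rwa [inv_mul_cancel_right] at this
  have key2 : (QuotientGroup.mk' N) ⁅c, b⁆ = (QuotientGroup.mk' N) ⁅d, b⁆ := by
    have := Sq.comm_eq (N := N) (w := c * d⁻¹) (b := d) (c := b)
      (by
        have := hcomm (j + 1) i (Subgroup.commutator_mem_commutator hw' hb)
        rwa [show j + 1 + i = i + j + 1 by ring] at this)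
      (by
        have := hcomm (j + 1) (i + j) (Subgroup.commutator_mem_commutator hw' hdb)
        exact hanti (by omega) this)
    rwa [inv_mul_cancel_right] at this
  have key3 : (QuotientGroup.mk' N) ⁅b, c⁆ = (QuotientGroup.mk' N) ⁅b, d⁆ := by
    rw [← commutatorElement_inv c b, ← commutatorElement_inv d b, map_inv, map_inv, key2]
  have key : (QuotientGroup.mk' N) (⁅a, c⁆ * ⁅b, d⁆⁻¹) = 1 := by
    rw [map_mul, map_inv, key1, key3, mul_inv_cancel]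
  exact (QuotientGroup.eq_one_iff _).1 key

theorem sq_coc [TopologicalSpace G] [IsTopologicalGroup G] (A : ℕ → Subgroup G)
    (hanti : Antitone A) (hcomm : ∀ i j, ⁅A i, A j⁆ ≤ A (i + j))
    (h0 : A 0 = ⊤) (h1 : A 1 = ⊤) (Γ : Subgroup G) (hC : Coc A Γ) :
    Coc (sq A hanti hcomm h0) (Γ.prod Γ) := by
  intro i
  obtain ⟨C, hCc, hCA, hC1⟩ := hC i
  obtain ⟨C', hCc', hCA', hC1'⟩ := hC (i + 1)
  have hcont : Continuous (fun p : G × G => (p.1 * p.2, p.1)) := by fun_prop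
  refine ⟨(fun p : G × G => (p.1 * p.2, p.1)) '' (C ×ˢ C'), (hCc.prod hCc').image hcont, ?_, ?_⟩
  · rintro _ ⟨⟨c, c'⟩, ⟨hc, hc'⟩, rfl⟩
    rw [mem_sq A hanti hcomm h0 h1]
    have h2 := hCA c hc
    have h3 := hCA' c' hc'
    refine ⟨(A i).mul_mem h2 (hanti (Nat.le_succ i) h3), h2, ?_⟩
    exact Sq.conj_mem A hcomm h0 h3 c
  · rintro ⟨a, b⟩ hx
    rw [mem_sq A hanti hcomm h0 h1] at hx
    obtain ⟨ha, hb, hw⟩ := hx
    simp only at ha hb hw
    obtain ⟨c, hc, g, hg, hb'⟩ := hC1 b hb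
    obtain ⟨c', hc', g', hg', hw'⟩ := hC1' (c⁻¹ * (a * b⁻¹) * c) (Sq.conj_mem' A hcomm h0 hw c)
    refine ⟨(c * c', c), ⟨(c, c'), ⟨hc, hc'⟩, rfl⟩, (g' * g, g),
      ⟨Γ.mul_mem hg' hg, hg⟩, ?_⟩
    have h2 : a = c * (c' * g') * g := by
      rw [← hw', hb']; group
    rw [Prod.mk_mul_mk, h2, hb']
    congr 1
    group

end Pool.Agent.Lib.MP_663568_nt.Fib
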