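import Mathlib
import Pool.Agent.Lib.MP_663568_nt_h86.FInd
import Pool.Agent.Lib.MP_663568_nt_h86.FApprox
import Pool.Agent.Lib.MP_663568_nt_h86.FSquare
import Pool.Agent.Lib.MP_663568_nt_h86.FFrame

/-!
# Orthogonality of `F (g ^ (p l) x)` and `F (g' ^ (q l) x')`

for all `g ∈ u A 2`, `g' ∈ v A 2` with `u` near `a` and `v` near `b`, where `(a ^ p, b ^ q)`
satisfies the hypotheses of `box_char`.
-/

set_option autoImplicit false
open Finset

namespace Pool.Agent.Lib.MP_663568_nt.Fib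

open Katai Tw

variable {G : Type} [Group G] [TopologicalSpace G] [IsTopologicalGroup G]

omit [IsTopologicalGroup G] in
lemma cocompact_of_coc {A : ℕ → Subgroup G} (h0 : A 0 = ⊤) {Γ : Subgroup G} (hC : Coc A Γ) :
    Cocompact' Γ := by
  obtain ⟨C, hC1, _, hC3⟩ := hC 0
  exact ⟨C, hC1, fun x => hC3 x (by rw [h0]; trivial)⟩

omit [IsTopologicalGroup G] in
/-- the tensor product of two functions of level `s` -/
lemma lev_tensor (A : ℕ → Subgroup G) (Γ : Subgroup G) (es : ℕ → List (ℝ → G)) (s : ℕ)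
    (f f' : G → ℂ) (hf : Lev A Γ es s f) (hf' : Lev A Γ es s f') :
    Lev (prodA A) (Γ.prod Γ) (prodEs es) s (fun x : G × G => f x.1 * (starRingEnd ℂ) (f' x.2)) := by
  refine ⟨⟨?_, ?_⟩, ?_, ?_⟩
  · exact (hf.1.1.comp continuous_fst).mul
      (Complex.continuous_conj.comp (hf'.1.1.comp continuous_snd))
  · rintro ⟨x, x'⟩ ⟨γ, γ'⟩ hγ
    rw [Subgroup.mem_prod] at hγ
    simp only [Prod.mk_mul_mk]
    rw [hf.1.2 x γ hγ.1, hf'.1.2 x' γ' hγ.2]
  · rintro ⟨z, z'⟩ hz ⟨x, x'⟩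
    rw [prodA, Subgroup.mem_prod] at hz
    simp only [Prod.mk_mul_mk]
    rw [hf.2.1 z hz.1 x, hf'.2.1 z' hz.2 x']
  · intro e he
    rw [prodEs, List.mem_append, List.mem_map, List.mem_map] at he
    rcases he with ⟨e0, he0, rfl⟩ | ⟨e0, he0, rfl⟩
    · obtain ⟨m, hm⟩ := hf.2.2 e0 he0
      refine ⟨m, fun r x => ?_⟩
      simp only [Prod.fst_mul, Prod.snd_mul, one_mul]
      rw [hm r x.1]; ring
    · obtain ⟨m, hm⟩ := hf'.2.2 e0 he0
      refine ⟨-m, fun r x => ?_⟩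
      simp only [Prod.fst_mul, Prod.snd_mul, one_mul]
      rw [hm r x.2, map_mul, conj_ee]
      push_cast
      rw [show -((m : ℝ) * r) = -(m : ℝ) * r by ring]
      ring

omit [IsTopologicalGroup G] [TopologicalSpace G] [Group G] in
lemma frame_le_one {k : ℕ} {f : Fin k → G → ℂ}
    (h : ∀ x, ∑ i, f i x * (starRingEnd ℂ) (f i x) = 1) (i : Fin k) (x : G) : ‖f i x‖ ≤ 1 := by
  have h1 : ∑ i, ‖f i x‖ ^ 2 = 1 := by
    have h2 := h x
    simp only [Complex.mul_conj, Complex.normSq_eq_norm_sq] at h2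
    exact_mod_cast h2
  have h3 : ‖f i x‖ ^ 2 ≤ 1 := by
    rw [← h1]
    exact Finset.single_le_sum (f := fun i => ‖f i x‖ ^ 2) (fun _ _ => by positivity)
      (Finset.mem_univ i)
  have := norm_nonneg (f i x)
  nlinarith

omit [TopologicalSpace G] [IsTopologicalGroup G] in
lemma sq_base (A : ℕ → Subgroup G) (hanti : Antitone A)
    (hcomm : ∀ i j, ⁅A i, A j⁆ ≤ A (i + j)) (h0 : A 0 = ⊤) (h1 : A 1 = ⊤) (u w : G)
    (hw : w ∈ A 2) (p : ℕ) : (((u * w) ^ p, u ^ p) : G × G) ∈ sq A hanti hcomm h0 1 := by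
  have h2 : ((u * w, u) : G × G) ∈ sq A hanti hcomm h0 1 := by
    rw [mem_sq A hanti hcomm h0 h1]
    refine ⟨by rw [h1]; trivial, by rw [h1]; trivial, ?_⟩
    exact conj_mem' A hcomm h1 hanti u hw
  exact (sq A hanti hcomm h0 1).pow_mem h2 p

/-- **Local orthogonality.** -/
theorem loc_orth (A : ℕ → Subgroup G) (hanti : Antitone A)
    (hcomm : ∀ i j, ⁅A i, A j⁆ ≤ A (i + j)) (h0 : A 0 = ⊤) (h1 : A 1 = ⊤)
    (Γ : Subgroup G) (hΓ : IsClosed (Γ : Set G)) (hC : Coc A Γ) (es : ℕ → List (ℝ → G)) (s : ℕ)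
    (hs : 1 ≤ s) (hes : ∀ e ∈ es s, IsOneP e ∧ e 1 ∈ Γ ∧ ∀ r, e r ∈ A s)
    (hgen : A s ≤ Subgroup.closure {x | ∃ e ∈ es s, ∃ r, x = e r} ⊔ A (s + 1))
    (F : G → ℂ) (hF : Lev A Γ es s F) (hF1 : ∀ x, ‖F x‖ ≤ 1) (a b : G) (p q : ℕ)
    (zs : ℕ → List (ℝ → G × G))
    (hS : Sys (prodA A) (Γ.prod Γ) ((a ^ p, b ^ q) : G × G) (prodEs es) zs)
    (hgood : ∀ f f' : G → ℂ, Lev A Γ es s f → Lev A Γ es s f' →
      (∀ z ∈ A s, ∀ c : ℂ, (∀ y, F (z * y) = c * F y) → ∀ y, f (z * y) = c * f y) →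
      (∀ z ∈ A s, ∀ c : ℂ, (∀ y, F (z * y) = c * F y) → ∀ y, f' (z * y) = c * f' y) →
      Good zs s (fun x : G × G => f x.1 * (starRingEnd ℂ) (f' x.2)))
    (η : ℝ) (hη : 0 < η) :
    ∃ L₀ : ℕ, 0 < L₀ ∧ ∃ U V : Set G, IsOpen U ∧ a ∈ U ∧ IsOpen V ∧ b ∈ V ∧
      ∀ u ∈ U, ∀ v ∈ V, ∀ w ∈ A 2, ∀ w' ∈ A 2, ∀ x x' : G,
        ‖∑ l ∈ Icc 1 L₀, F ((u * w) ^ (p * l) * x) *
          (starRingEnd ℂ) (F ((v * w') ^ (q * l) * x'))‖ ≤ η * L₀ := by
  classical
  by_cases hne : ∃ x, F x ≠ 0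
  swap
  · push Not at hne
    refine ⟨1, one_pos, Set.univ, Set.univ, isOpen_univ, trivial, isOpen_univ, trivial,
      fun u _ v _ w _ w' _ x x' => ?_⟩
    simp only [hne, zero_mul, sum_const_zero, norm_zero]
    positivity
  have hCo := cocompact_of_coc h0 hC
  obtain ⟨k, f, hf1, hf2, hf3⟩ := exists_frame A hanti hcomm h1 Γ hCo es s hs hes hgen F hF hne
  have hfle := fun i x => frame_le_one hf3 i x
  -- constants
  set κ : ℝ := (k : ℝ) * k + 1 with hκ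
  have hκ0 : 0 < κ := by positivity
  set ε₁ : ℝ := min 1 (η / (24 * κ)) with hε₁
  have hε₁0 : 0 < ε₁ := lt_min one_pos (by positivity)
  have hε₁1 : ε₁ ≤ 1 := min_le_left _ _
  have hε₁2 : ε₁ ≤ η / (24 * κ) := min_le_right _ _
  -- dual functions
  have hdual : ∀ i : Fin k, ∃ M : ℝ, 1 ≤ M ∧ ∀ g ∈ sq A hanti hcomm h0 1, ∀ y : G × G,
      Dual s M ε₁ (fun m => (fun z : G × G => F z.1 * (starRingEnd ℂ) (f i z.2)) (g ^ m * y)) := by
    intro i
    refine dual_nil_inv (sq A hanti hcomm h0) (sq_anti A hanti hcomm h0)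
      (sq_comm A hanti hcomm h0 h1) rfl (Γ.prod Γ) (sq_coc A hanti hcomm h0 h1 Γ hC) ?_ s
      (fun z : G × G => F z.1 * (starRingEnd ℂ) (f i z.2)) ?_ ?_ ε₁ hε₁0
    · have : ((Γ.prod Γ : Subgroup (G × G)) : Set (G × G)) = (Γ : Set G) ×ˢ (Γ : Set G) :=
        Subgroup.coe_prod _ _
      rw [this]
      exact hΓ.prod hΓ
    · exact (lev_tensor A Γ es s F (f i) hF (hf1 i)).1
    · rintro ⟨z, z'⟩ hz ⟨y, y'⟩
      rw [mem_sq A hanti hcomm h0 h1] at hz
      obtain ⟨hz1, hz2, hz3⟩ := hz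
      simp only at hz1 hz2 hz3
      simp only [Prod.mk_mul_mk]
      obtain ⟨c, hc1, hc⟩ := lev_char A Γ es s hgen F hF z' hz2
      have e1 : F (z * y) = c * F y := by
        have := hF.2.1 _ hz3 (z' * y)
        rw [← hc, ← this]
        congr 1; group
      rw [e1, hf2 i z' hz2 c hc y', map_mul]
      have : c * (starRingEnd ℂ) c = 1 := by
        rw [Complex.mul_conj, Complex.normSq_eq_norm_sq, hc1]; simp
      calc _ = (c * (starRingEnd ℂ) c) * (F y * (starRingEnd ℂ) (f i y')) := by ring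
        _ = _ := by rw [this, one_mul]
  choose Mi hMi1 hMi using hdual
  set M : ℝ := 1 + ∑ i, Mi i with hM
  have hMi0 : ∀ i, 0 ≤ Mi i := fun i => zero_le_one.trans (hMi1 i)
  have hM1 : 1 ≤ M := by
    have : 0 ≤ ∑ i, Mi i := sum_nonneg fun i _ => hMi0 i
    linarith
  have hMle : ∀ i, Mi i ≤ M := fun i => by
    have := Finset.single_le_sum (f := Mi) (fun i _ => hMi0 i) (Finset.mem_univ i)
    linarith
  have hM0 : 0 < M := by linarith
  -- box-small functions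
  obtain ⟨K, hK0, hbox⟩ := box_char hS s hs (Fin k × Fin k)
    (fun ij => fun x : G × G => f ij.1 x.1 * (starRingEnd ℂ) (f ij.2 x.2))
    (fun ij => ⟨lev_tensor A Γ es s _ _ (hf1 _) (hf1 _),
      hgood _ _ (hf1 _) (hf1 _) (hf2 _) (hf2 _), fun x => by
        rw [norm_mul, RCLike.norm_conj]
        exact mul_le_one₀ (hfle _ _) (norm_nonneg _) (hfle _ _)⟩)
    (η / (8 * κ * (M * M))) (by positivity)
  set S0 : ℝ := ∑ i ∈ range s, (K i : ℝ) with hS0
  have hS00 : 0 ≤ S0 := sum_nonneg fun _ _ => Nat.cast_nonneg _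
  set L : ℕ := ⌈16 * κ * S0 / η⌉₊ + 1 with hL
  have hLr : 16 * κ * S0 / η ≤ (L : ℝ) := by
    refine (Nat.le_ceil _).trans ?_
    rw [hL]; push_cast; linarith
  have hL0 : 0 < L := by omega
  have hLS : κ * (2 * S0) ≤ η / 8 * L := by
    rw [div_le_iff₀ hη] at hLr
    nlinarith
  -- neighbourhoods
  set ε₂ : ℝ := η / (8 * κ) with hε₂
  have hε₂0 : 0 < ε₂ := by positivity
  have hnb : ∀ (c : G) (r : ℕ), ∀ᶠ u in nhds c, ∀ i : Fin k, ∀ l ∈ Icc 1 L,
      ‖f i ((u ^ r) ^ l) - f i ((c ^ r) ^ l)‖ < ε₂ := by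
    intro c r
    rw [Filter.eventually_all]
    intro i
    rw [Filter.eventually_all_finset]
    intro l _
    have hcont : Continuous fun u : G => ‖f i ((u ^ r) ^ l) - f i ((c ^ r) ^ l)‖ := by
      have := (hf1 i).1.1
      fun_prop
    have h3 : ‖f i ((c ^ r) ^ l) - f i ((c ^ r) ^ l)‖ < ε₂ := by simpa using hε₂0
    exact hcont.continuousAt.eventually (gt_mem_nhds h3)
  obtain ⟨U, hU1, hU2, hU3⟩ := eventually_nhds_iff.mp (hnb a p)
  obtain ⟨V, hV1, hV2, hV3⟩ := eventually_nhds_iff.mp (hnb b q)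
  refine ⟨L, hL0, U, V, hU2, hU3, hV2, hV3, ?_⟩
  intro u hu v hv w hw w' hw' x x'
  -- the dual functions
  set D : Fin k → ℕ → ℂ := fun i l => F ((u * w) ^ (p * l) * x) *
    (starRingEnd ℂ) (f i ((u ^ p) ^ l)) with hD
  set D' : Fin k → ℕ → ℂ := fun i l => F ((v * w') ^ (q * l) * x') *
    (starRingEnd ℂ) (f i ((v ^ q) ^ l)) with hD'
  have hDd : ∀ i, Dual s M ε₁ (D i) := by
    intro i
    have := (hMi i _ (sq_base A hanti hcomm h0 h1 u w hw p) (x, 1)).mono_M (hMle i)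
    refine (congrArg (Dual s M ε₁) ?_).mp this
    funext m
    simp only [hD, Prod.pow_mk, Prod.mk_mul_mk, mul_one, pow_mul]
  have hDd' : ∀ i, Dual s M ε₁ (D' i) := by
    intro i
    have := (hMi i _ (sq_base A hanti hcomm h0 h1 v w' hw' q) (x', 1)).mono_M (hMle i)
    refine (congrArg (Dual s M ε₁) ?_).mp this
    funext m
    simp only [hD', Prod.pow_mk, Prod.mk_mul_mk, mul_one, pow_mul]
  have hD1 : ∀ i l, ‖D i l‖ ≤ 1 := fun i l => by
    simp only [hD]; rw [norm_mul, RCLike.norm_conj]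
    exact mul_le_one₀ (hF1 _) (norm_nonneg _) (hfle _ _)
  have hD1' : ∀ i l, ‖D' i l‖ ≤ 1 := fun i l => by
    simp only [hD']; rw [norm_mul, RCLike.norm_conj]
    exact mul_le_one₀ (hF1 _) (norm_nonneg _) (hfle _ _)
  -- main terms
  have hmain : ∀ i j, ‖∑ l ∈ Icc 1 L, (f i ((a ^ p) ^ l) * (starRingEnd ℂ) (f j ((b ^ q) ^ l))) *
      (D i l * (starRingEnd ℂ) (D' j l))‖ ≤
        L * (η / (8 * κ) + η / (8 * κ)) + 2 * S0 := by
    intro i j
    have k3 := (hDd i).mul (hDd' j).conj (hD1 i) (fun m => by rw [RCLike.norm_conj]; exact hD1' j m)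
      hε₁0.le
    have k4 := dual_small s K hK0 (η / (8 * κ * (M * M))) (M * M) _ (by positivity)
      (fun l => f i ((a ^ p) ^ l) * (starRingEnd ℂ) (f j ((b ^ q) ^ l))) _ (fun m => by
        rw [norm_mul, RCLike.norm_conj]
        exact mul_le_one₀ (hfle _ _) (norm_nonneg _) (hfle _ _)) (fun m => by
        rw [norm_mul, RCLike.norm_conj]
        exact mul_le_one₀ (hD1 _ _) (norm_nonneg _) (hD1' _ _)) (by
        have := hbox (i, j) 1
        simpa only [mul_one, Prod.pow_fst, Prod.pow_snd] using this) k3 L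
    refine k4.trans ?_
    have k5 : M * M * (η / (8 * κ * (M * M))) = η / (8 * κ) := by field_simp
    have k6 : ε₁ + ε₁ * (1 + ε₁) ≤ η / (8 * κ) := by
      have : η / (8 * κ) = 3 * (η / (24 * κ)) := by field_simp; ring
      rw [this]; nlinarith
    rw [k5]
    have hLn : (0 : ℝ) ≤ L := Nat.cast_nonneg _
    gcongr
  -- expansion in the frames
  have hexp : ∀ (y z : G), F y = ∑ i, (F y * (starRingEnd ℂ) (f i z)) * f i z := by
    intro y z
    have := hf3 z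
    calc F y = F y * ∑ i, f i z * (starRingEnd ℂ) (f i z) := by rw [this, mul_one]
      _ = _ := by rw [mul_sum]; exact sum_congr rfl fun i _ => by ring
  have hterm : ∀ l ∈ Icc 1 L, ‖F ((u * w) ^ (p * l) * x) *
      (starRingEnd ℂ) (F ((v * w') ^ (q * l) * x')) -
      ∑ i, ∑ j, (f i ((a ^ p) ^ l) * (starRingEnd ℂ) (f j ((b ^ q) ^ l))) *
        (D i l * (starRingEnd ℂ) (D' j l))‖ ≤ (k : ℝ) * k * (2 * ε₂) := by
    intro l hl
    have e1 : F ((u * w) ^ (p * l) * x) * (starRingEnd ℂ) (F ((v * w') ^ (q * l) * x')) =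
        ∑ i, ∑ j, (f i ((u ^ p) ^ l) * (starRingEnd ℂ) (f j ((v ^ q) ^ l))) *
          (D i l * (starRingEnd ℂ) (D' j l)) := by
      conv_lhs => rw [hexp ((u * w) ^ (p * l) * x) ((u ^ p) ^ l),
        hexp ((v * w') ^ (q * l) * x') ((v ^ q) ^ l)]
      rw [map_sum, sum_mul_sum]
      refine sum_congr rfl fun i _ => sum_congr rfl fun j _ => ?_
      simp only [hD, hD', map_mul]
      ring
    rw [e1, ← sum_sub_distrib]
    calc _ ≤ ∑ i, ‖∑ j, (f i ((u ^ p) ^ l) * (starRingEnd ℂ) (f j ((v ^ q) ^ l))) *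
          (D i l * (starRingEnd ℂ) (D' j l)) - ∑ j, (f i ((a ^ p) ^ l) *
          (starRingEnd ℂ) (f j ((b ^ q) ^ l))) * (D i l * (starRingEnd ℂ) (D' j l))‖ :=
          norm_sum_le _ _
      _ ≤ ∑ i : Fin k, ∑ j : Fin k, 2 * ε₂ := by
          refine sum_le_sum fun i _ => ?_
          rw [← sum_sub_distrib]
          refine (norm_sum_le _ _).trans (sum_le_sum fun j _ => ?_)
          rw [← sub_mul, norm_mul]
          have h5 : ‖D i l * (starRingEnd ℂ) (D' j l)‖ ≤ 1 := by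
            rw [norm_mul, RCLike.norm_conj]
            exact mul_le_one₀ (hD1 _ _) (norm_nonneg _) (hD1' _ _)
          have h6 : ‖f i ((u ^ p) ^ l) * (starRingEnd ℂ) (f j ((v ^ q) ^ l)) -
              f i ((a ^ p) ^ l) * (starRingEnd ℂ) (f j ((b ^ q) ^ l))‖ ≤ 2 * ε₂ := by
            have e2 : f i ((u ^ p) ^ l) * (starRingEnd ℂ) (f j ((v ^ q) ^ l)) -
              f i ((a ^ p) ^ l) * (starRingEnd ℂ) (f j ((b ^ q) ^ l)) =
              (f i ((u ^ p) ^ l) - f i ((a ^ p) ^ l)) * (starRingEnd ℂ) (f j ((v ^ q) ^ l)) +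
              f i ((a ^ p) ^ l) * (starRingEnd ℂ) (f j ((v ^ q) ^ l) - f j ((b ^ q) ^ l)) := by
              rw [map_sub]; ring
            rw [e2]
            calc _ ≤ _ := norm_add_le _ _
              _ ≤ ε₂ * 1 + 1 * ε₂ := by
                  rw [norm_mul, norm_mul, RCLike.norm_conj, RCLike.norm_conj]
                  exact add_le_add
                    (mul_le_mul (hU1 u hu i l hl).le (hfle _ _) (norm_nonneg _) hε₂0.le)
                    (mul_le_mul (hfle _ _) (hV1 v hv j l hl).le (norm_nonneg _) zero_le_one)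
              _ = _ := by ring
          calc _ ≤ 2 * ε₂ * 1 := mul_le_mul h6 h5 (norm_nonneg _) (by positivity)
            _ = _ := mul_one _
      _ = _ := by simp; ring
  have hsplit : ∑ l ∈ Icc 1 L, F ((u * w) ^ (p * l) * x) *
      (starRingEnd ℂ) (F ((v * w') ^ (q * l) * x')) =
      ∑ l ∈ Icc 1 L, (F ((u * w) ^ (p * l) * x) *
      (starRingEnd ℂ) (F ((v * w') ^ (q * l) * x')) -
      ∑ i, ∑ j, (f i ((a ^ p) ^ l) * (starRingEnd ℂ) (f j ((b ^ q) ^ l))) *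
        (D i l * (starRingEnd ℂ) (D' j l))) +
      ∑ i, ∑ j, ∑ l ∈ Icc 1 L, (f i ((a ^ p) ^ l) * (starRingEnd ℂ) (f j ((b ^ q) ^ l))) *
        (D i l * (starRingEnd ℂ) (D' j l)) := by
    rw [sum_sub_distrib]
    have : ∑ i, ∑ j, ∑ l ∈ Icc 1 L, (f i ((a ^ p) ^ l) * (starRingEnd ℂ) (f j ((b ^ q) ^ l))) *
        (D i l * (starRingEnd ℂ) (D' j l)) = ∑ l ∈ Icc 1 L, ∑ i, ∑ j, (f i ((a ^ p) ^ l) *
        (starRingEnd ℂ) (f j ((b ^ q) ^ l))) * (D i l * (starRingEnd ℂ) (D' j l)) := by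
      exact (sum_congr rfl fun i _ => sum_comm).trans sum_comm
    rw [this]; ring
  rw [hsplit]
  have hLn : (0 : ℝ) < L := by exact_mod_cast hL0
  have b1 : ‖∑ l ∈ Icc 1 L, (F ((u * w) ^ (p * l) * x) *
      (starRingEnd ℂ) (F ((v * w') ^ (q * l) * x')) -
      ∑ i, ∑ j, (f i ((a ^ p) ^ l) * (starRingEnd ℂ) (f j ((b ^ q) ^ l))) *
        (D i l * (starRingEnd ℂ) (D' j l)))‖ ≤ η / 4 * L := by
    calc _ ≤ ∑ l ∈ Icc 1 L, (k : ℝ) * k * (2 * ε₂) :=
          (norm_sum_le _ _).trans (sum_le_sum hterm)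
      _ = L * ((k : ℝ) * k * (2 * ε₂)) := by simp
      _ ≤ L * (κ * (2 * ε₂)) := by
          have : (k : ℝ) * k ≤ κ := by rw [hκ]; linarith
          gcongr
      _ = η / 4 * L := by rw [hε₂]; field_simp; ring
  have b2 : ‖∑ i, ∑ j, ∑ l ∈ Icc 1 L, (f i ((a ^ p) ^ l) * (starRingEnd ℂ) (f j ((b ^ q) ^ l))) *
        (D i l * (starRingEnd ℂ) (D' j l))‖ ≤ η / 2 * L := by
    calc _ ≤ ∑ i : Fin k, ∑ j : Fin k, (L * (η / (8 * κ) + η / (8 * κ)) + 2 * S0) :=
          (norm_sum_le _ _).trans (sum_le_sum fun i _ =>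
            (norm_sum_le _ _).trans (sum_le_sum fun j _ => hmain i j))
      _ = (k : ℝ) * k * (L * (η / (8 * κ) + η / (8 * κ)) + 2 * S0) := by simp; ring
      _ ≤ κ * (L * (η / (8 * κ) + η / (8 * κ)) + 2 * S0) := by
          have : (k : ℝ) * k ≤ κ := by rw [hκ]; linarith
          have : 0 ≤ (L * (η / (8 * κ) + η / (8 * κ)) + 2 * S0) := by positivity
          gcongr
      _ = L * (η / 4) + κ * (2 * S0) := by field_simp; ring
      _ ≤ L * (η / 4) + η / 8 * L := by linarith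
      _ ≤ η / 2 * L := by nlinarith
  calc _ ≤ η / 4 * L + η / 2 * L := (norm_add_le _ _).trans (add_le_add b1 b2)
    _ ≤ η * L := by nlinarith

end Pool.Agent.Lib.MP_663568_nt.Fib
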