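import Mathlib
import Pool.Agent.Lib.MP_663568_nt_h86.FSys

/-!
# The hypotheses of the induction hold for `(g ^ p, g ^ q)` on `G × G`
-/

set_option autoImplicit false
open Finset

namespace Pool.Agent.Lib.MP_663568_nt.Fib

open Katai

namespace Prd

/-! ### characters -/

section ch

variable {H : Type} [Group H]

/-- the scalar by which `z` acts -/
noncomputable def ch (F : H → ℂ) (x0 : H) (z : H) : ℂ := F (z * x0) / F x0

variable {F : H → ℂ} {x0 : H} (hx0 : F x0 ≠ 0)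

include hx0

lemma ch_spec {z : H} (hz : z ∈ scal F) (y : H) : F (z * y) = ch F x0 z * F y := by
  obtain ⟨c, _, h⟩ := hz
  rw [ch, h x0, mul_div_cancel_right₀ _ hx0, h y]

lemma ch_norm {z : H} (hz : z ∈ scal F) : ‖ch F x0 z‖ = 1 := by
  obtain ⟨c, hc, h⟩ := hz
  rw [ch, h x0, mul_div_cancel_right₀ _ hx0, hc]

lemma ch_mul {z z' : H} (hz : z ∈ scal F) (hz' : z' ∈ scal F) :
    ch F x0 (z * z') = ch F x0 z * ch F x0 z' := by
  rw [ch, mul_assoc, ch_spec hx0 hz, ch_spec hx0 hz', ← mul_assoc,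
    mul_div_cancel_right₀ _ hx0]

lemma ch_one : ch F x0 1 = 1 := by
  rw [ch, one_mul, div_self hx0]

lemma ch_pow {z : H} (hz : z ∈ scal F) (n : ℕ) : ch F x0 (z ^ n) = ch F x0 z ^ n := by
  induction n with
  | zero => rw [pow_zero, pow_zero, ch_one hx0]
  | succ n ih => rw [pow_succ, ch_mul hx0 ((scal F).pow_mem hz n) hz, ih, pow_succ]

lemma ch_of_fix {z : H} (h : F (z * x0) = F x0) : ch F x0 z = 1 := by
  rw [ch, h, div_self hx0]

end ch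

/-! ### one-parameter subgroups -/

section onep

variable {G : Type} [Group G]

lemma onep_zero {e : ℝ → G} (he : ∀ a b : ℝ, e (a + b) = e a * e b) : e 0 = 1 := by
  have h := he 0 0
  rw [add_zero] at h
  exact (mul_eq_left.1 h.symm)

lemma onep_nat {e : ℝ → G} (he : ∀ a b : ℝ, e (a + b) = e a * e b) (n : ℕ) (r : ℝ) :
    e ((n : ℝ) * r) = e r ^ n := by
  induction n with
  | zero => rw [Nat.cast_zero, zero_mul, pow_zero, onep_zero he]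
  | succ n ih => rw [Nat.cast_add, Nat.cast_one, add_mul, one_mul, he, ih, pow_succ]

lemma exists_ee_ne {m : ℤ} (hm : m ≠ 0) : ∃ r : ℝ, ee (m * r) ≠ 1 := by
  refine ⟨1 / (2 * m), ?_⟩
  intro h
  rw [ee_eq_one_iff] at h
  obtain ⟨n, hn⟩ := h
  have hm' : (m : ℝ) ≠ 0 := by exact_mod_cast hm
  have h2 : (1 : ℝ) = 2 * n := by
    rw [← hn]; field_simp
  have h3 : (1 : ℤ) = 2 * n := by exact_mod_cast h2
  omega

end onep

/-! ### the fields which do not involve characters -/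

section basic

variable {G : Type} [Group G] [TopologicalSpace G] [IsTopologicalGroup G]

lemma prod_anti {A : ℕ → Subgroup G} (hanti : Antitone A) : Antitone (prodA A) :=
  fun _ _ h => Subgroup.prod_mono (hanti h) (hanti h)

open scoped commutatorElement in
lemma prod_comm {A : ℕ → Subgroup G} (hcomm : ∀ i j, ⁅A i, A j⁆ ≤ A (i + j)) (i j : ℕ) :
    ⁅prodA A i, prodA A j⁆ ≤ prodA A (i + j) := by
  rw [Subgroup.commutator_le]
  rintro ⟨a, b⟩ ⟨ha, hb⟩ ⟨c, d⟩ ⟨hc, hd⟩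
  exact ⟨hcomm i j (Subgroup.commutator_mem_commutator ha hc),
    hcomm i j (Subgroup.commutator_mem_commutator hb hd)⟩

lemma prod_one {A : ℕ → Subgroup G} (h1 : A 1 = ⊤) : prodA A 1 = ⊤ := by
  rw [prodA, h1, Subgroup.top_prod_top]

lemma prod_cocomp {Γ : Subgroup G} (hC : Cocompact' Γ) : Cocompact' (Γ.prod Γ) := by
  obtain ⟨C, h1, h2⟩ := hC
  refine ⟨C ×ˢ C, h1.prod h1, ?_⟩
  rintro ⟨a, b⟩
  obtain ⟨c, hc, γ, hγ, rfl⟩ := h2 a
  obtain ⟨c', hc', γ', hγ', rfl⟩ := h2 b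
  exact ⟨(c, c'), ⟨hc, hc'⟩, (γ, γ'), ⟨hγ, hγ'⟩, rfl⟩

lemma mem_prodEs {es : ℕ → List (ℝ → G)} {s : ℕ} {e : ℝ → G × G} :
    e ∈ prodEs es s ↔ (∃ e' ∈ es s, e = fun r => (e' r, 1)) ∨
      (∃ e' ∈ es s, e = fun r => (1, e' r)) := by
  unfold prodEs
  rw [List.mem_append, List.mem_map, List.mem_map]
  constructor
  · rintro (⟨e', h, rfl⟩ | ⟨e', h, rfl⟩)
    · exact Or.inl ⟨e', h, rfl⟩
    · exact Or.inr ⟨e', h, rfl⟩
  · rintro (⟨e', h, rfl⟩ | ⟨e', h, rfl⟩)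
    · exact Or.inl ⟨e', h, rfl⟩
    · exact Or.inr ⟨e', h, rfl⟩

lemma prod_es {A : ℕ → Subgroup G} {Γ : Subgroup G} {es : ℕ → List (ℝ → G)}
    (hes : ∀ s, 1 ≤ s → ∀ e ∈ es s, IsOneP e ∧ e 1 ∈ Γ ∧ ∀ r, e r ∈ A s) (s : ℕ) (hs : 1 ≤ s) :
    ∀ e ∈ prodEs es s, IsOneP e ∧ e 1 ∈ Γ.prod Γ ∧ ∀ r, e r ∈ prodA A s := by
  intro e he
  rcases mem_prodEs.1 he with ⟨e', he', rfl⟩ | ⟨e', he', rfl⟩
  · obtain ⟨⟨h1, h2⟩, h3, h4⟩ := hes s hs e' he'
    refine ⟨⟨h1.prodMk continuous_const, fun a b => ?_⟩, ⟨h3, Γ.one_mem⟩,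
      fun r => ⟨h4 r, (A s).one_mem⟩⟩
    beta_reduce
    rw [h2, Prod.mk_mul_mk, one_mul]
  · obtain ⟨⟨h1, h2⟩, h3, h4⟩ := hes s hs e' he'
    refine ⟨⟨continuous_const.prodMk h1, fun a b => ?_⟩, ⟨Γ.one_mem, h3⟩,
      fun r => ⟨(A s).one_mem, h4 r⟩⟩
    beta_reduce
    rw [h2, Prod.mk_mul_mk, one_mul]

lemma mem_prodZs {p q : ℕ} {es : ℕ → List (ℝ → G)} {s : ℕ} {z : ℝ → G × G} :
    z ∈ prodZs p q es s ↔
      ∃ e ∈ es s, z = fun r => (e ((p : ℝ) ^ s * r), e ((q : ℝ) ^ s * r)) := by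
  unfold prodZs
  rw [List.mem_map]
  constructor
  · rintro ⟨e', h, rfl⟩; exact ⟨e', h, rfl⟩
  · rintro ⟨e', h, rfl⟩; exact ⟨e', h, rfl⟩

lemma prod_zs {A : ℕ → Subgroup G} {Γ : Subgroup G} {es : ℕ → List (ℝ → G)} (p q : ℕ)
    (hes : ∀ s, 1 ≤ s → ∀ e ∈ es s, IsOneP e ∧ e 1 ∈ Γ ∧ ∀ r, e r ∈ A s) (s : ℕ) (hs : 1 ≤ s) :
    ∀ z ∈ prodZs p q es s, IsOneP z ∧ ∀ r, z r ∈ prodA A s := by
  intro z hz
  obtain ⟨e, he, rfl⟩ := mem_prodZs.1 hz
  obtain ⟨⟨h1, h2⟩, h3, h4⟩ := hes s hs e he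
  refine ⟨⟨?_, fun a b => ?_⟩, fun r => ⟨h4 _, h4 _⟩⟩
  · exact (h1.comp (continuous_const.mul continuous_id)).prodMk
      (h1.comp (continuous_const.mul continuous_id))
  · beta_reduce
    rw [mul_add, mul_add, h2, h2, Prod.mk_mul_mk]

lemma prod_gen {A : ℕ → Subgroup G} {es : ℕ → List (ℝ → G)} (s : ℕ)
    (hgen : A s ≤ Subgroup.closure {x | ∃ e ∈ es s, ∃ r, x = e r} ⊔ A (s + 1)) :
    prodA A s ≤ Subgroup.closure {x | ∃ e ∈ prodEs es s, ∃ r, x = e r} ⊔ prodA A (s + 1) := by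
  set S := Subgroup.closure {x | ∃ e ∈ prodEs es s, ∃ r, x = e r} ⊔ prodA A (s + 1) with hS
  have hl : A s ≤ S.comap (MonoidHom.inl G G) := by
    refine hgen.trans (sup_le ?_ ?_)
    · rw [Subgroup.closure_le]
      rintro x ⟨e, he, r, rfl⟩
      refine (le_sup_left : _ ≤ S) (Subgroup.subset_closure ?_)
      exact ⟨fun r => (e r, 1), mem_prodEs.2 (Or.inl ⟨e, he, rfl⟩), r, rfl⟩
    · intro x hx
      refine (le_sup_right : _ ≤ S) ?_
      exact ⟨hx, (A (s + 1)).one_mem⟩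
  have hr : A s ≤ S.comap (MonoidHom.inr G G) := by
    refine hgen.trans (sup_le ?_ ?_)
    · rw [Subgroup.closure_le]
      rintro x ⟨e, he, r, rfl⟩
      refine (le_sup_left : _ ≤ S) (Subgroup.subset_closure ?_)
      exact ⟨fun r => (1, e r), mem_prodEs.2 (Or.inr ⟨e, he, rfl⟩), r, rfl⟩
    · intro x hx
      refine (le_sup_right : _ ≤ S) ?_
      exact ⟨(A (s + 1)).one_mem, hx⟩
  rintro ⟨a, b⟩ ⟨ha, hb⟩
  have h1 : ((a, 1) : G × G) ∈ S := hl ha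
  have h2 : ((1, b) : G × G) ∈ S := hr hb
  have h3 := S.mul_mem h1 h2
  rwa [Prod.mk_mul_mk, mul_one, one_mul] at h3

lemma prod_zfreq {A : ℕ → Subgroup G} {Γ : Subgroup G} {es : ℕ → List (ℝ → G)} (p q : ℕ)
    (s : ℕ) (z : ℝ → G × G) (hz : z ∈ prodZs p q es s) (F : G × G → ℂ)
    (hF : Lev (prodA A) (Γ.prod Γ) (prodEs es) s F) : ∃ m : ℤ, Freq z m F := by
  obtain ⟨e, he, rfl⟩ := mem_prodZs.1 hz
  obtain ⟨m, hm⟩ := hF.2.2 _ (mem_prodEs.2 (Or.inl ⟨e, he, rfl⟩))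
  obtain ⟨m', hm'⟩ := hF.2.2 _ (mem_prodEs.2 (Or.inr ⟨e, he, rfl⟩))
  refine ⟨p ^ s * m + q ^ s * m', fun r x => ?_⟩
  have h1 := hm ((p : ℝ) ^ s * r) (((1, e ((q : ℝ) ^ s * r)) : G × G) * x)
  have h2 := hm' ((q : ℝ) ^ s * r) x
  beta_reduce at h1 h2 ⊢
  have h3 : ((e ((p : ℝ) ^ s * r), 1) : G × G) * (1, e ((q : ℝ) ^ s * r)) =
      (e ((p : ℝ) ^ s * r), e ((q : ℝ) ^ s * r)) := by
    rw [Prod.mk_mul_mk, mul_one, one_mul]
  rw [h2, ← mul_assoc, h3] at h1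
  rw [h1, ← mul_assoc, ← ee_add]
  congr 2
  push_cast
  ring

end basic

/-! ### the character `delta` -/

section delta

variable {G : Type} [Group G] [TopologicalSpace G] [IsTopologicalGroup G]

/-- the character of `G` -/
noncomputable def delta (F : G × G → ℂ) (x0 : G × G) (P Q : ℕ) (c : G) : ℂ :=
  ch F x0 (c, 1) ^ P * ch F x0 (1, c) ^ Q

lemma delta_cont {F : G × G → ℂ} (hF : Continuous F) (x0 : G × G) (P Q : ℕ) :
    Continuous (delta F x0 P Q) := by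
  unfold delta ch
  have h1 : Continuous (fun c : G => F (((c, 1) : G × G) * x0)) :=
    hF.comp ((continuous_id.prodMk continuous_const).mul continuous_const)
  have h2 : Continuous (fun c : G => F (((1, c) : G × G) * x0)) :=
    hF.comp ((continuous_const.prodMk continuous_id).mul continuous_const)
  exact ((h1.div_const _).pow P).mul ((h2.div_const _).pow Q)

variable {A : ℕ → Subgroup G} {s : ℕ} {F : G × G → ℂ} {x0 : G × G}
  (hx0 : F x0 ≠ 0) (hscal : prodA A s ≤ scal F)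

include hscal in
lemma left_mem {c : G} (hc : c ∈ A s) : ((c, 1) : G × G) ∈ scal F :=
  hscal ⟨hc, (A s).one_mem⟩

include hscal in
lemma right_mem {c : G} (hc : c ∈ A s) : ((1, c) : G × G) ∈ scal F :=
  hscal ⟨(A s).one_mem, hc⟩

include hx0 hscal

lemma ch_left_mul {c c' : G} (hc : c ∈ A s) (hc' : c' ∈ A s) :
    ch F x0 (c * c', 1) = ch F x0 (c, 1) * ch F x0 (c', 1) := by
  rw [← ch_mul hx0 (left_mem hscal hc) (left_mem hscal hc'), Prod.mk_mul_mk, mul_one]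

lemma ch_right_mul {c c' : G} (hc : c ∈ A s) (hc' : c' ∈ A s) :
    ch F x0 (1, c * c') = ch F x0 (1, c) * ch F x0 (1, c') := by
  rw [← ch_mul hx0 (right_mem hscal hc) (right_mem hscal hc'), Prod.mk_mul_mk, mul_one]

lemma delta_mul (P Q : ℕ) {c c' : G} (hc : c ∈ A s) (hc' : c' ∈ A s) :
    delta F x0 P Q (c * c') = delta F x0 P Q c * delta F x0 P Q c' := by
  unfold delta
  rw [ch_left_mul hx0 hscal hc hc', ch_right_mul hx0 hscal hc hc', mul_pow, mul_pow]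
  ring

lemma delta_norm (P Q : ℕ) {c : G} (hc : c ∈ A s) : ‖delta F x0 P Q c‖ = 1 := by
  unfold delta
  rw [norm_mul, norm_pow, norm_pow, ch_norm hx0 (left_mem hscal hc),
    ch_norm hx0 (right_mem hscal hc)]
  simp

lemma delta_pair (P Q : ℕ) {c : G} (hc : c ∈ A s) :
    ch F x0 (c ^ P, c ^ Q) = delta F x0 P Q c := by
  have h1 : ((c ^ P, c ^ Q) : G × G) = (c, 1) ^ P * (1, c) ^ Q := by
    rw [Prod.pow_mk, Prod.pow_mk, Prod.mk_mul_mk, one_pow, one_pow, mul_one, one_mul]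
  rw [h1, ch_mul hx0 ((scal F).pow_mem (left_mem hscal hc) P)
    ((scal F).pow_mem (right_mem hscal hc) Q), ch_pow hx0 (left_mem hscal hc),
    ch_pow hx0 (right_mem hscal hc), delta]

lemma delta_e (p q : ℕ) {e : ℝ → G} (he : ∀ a b : ℝ, e (a + b) = e a * e b)
    (heA : ∀ r, e r ∈ A s) (m : ℤ)
    (hfreq : Freq (fun r => ((e ((p : ℝ) ^ s * r), e ((q : ℝ) ^ s * r)) : G × G)) m F) (r : ℝ) :
    delta F x0 (p ^ s) (q ^ s) (e r) = ee (m * r) := by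
  rw [← delta_pair hx0 hscal _ _ (heA r), ch]
  have h1 := hfreq r x0
  beta_reduce at h1
  have h2 : e ((p : ℝ) ^ s * r) = e r ^ (p ^ s) := by
    rw [← onep_nat he]; push_cast; rfl
  have h3 : e ((q : ℝ) ^ s * r) = e r ^ (q ^ s) := by
    rw [← onep_nat he]; push_cast; rfl
  rw [h2, h3] at h1
  rw [h1, mul_div_cancel_right₀ _ hx0]

end delta

/-! ### bimultiplicative forms -/

section bim

variable {G : Type} [Group G] {A : ℕ → Subgroup G} (hcomm : ∀ i j, ⁅A i, A j⁆ ≤ A (i + j))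
  (h1 : A 1 = ⊤) {s : ℕ} {ψ : G → ℂ}
  (hmul : ∀ c ∈ A (s + 1), ∀ c' ∈ A (s + 1), ψ (c * c') = ψ c * ψ c')
  (htriv : ∀ c ∈ A (s + 2), ψ c = 1)

include hcomm h1 hmul htriv

lemma bim_left (a b : G) {w : G} (hw : w ∈ A s) :
    ψ (a * b * w * (a * b)⁻¹ * w⁻¹) = ψ (a * w * a⁻¹ * w⁻¹) * ψ (b * w * b⁻¹ * w⁻¹) := by
  have e1 : a * b * w * (a * b)⁻¹ * w⁻¹ =
      (a * (b * w * b⁻¹ * w⁻¹) * a⁻¹ * (b * w * b⁻¹ * w⁻¹)⁻¹) *
        ((b * w * b⁻¹ * w⁻¹) * (a * w * a⁻¹ * w⁻¹)) := by group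
  have m1 := comm_left A hcomm h1 a hw
  have m2 := comm_left A hcomm h1 b hw
  have m3 := comm_left A hcomm h1 a m2
  have m3' : a * (b * w * b⁻¹ * w⁻¹) * a⁻¹ * (b * w * b⁻¹ * w⁻¹)⁻¹ ∈ A (s + 1) := by
    have h2 := (A (s + 1)).mul_mem m2 ((A (s + 1)).inv_mem m2)
    have h3 : a * (b * w * b⁻¹ * w⁻¹) * a⁻¹ ∈ A (s + 1) := by
      have h4 : a * (b * w * b⁻¹ * w⁻¹) * a⁻¹ =
          (a * b * w * (a * b)⁻¹ * w⁻¹) * (a * w * a⁻¹ * w⁻¹)⁻¹ := by group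
      rw [h4]
      exact (A (s + 1)).mul_mem (comm_left A hcomm h1 (a * b) hw) ((A (s + 1)).inv_mem m1)
    exact (A (s + 1)).mul_mem h3 ((A (s + 1)).inv_mem m2)
  rw [e1, hmul _ m3' _ ((A (s + 1)).mul_mem m2 m1), htriv _ m3, one_mul, hmul _ m2 _ m1, mul_comm]

lemma bim_right (a : G) {w w' : G} (hw : w ∈ A s) (hw' : w' ∈ A s) :
    ψ (a * (w * w') * a⁻¹ * (w * w')⁻¹) = ψ (a * w * a⁻¹ * w⁻¹) * ψ (a * w' * a⁻¹ * w'⁻¹) := by
  have m1 := comm_left A hcomm h1 a hw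
  have m2 := comm_left A hcomm h1 a hw'
  have m3 := comm_left A hcomm h1 w m2
  have e1 : a * (w * w') * a⁻¹ * (w * w')⁻¹ =
      (a * w * a⁻¹ * w⁻¹) * ((w * (a * w' * a⁻¹ * w'⁻¹) * w⁻¹ * (a * w' * a⁻¹ * w'⁻¹)⁻¹) *
        (a * w' * a⁻¹ * w'⁻¹)) := by group
  have m3' : w * (a * w' * a⁻¹ * w'⁻¹) * w⁻¹ * (a * w' * a⁻¹ * w'⁻¹)⁻¹ ∈ A (s + 1) := by
    have h4 : w * (a * w' * a⁻¹ * w'⁻¹) * w⁻¹ * (a * w' * a⁻¹ * w'⁻¹)⁻¹ =
        (a * w * a⁻¹ * w⁻¹)⁻¹ * (a * (w * w') * a⁻¹ * (w * w')⁻¹) *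
          (a * w' * a⁻¹ * w'⁻¹)⁻¹ := by group
    rw [h4]
    exact (A (s + 1)).mul_mem ((A (s + 1)).mul_mem ((A (s + 1)).inv_mem m1)
      (comm_left A hcomm h1 a ((A s).mul_mem hw hw'))) ((A (s + 1)).inv_mem m2)
  rw [e1, hmul _ m1 _ ((A (s + 1)).mul_mem m3' m2), hmul _ m3' _ m2, htriv _ m3, one_mul]

lemma bim_pow_left (a : G) {w : G} (hw : w ∈ A s) (n : ℕ) :
    ψ (a ^ n * w * (a ^ n)⁻¹ * w⁻¹) = ψ (a * w * a⁻¹ * w⁻¹) ^ n := by
  induction n with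
  | zero =>
    rw [pow_zero, pow_zero]
    have : (1 : G) * w * 1⁻¹ * w⁻¹ = 1 := by group
    rw [this]
    exact htriv 1 (A (s + 2)).one_mem
  | succ n ih =>
    rw [pow_succ, bim_left hcomm h1 hmul htriv _ _ hw, ih, pow_succ]

lemma bim_pow_right (a : G) {w : G} (hw : w ∈ A s) (n : ℕ) :
    ψ (a * w ^ n * a⁻¹ * (w ^ n)⁻¹) = ψ (a * w * a⁻¹ * w⁻¹) ^ n := by
  induction n with
  | zero =>
    rw [pow_zero, pow_zero]
    have : a * 1 * a⁻¹ * (1 : G)⁻¹ = 1 := by group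
    rw [this]
    exact htriv 1 (A (s + 2)).one_mem
  | succ n ih =>
    rw [pow_succ, bim_right hcomm h1 hmul htriv _ ((A s).pow_mem hw n) hw, ih, pow_succ]

/-- the elements `a` with trivial form on `w` -/
def leftKer {w : G} (hw : w ∈ A s) : Subgroup G where
  carrier := {a | ψ (a * w * a⁻¹ * w⁻¹) = 1}
  mul_mem' := by
    intro a b ha hb
    show ψ _ = 1
    rw [bim_left hcomm h1 hmul htriv a b hw, ha, hb, mul_one]
  one_mem' := by
    have := bim_pow_left hcomm h1 hmul htriv 1 hw 0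
    rwa [pow_zero, pow_zero] at this
  inv_mem' := by
    intro a ha
    have h2 := bim_left hcomm h1 hmul htriv a⁻¹ a hw
    have h3 : ψ (a * w * a⁻¹ * w⁻¹) = 1 := ha
    rw [h3, mul_one, inv_mul_cancel] at h2
    show ψ _ = 1
    rw [← h2]
    have := bim_pow_left hcomm h1 hmul htriv 1 hw 0
    rwa [pow_zero, pow_zero] at this

/-- the elements `w` of `A s` with trivial form with `a` -/
def rightKer (a : G) : Subgroup G where
  carrier := {w | w ∈ A s ∧ ψ (a * w * a⁻¹ * w⁻¹) = 1}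
  mul_mem' := by
    rintro w w' ⟨hw, h2⟩ ⟨hw', h3⟩
    refine ⟨(A s).mul_mem hw hw', ?_⟩
    rw [bim_right hcomm h1 hmul htriv a hw hw', h2, h3, mul_one]
  one_mem' := by
    refine ⟨(A s).one_mem, ?_⟩
    have := bim_pow_right hcomm h1 hmul htriv a (A s).one_mem 0
    rwa [pow_zero, pow_zero] at this
  inv_mem' := by
    rintro w ⟨hw, h2⟩
    refine ⟨(A s).inv_mem hw, ?_⟩
    have h3 := bim_right hcomm h1 hmul htriv a ((A s).inv_mem hw) hw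
    rw [h2, mul_one, inv_mul_cancel] at h3
    rw [← h3]
    have := bim_pow_right hcomm h1 hmul htriv a (A s).one_mem 0
    rwa [pow_zero, pow_zero] at this

end bim

/-! ### the two main fields -/

section main

variable {G : Type} [Group G] [TopologicalSpace G] [IsTopologicalGroup G]

lemma circ {Γ : Subgroup G} {g0 : G}
    (herg : ∀ χ : G →* Circle, Continuous χ → (∀ γ ∈ Γ, χ γ = 1) → χ g0 = 1 → χ = 1)
    (φ : G → ℂ) (hn : ∀ a, ‖φ a‖ = 1) (hm : ∀ a b, φ (a * b) = φ a * φ b) (hc : Continuous φ)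
    (hΓ : ∀ γ ∈ Γ, φ γ = 1) (hg : φ g0 = 1) (a : G) : φ a = 1 := by
  let χ : G →* Circle := MonoidHom.mk'
    (fun a => (⟨φ a, mem_sphere_zero_iff_norm.2 (hn a)⟩ : Circle))
    (fun a b => Subtype.ext (hm a b))
  have h := herg χ (hc.subtype_mk _) (fun γ hγ => Subtype.ext (hΓ γ hγ)) (Subtype.ext hg)
  have h2 := congrArg (fun f : G →* Circle => ((f a : Circle) : ℂ)) h
  exact h2

lemma onep_int {e : ℝ → G} (he : ∀ a b : ℝ, e (a + b) = e a * e b) (n : ℤ) :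
    e ((n : ℤ) : ℝ) = e 1 ^ n := by
  induction n using Int.induction_on with
  | zero => rw [Int.cast_zero, zpow_zero, onep_zero he]
  | succ n ih => rw [Int.cast_add, Int.cast_one, he, ih, zpow_add_one]
  | pred n ih =>
    have h := he (((-(n : ℤ) : ℤ) : ℝ) - 1) 1
    rw [sub_add_cancel, ih] at h
    rw [Int.cast_sub, Int.cast_one, zpow_sub_one, h, mul_inv_cancel_right]

variable {A : ℕ → Subgroup G} (hanti : Antitone A)
    (hcomm : ∀ i j, ⁅A i, A j⁆ ≤ A (i + j)) (h1 : A 1 = ⊤)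
    (hlow : ∀ s, 1 ≤ s → A (s + 1) ≤ ⁅(⊤ : Subgroup G), A s⁆)
    {Γ : Subgroup G} {es : ℕ → List (ℝ → G)}
    (hes : ∀ s, 1 ≤ s → ∀ e ∈ es s, IsOneP e ∧ e 1 ∈ Γ ∧ ∀ r, e r ∈ A s)
    (hgen : ∀ s, 1 ≤ s → A s ≤ Subgroup.closure {x | ∃ e ∈ es s, ∃ r, x = e r} ⊔ A (s + 1))
    {g0 : G} (herg : ∀ χ : G →* Circle, Continuous χ → (∀ γ ∈ Γ, χ γ = 1) → χ g0 = 1 → χ = 1)
    (p q : ℕ)

include hcomm h1 in
lemma delta_gamma {s : ℕ} {F : G × G → ℂ} {x0 : G × G} (hx0 : F x0 ≠ 0)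
    (hF : Lev (prodA A) (Γ.prod Γ) (prodEs es) s F) (P Q : ℕ) {c : G} (hc : c ∈ Γ)
    (hcs : c ∈ A s) : delta F x0 P Q c = 1 := by
  have e1 : ch F x0 (c, 1) = 1 := by
    apply ch_of_fix hx0
    exact gamma_act (prodA A) (prod_comm hcomm) (prod_one h1) hF.1 hF.2.1
      (γ := (c, 1)) ⟨hc, Γ.one_mem⟩ ⟨hcs, (A s).one_mem⟩ x0
  have e2 : ch F x0 (1, c) = 1 := by
    apply ch_of_fix hx0
    exact gamma_act (prodA A) (prod_comm hcomm) (prod_one h1) hF.1 hF.2.1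
      (γ := (1, c)) ⟨Γ.one_mem, hc⟩ ⟨(A s).one_mem, hcs⟩ x0
  rw [delta, e1, e2, one_pow, one_pow, mul_one]

lemma ch_left_triv {s : ℕ} {F : G × G → ℂ} {x0 : G × G} (hx0 : F x0 ≠ 0)
    (hF : Lev (prodA A) (Γ.prod Γ) (prodEs es) s F) {c : G} (hc : c ∈ A (s + 1)) :
    ch F x0 (c, 1) = 1 :=
  ch_of_fix hx0 (hF.2.1 _ ⟨hc, (A (s + 1)).one_mem⟩ x0)

lemma ch_right_triv {s : ℕ} {F : G × G → ℂ} {x0 : G × G} (hx0 : F x0 ≠ 0)
    (hF : Lev (prodA A) (Γ.prod Γ) (prodEs es) s F) {c : G} (hc : c ∈ A (s + 1)) :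
    ch F x0 (1, c) = 1 :=
  ch_of_fix hx0 (hF.2.1 _ ⟨(A (s + 1)).one_mem, hc⟩ x0)

lemma delta_triv {s : ℕ} {F : G × G → ℂ} {x0 : G × G} (hx0 : F x0 ≠ 0)
    (hF : Lev (prodA A) (Γ.prod Γ) (prodEs es) s F) (P Q : ℕ) {c : G} (hc : c ∈ A (s + 1)) :
    delta F x0 P Q c = 1 := by
  rw [delta, ch_left_triv hx0 hF hc, ch_right_triv hx0 hF hc, one_pow, one_pow, mul_one]

include hcomm h1 hes hgen herg in
theorem prod_alpha (F : G × G → ℂ) (hF : Lev (prodA A) (Γ.prod Γ) (prodEs es) 1 F)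
    (hgood : Good (prodZs p q es) 1 F) (hne : ∃ x, F x ≠ 0) :
    ∃ x, F ((g0 ^ p, g0 ^ q) * x) ≠ F x := by
  by_contra hcon
  push Not at hcon
  obtain ⟨x0, hx0⟩ := hne
  have hscal : prodA A 1 ≤ scal F := fun z hz =>
    lev_char (prodA A) (Γ.prod Γ) (prodEs es) 1 (prod_gen 1 (hgen 1 le_rfl)) F hF z hz
  have htop : ∀ c : G, c ∈ A 1 := fun c => by rw [h1]; trivial
  have h2 := circ herg (delta F x0 (p ^ 1) (q ^ 1))
    (fun a => delta_norm hx0 hscal _ _ (htop a))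
    (fun a b => delta_mul hx0 hscal _ _ (htop a) (htop b))
    (delta_cont hF.1.1 x0 _ _)
    (fun γ hγ => delta_gamma hcomm h1 hx0 hF _ _ hγ (htop γ))
    (by
      rw [← delta_pair hx0 hscal _ _ (htop g0), pow_one, pow_one]
      exact ch_of_fix hx0 (hcon x0))
  obtain ⟨z, hz, m, hm, hfreq⟩ := hgood
  obtain ⟨e, he, rfl⟩ := mem_prodZs.1 hz
  obtain ⟨⟨he1, he2⟩, he3, he4⟩ := hes 1 le_rfl e he
  obtain ⟨r, hr⟩ := exists_ee_ne hm
  apply hr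
  rw [← delta_e hx0 hscal p q he2 he4 m hfreq r]
  exact h2 (e r)

include hanti hcomm h1 hlow hes hgen herg in
/-- the core: a continuous character of `A (s + 1)` which is trivial on `A (s + 2)`, on
`Γ ∩ A (s + 1)` and on the commutators `[g0, e r]` is trivial -/
theorem core (s : ℕ) (hs : 1 ≤ s) (ψ : G → ℂ) (hcont : Continuous ψ)
    (hnorm : ∀ c ∈ A (s + 1), ‖ψ c‖ = 1)
    (hmul : ∀ c ∈ A (s + 1), ∀ c' ∈ A (s + 1), ψ (c * c') = ψ c * ψ c')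
    (htriv : ∀ c ∈ A (s + 2), ψ c = 1) (hgam : ∀ c ∈ Γ, c ∈ A (s + 1) → ψ c = 1)
    (st1 : ∀ e ∈ es s, ∀ r : ℝ, ψ (g0 * e r * g0⁻¹ * (e r)⁻¹) = 1) :
    ∀ c ∈ A (s + 1), ψ c = 1 := by
  -- step 2
  have st2 : ∀ e ∈ es s, ∀ a : G, ψ (a * e 1 * a⁻¹ * (e 1)⁻¹) = 1 := by
    intro e he a
    obtain ⟨⟨he1, he2⟩, he3, he4⟩ := hes s hs e he
    refine circ herg (fun a => ψ (a * e 1 * a⁻¹ * (e 1)⁻¹)) (fun a => ?_) (fun a b => ?_) ?_
      (fun γ hγ => ?_) (st1 e he 1) a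
    · exact hnorm _ (comm_left A hcomm h1 a (he4 1))
    · exact bim_left hcomm h1 hmul htriv a b (he4 1)
    · exact hcont.comp (((continuous_id.mul continuous_const).mul continuous_inv).mul
        continuous_const)
    · refine hgam _ ?_ (comm_left A hcomm h1 γ (he4 1))
      exact Γ.mul_mem (Γ.mul_mem (Γ.mul_mem hγ he3) (Γ.inv_mem hγ)) (Γ.inv_mem he3)
  -- step 3
  have st3 : ∀ e' ∈ es 1, ∀ e ∈ es s, ∀ ρ r : ℝ, ψ (e' ρ * e r * (e' ρ)⁻¹ * (e r)⁻¹) = 1 := by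
    intro e' he' e he ρ r
    obtain ⟨⟨he1, he2⟩, he3, he4⟩ := hes s hs e he
    obtain ⟨⟨he1', he2'⟩, he3', he4'⟩ := hes 1 le_rfl e' he'
    have hc1 : Continuous (fun r : ℝ => ψ (e' ρ * e r * (e' ρ)⁻¹ * (e r)⁻¹)) :=
      hcont.comp (((continuous_const.mul he1).mul continuous_const).mul he1.inv)
    have hc2 : Continuous (fun _ : ℝ => (1 : ℂ)) := continuous_const
    have heq : (fun r : ℝ => ψ (e' ρ * e r * (e' ρ)⁻¹ * (e r)⁻¹)) = fun _ => 1 := by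
      refine Continuous.ext_on Rat.denseRange_cast hc1 hc2 ?_
      rintro _ ⟨t, rfl⟩
      beta_reduce
      have hn : (t.den : ℝ) ≠ 0 := by exact_mod_cast t.den_nz
      have e1 : e' ρ = e' (ρ / t.den) ^ t.den := by
        rw [← onep_nat he2', mul_div_cancel₀ _ hn]
      have e2 : e (t : ℝ) ^ t.den = e 1 ^ t.num := by
        rw [← onep_nat he2, ← onep_int he2]
        congr 1
        have h3 : (t.den : ℝ) * (t : ℝ) = (t.num : ℝ) := by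
          exact_mod_cast Rat.den_mul_eq_num t
        exact h3
      rw [e1, bim_pow_left hcomm h1 hmul htriv _ (he4 _),
        ← bim_pow_right hcomm h1 hmul htriv _ (he4 _), e2]
      have h4 : e 1 ∈ rightKer hcomm h1 hmul htriv (e' (ρ / t.den)) := ⟨he4 1, st2 e he _⟩
      have h3 : e 1 ^ t.num ∈ rightKer hcomm h1 hmul htriv (e' (ρ / t.den)) :=
        Subgroup.zpow_mem _ h4 _
      exact h3.2
    exact congrFun heq r
  -- step 4
  have st4 : ∀ e ∈ es s, ∀ (r : ℝ) (a : G), ψ (a * e r * a⁻¹ * (e r)⁻¹) = 1 := by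
    intro e he r a
    obtain ⟨⟨he1, he2⟩, he3, he4⟩ := hes s hs e he
    have h2 : A 1 ≤ leftKer hcomm h1 hmul htriv (he4 r) := by
      refine (hgen 1 le_rfl).trans (sup_le ?_ ?_)
      · rw [Subgroup.closure_le]
        rintro x ⟨e', he', ρ, rfl⟩
        exact st3 e' he' e he ρ r
      · intro x hx
        refine htriv _ ?_
        have := comm_mem A hcomm hx (he4 r)
        rwa [show 1 + 1 + s = s + 2 by omega] at this
    exact h2 (by rw [h1]; trivial)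
  -- step 5
  have st5 : ∀ (a w : G), w ∈ A s → ψ (a * w * a⁻¹ * w⁻¹) = 1 := by
    intro a w hw
    have h2 : A s ≤ rightKer hcomm h1 hmul htriv a := by
      refine (hgen s hs).trans (sup_le ?_ ?_)
      · rw [Subgroup.closure_le]
        rintro x ⟨e, he, r, rfl⟩
        exact ⟨(hes s hs e he).2.2 r, st4 e he r a⟩
      · intro x hx
        exact ⟨hanti (Nat.le_succ s) hx, htriv _ (comm_left A hcomm h1 a hx)⟩
    exact (h2 hw).2
  -- step 6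
  let K : Subgroup G :=
    { carrier := {c | c ∈ A (s + 1) ∧ ψ c = 1}
      mul_mem' := by
        rintro a b ⟨ha, ha'⟩ ⟨hb, hb'⟩
        exact ⟨(A (s + 1)).mul_mem ha hb, by rw [hmul a ha b hb, ha', hb', mul_one]⟩
      one_mem' := ⟨(A (s + 1)).one_mem, htriv 1 (A (s + 2)).one_mem⟩
      inv_mem' := by
        rintro a ⟨ha, ha'⟩
        refine ⟨(A (s + 1)).inv_mem ha, ?_⟩
        have h2 := hmul a ha a⁻¹ ((A (s + 1)).inv_mem ha)
        rw [mul_inv_cancel, ha', one_mul, htriv 1 (A (s + 2)).one_mem] at h2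
        exact h2.symm }
  have st6 : A (s + 1) ≤ K := by
    refine (hlow s hs).trans ?_
    rw [Subgroup.commutator_le]
    intro a _ w hw
    exact ⟨comm_left A hcomm h1 a hw, st5 a w hw⟩
  exact fun c hc => (st6 hc).2

include hanti hcomm h1 hlow hes hgen herg in
theorem prod_beta (s : ℕ) (hs : 1 ≤ s) (F : G × G → ℂ)
    (hF : Lev (prodA A) (Γ.prod Γ) (prodEs es) (s + 1) F)
    (hgood : Good (prodZs p q es) (s + 1) F) (hne : ∃ x, F x ≠ 0) :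
    ∃ z ∈ prodZs p q es s, ∃ r x,
      F ((g0 ^ p, g0 ^ q) * z r * (g0 ^ p, g0 ^ q)⁻¹ * (z r)⁻¹ * x) ≠ F x := by
  by_contra hcon
  push Not at hcon
  obtain ⟨x0, hx0⟩ := hne
  have hscal : prodA A (s + 1) ≤ scal F := fun z hz =>
    lev_char (prodA A) (Γ.prod Γ) (prodEs es) (s + 1) (prod_gen (s + 1) (hgen (s + 1) (by omega)))
      F hF z hz
  set ψ := delta F x0 (p ^ (s + 1)) (q ^ (s + 1)) with hψ
  have hmul : ∀ c ∈ A (s + 1), ∀ c' ∈ A (s + 1), ψ (c * c') = ψ c * ψ c' :=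
    fun c hc c' hc' => delta_mul hx0 hscal _ _ hc hc'
  have htriv : ∀ c ∈ A (s + 2), ψ c = 1 := fun c hc => delta_triv hx0 hF _ _ hc
  have hcont : Continuous ψ := delta_cont hF.1.1 x0 _ _
  -- step 1
  have st1 : ∀ e ∈ es s, ∀ r : ℝ, ψ (g0 * e r * g0⁻¹ * (e r)⁻¹) = 1 := by
    intro e he r
    obtain ⟨⟨he1, he2⟩, he3, he4⟩ := hes s hs e he
    have hc := hcon _ (mem_prodZs.2 ⟨e, he, rfl⟩) r x0
    beta_reduce at hc
    have hp' : e ((p : ℝ) ^ s * r) = e r ^ (p ^ s) := by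
      rw [← onep_nat he2]; push_cast; rfl
    have hq' : e ((q : ℝ) ^ s * r) = e r ^ (q ^ s) := by
      rw [← onep_nat he2]; push_cast; rfl
    rw [hp', hq'] at hc
    have hprod : (((g0 ^ p, g0 ^ q) : G × G) * (e r ^ (p ^ s), e r ^ (q ^ s)) *
        (g0 ^ p, g0 ^ q)⁻¹ * (e r ^ (p ^ s), e r ^ (q ^ s))⁻¹) =
        ((g0 ^ p * e r ^ (p ^ s) * (g0 ^ p)⁻¹ * (e r ^ (p ^ s))⁻¹, 1) : G × G) *
        (1, g0 ^ q * e r ^ (q ^ s) * (g0 ^ q)⁻¹ * (e r ^ (q ^ s))⁻¹) := by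
      simp only [Prod.mk_mul_mk, Prod.inv_mk, mul_one, one_mul]
    rw [hprod] at hc
    have m1 : g0 ^ p * e r ^ (p ^ s) * (g0 ^ p)⁻¹ * (e r ^ (p ^ s))⁻¹ ∈ A (s + 1) :=
      comm_left A hcomm h1 _ ((A s).pow_mem (he4 r) _)
    have m2 : g0 ^ q * e r ^ (q ^ s) * (g0 ^ q)⁻¹ * (e r ^ (q ^ s))⁻¹ ∈ A (s + 1) :=
      comm_left A hcomm h1 _ ((A s).pow_mem (he4 r) _)
    have hc2 := ch_of_fix hx0 hc
    rw [ch_mul hx0 (left_mem hscal m1) (right_mem hscal m2)] at hc2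
    have l1 : ch F x0 (g0 ^ p * e r ^ (p ^ s) * (g0 ^ p)⁻¹ * (e r ^ (p ^ s))⁻¹, 1) =
        ch F x0 (g0 * e r * g0⁻¹ * (e r)⁻¹, 1) ^ (p ^ (s + 1)) := by
      have hm1 : ∀ c ∈ A (s + 1), ∀ c' ∈ A (s + 1),
          (fun c => ch F x0 (c, 1)) (c * c') =
            (fun c => ch F x0 (c, 1)) c * (fun c => ch F x0 (c, 1)) c' :=
        fun c hc c' hc' => ch_left_mul hx0 hscal hc hc'
      have ht1 : ∀ c ∈ A (s + 2), (fun c => ch F x0 (c, 1)) c = 1 :=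
        fun c hc => ch_left_triv hx0 hF hc
      have a1 := bim_pow_left hcomm h1 hm1 ht1 g0 ((A s).pow_mem (he4 r) (p ^ s)) p
      have a2 := bim_pow_right hcomm h1 hm1 ht1 g0 (he4 r) (p ^ s)
      beta_reduce at a1 a2
      rw [a1, a2, ← pow_mul, pow_succ]
    have l2 : ch F x0 (1, g0 ^ q * e r ^ (q ^ s) * (g0 ^ q)⁻¹ * (e r ^ (q ^ s))⁻¹) =
        ch F x0 (1, g0 * e r * g0⁻¹ * (e r)⁻¹) ^ (q ^ (s + 1)) := by
      have hm1 : ∀ c ∈ A (s + 1), ∀ c' ∈ A (s + 1),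
          (fun c => ch F x0 (1, c)) (c * c') =
            (fun c => ch F x0 (1, c)) c * (fun c => ch F x0 (1, c)) c' :=
        fun c hc c' hc' => ch_right_mul hx0 hscal hc hc'
      have ht1 : ∀ c ∈ A (s + 2), (fun c => ch F x0 (1, c)) c = 1 :=
        fun c hc => ch_right_triv hx0 hF hc
      have a1 := bim_pow_left hcomm h1 hm1 ht1 g0 ((A s).pow_mem (he4 r) (q ^ s)) q
      have a2 := bim_pow_right hcomm h1 hm1 ht1 g0 (he4 r) (q ^ s)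
      beta_reduce at a1 a2
      rw [a1, a2, ← pow_mul, pow_succ]
    rw [l1, l2] at hc2
    exact hc2
  have st6 := core hanti hcomm h1 hlow hes hgen herg s hs ψ hcont
    (fun c hc => delta_norm hx0 hscal _ _ hc) hmul htriv
    (fun c hc hc' => delta_gamma hcomm h1 hx0 hF _ _ hc hc') st1
  obtain ⟨z, hz, m, hm, hfreq⟩ := hgood
  obtain ⟨e, he, rfl⟩ := mem_prodZs.1 hz
  obtain ⟨⟨he1, he2⟩, he3, he4⟩ := hes (s + 1) (by omega) e he
  obtain ⟨r, hr⟩ := exists_ee_ne hm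
  apply hr
  rw [← delta_e hx0 hscal p q he2 he4 m hfreq r]
  exact st6 _ (he4 r)

end main

end Prd

/-- M3 (file FProd.lean) -/
theorem sys_prod {G : Type} [Group G] [TopologicalSpace G] [IsTopologicalGroup G]
    (A : ℕ → Subgroup G) (hanti : Antitone A)
    (hcomm : ∀ i j, ⁅A i, A j⁆ ≤ A (i + j)) (h1 : A 1 = ⊤)
    (hlow : ∀ s, 1 ≤ s → A (s + 1) ≤ ⁅(⊤ : Subgroup G), A s⁆)
    (Γ : Subgroup G) (hC : Cocompact' Γ) (es : ℕ → List (ℝ → G))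
    (hes : ∀ s, 1 ≤ s → ∀ e ∈ es s, IsOneP e ∧ e 1 ∈ Γ ∧ ∀ r, e r ∈ A s)
    (hgen : ∀ s, 1 ≤ s → A s ≤ Subgroup.closure {x | ∃ e ∈ es s, ∃ r, x = e r} ⊔ A (s + 1))
    (g0 : G) (herg : ∀ χ : G →* Circle, Continuous χ → (∀ γ ∈ Γ, χ γ = 1) → χ g0 = 1 → χ = 1)
    (p q : ℕ) (hp : 0 < p) (hq : 0 < q) :
    Sys (prodA A) (Γ.prod Γ) ((g0 ^ p, g0 ^ q) : G × G) (prodEs es) (prodZs p q es) where
  anti := Prd.prod_anti hanti
  comm := Prd.prod_comm hcomm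
  one := Prd.prod_one h1
  cocomp := Prd.prod_cocomp hC
  es_onep := fun s hs => Prd.prod_es hes s hs
  zs_onep := fun s hs => Prd.prod_zs p q hes s hs
  gen := fun s hs => Prd.prod_gen s (hgen s hs)
  zfreq := fun s _ z hz F hF => Prd.prod_zfreq p q s z hz F hF
  alpha := fun F hF hg hne => Prd.prod_alpha hcomm h1 hes hgen herg p q F hF hg hne
  beta := fun s hs F hF hg hne => Prd.prod_beta hanti hcomm h1 hlow hes hgen herg p q s hs F hF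
    hg hne

end Pool.Agent.Lib.MP_663568_nt.Fib
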