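import Mathlib
import Pool.Agent.Lib.MP_663568_nt_h86.FProd
import Pool.Agent.Lib.MP_663568_nt_h86.FUnif

/-!
# The hypotheses of the induction hold for `(a ^ p, b ^ q)` on `G × G`
-/

set_option autoImplicit false
open Finset

namespace Pool.Agent.Lib.MP_663568_nt.Fib

open Katai

namespace Pr2

open Prd

lemma ee_nat (n : ℕ) (x : ℝ) : ee ((n : ℝ) * x) = ee x ^ n := by
  induction n with
  | zero =>
    have := ee_int 0
    rw [Nat.cast_zero, zero_mul, pow_zero]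
    simpa using this
  | succ n ih => rw [Nat.cast_add, Nat.cast_one, add_mul, one_mul, ee_add, ih, pow_succ]

lemma exists_ee_pow_ne {m : ℤ} (hm : m ≠ 0) {p : ℕ} (hp : 0 < p) :
    ∃ r : ℝ, ee (m * r) ^ p ≠ 1 := by
  have hpm : (p : ℤ) * m ≠ 0 := mul_ne_zero (by exact_mod_cast hp.ne') hm
  obtain ⟨r, hr⟩ := exists_ee_ne hpm
  refine ⟨r, ?_⟩
  rw [← ee_nat]
  intro h
  apply hr
  rw [← h]
  congr 1
  push_cast
  ring

variable {G : Type} [Group G] [TopologicalSpace G] [IsTopologicalGroup G]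

lemma circ2 {Γ : Subgroup G} {a b : G} (herg : JErg Γ a b)
    (φ φ' : G → ℂ) (hn : ∀ a, ‖φ a‖ = 1) (hm : ∀ a b, φ (a * b) = φ a * φ b)
    (hc : Continuous φ) (hΓ : ∀ γ ∈ Γ, φ γ = 1)
    (hn' : ∀ a, ‖φ' a‖ = 1) (hm' : ∀ a b, φ' (a * b) = φ' a * φ' b)
    (hc' : Continuous φ') (hΓ' : ∀ γ ∈ Γ, φ' γ = 1) (hg : φ a * φ' b = 1) :
    (∀ c, φ c = 1) ∧ ∀ c, φ' c = 1 := by
  let χ : G →* Circle := MonoidHom.mk'
    (fun a => (⟨φ a, mem_sphere_zero_iff_norm.2 (hn a)⟩ : Circle))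
    (fun a b => Subtype.ext (hm a b))
  let χ' : G →* Circle := MonoidHom.mk'
    (fun a => (⟨φ' a, mem_sphere_zero_iff_norm.2 (hn' a)⟩ : Circle))
    (fun a b => Subtype.ext (hm' a b))
  obtain ⟨h, h'⟩ := herg χ χ' (hc.subtype_mk _) (hc'.subtype_mk _)
    (fun γ hγ => Subtype.ext (hΓ γ hγ)) (fun γ hγ => Subtype.ext (hΓ' γ hγ)) (Subtype.ext hg)
  exact ⟨fun c => congrArg (fun f : G →* Circle => ((f c : Circle) : ℂ)) h,
    fun c => congrArg (fun f : G →* Circle => ((f c : Circle) : ℂ)) h'⟩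

lemma erg_left {Γ : Subgroup G} {a b : G} (herg : JErg Γ a b) : Erg Γ a := by
  intro χ h1 h2 h3
  exact (herg χ 1 h1 continuous_const h2 (fun _ _ => rfl) (by rw [h3, MonoidHom.one_apply, mul_one])).1

lemma erg_right {Γ : Subgroup G} {a b : G} (herg : JErg Γ a b) : Erg Γ b := by
  intro χ h1 h2 h3
  exact (herg 1 χ continuous_const h1 (fun _ _ => rfl) h2 (by rw [h3, MonoidHom.one_apply, mul_one])).2

section dl

/-- the character of the first factor -/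
noncomputable def dl (F : G × G → ℂ) (x0 : G × G) (p : ℕ) (c : G) : ℂ := ch F x0 (c, 1) ^ p

/-- the character of the second factor -/
noncomputable def dr (F : G × G → ℂ) (x0 : G × G) (q : ℕ) (c : G) : ℂ := ch F x0 (1, c) ^ q

omit [TopologicalSpace G] [IsTopologicalGroup G] in
lemma dl_eq (F : G × G → ℂ) (x0 : G × G) (p : ℕ) (c : G) :
    dl F x0 p c = delta F x0 p 0 c := by rw [dl, delta, pow_zero, mul_one]

omit [TopologicalSpace G] [IsTopologicalGroup G] in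
lemma dr_eq (F : G × G → ℂ) (x0 : G × G) (q : ℕ) (c : G) :
    dr F x0 q c = delta F x0 0 q c := by rw [dr, delta, pow_zero, one_mul]

end dl

variable {A : ℕ → Subgroup G} (hanti : Antitone A)
    (hcomm : ∀ i j, ⁅A i, A j⁆ ≤ A (i + j)) (h1 : A 1 = ⊤)
    (hlow : ∀ s, 1 ≤ s → A (s + 1) ≤ ⁅(⊤ : Subgroup G), A s⁆)
    {Γ : Subgroup G} {es : ℕ → List (ℝ → G)}
    (hes : ∀ s, 1 ≤ s → ∀ e ∈ es s, IsOneP e ∧ e 1 ∈ Γ ∧ ∀ r, e r ∈ A s)
    (hgen : ∀ s, 1 ≤ s → A s ≤ Subgroup.closure {x | ∃ e ∈ es s, ∃ r, x = e r} ⊔ A (s + 1))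
    {a b : G} (herg : JErg Γ a b) {p q : ℕ} (hp : 0 < p) (hq : 0 < q)

include hp hq in
/-- a good function has a nontrivial character -/
lemma good_contra {s : ℕ} {F : G × G → ℂ} {x0 : G × G} (hx0 : F x0 ≠ 0)
    (hgood : Good (prodEs es) s F) (hes : ∀ e ∈ es s, ∀ r, e r ∈ A s)
    (hl : ∀ c ∈ A s, delta F x0 p 0 c = 1) (hr : ∀ c ∈ A s, delta F x0 0 q c = 1) : False := by
  obtain ⟨z, hz, m, hm, hfreq⟩ := hgood
  rcases mem_prodEs.1 hz with ⟨e, he, rfl⟩ | ⟨e, he, rfl⟩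
  · obtain ⟨r, hr'⟩ := exists_ee_pow_ne hm hp
    apply hr'
    have h2 := hl (e r) (hes e he r)
    have h3 := hfreq r x0
    beta_reduce at h3
    rw [← dl_eq, dl, ch, h3, mul_div_cancel_right₀ _ hx0] at h2
    exact h2
  · obtain ⟨r, hr'⟩ := exists_ee_pow_ne hm hq
    apply hr'
    have h2 := hr (e r) (hes e he r)
    have h3 := hfreq r x0
    beta_reduce at h3
    rw [← dr_eq, dr, ch, h3, mul_div_cancel_right₀ _ hx0] at h2
    exact h2

include hcomm h1 hes hgen herg hp hq in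
theorem pair_alpha (F : G × G → ℂ) (hF : Lev (prodA A) (Γ.prod Γ) (prodEs es) 1 F)
    (hgood : Good (prodEs es) 1 F) (hne : ∃ x, F x ≠ 0) :
    ∃ x, F ((a ^ p, b ^ q) * x) ≠ F x := by
  by_contra hcon
  push Not at hcon
  obtain ⟨x0, hx0⟩ := hne
  have hscal : prodA A 1 ≤ scal F := fun z hz =>
    lev_char (prodA A) (Γ.prod Γ) (prodEs es) 1 (prod_gen 1 (hgen 1 le_rfl)) F hF z hz
  have htop : ∀ c : G, c ∈ A 1 := fun c => by rw [h1]; trivial
  have hab : delta F x0 p 0 a * delta F x0 0 q b = 1 := by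
    have h2 := ch_of_fix hx0 (hcon x0)
    have h3 : ((a ^ p, b ^ q) : G × G) = (a, 1) ^ p * (1, b) ^ q := by
      rw [Prod.pow_mk, Prod.pow_mk, Prod.mk_mul_mk, one_pow, one_pow, mul_one, one_mul]
    rw [h3, ch_mul hx0 ((scal F).pow_mem (left_mem hscal (htop a)) p)
      ((scal F).pow_mem (right_mem hscal (htop b)) q), ch_pow hx0 (left_mem hscal (htop a)),
      ch_pow hx0 (right_mem hscal (htop b))] at h2
    rw [← dl_eq, ← dr_eq, dl, dr]
    exact h2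
  obtain ⟨h2, h3⟩ := circ2 herg (delta F x0 p 0) (delta F x0 0 q)
    (fun a => delta_norm hx0 hscal _ _ (htop a))
    (fun a b => delta_mul hx0 hscal _ _ (htop a) (htop b))
    (delta_cont hF.1.1 x0 _ _)
    (fun γ hγ => delta_gamma hcomm h1 hx0 hF _ _ hγ (htop γ))
    (fun a => delta_norm hx0 hscal _ _ (htop a))
    (fun a b => delta_mul hx0 hscal _ _ (htop a) (htop b))
    (delta_cont hF.1.1 x0 _ _)
    (fun γ hγ => delta_gamma hcomm h1 hx0 hF _ _ hγ (htop γ)) hab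
  exact good_contra hp hq hx0 hgood (fun e he r => htop _) (fun c _ => h2 c) (fun c _ => h3 c)

include hanti hcomm h1 hlow hes hgen herg hp hq in
theorem pair_beta (s : ℕ) (hs : 1 ≤ s) (F : G × G → ℂ)
    (hF : Lev (prodA A) (Γ.prod Γ) (prodEs es) (s + 1) F)
    (hgood : Good (prodEs es) (s + 1) F) (hne : ∃ x, F x ≠ 0) :
    ∃ z ∈ prodEs es s, ∃ r x,
      F ((a ^ p, b ^ q) * z r * (a ^ p, b ^ q)⁻¹ * (z r)⁻¹ * x) ≠ F x := by
  by_contra hcon
  push Not at hcon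
  obtain ⟨x0, hx0⟩ := hne
  have hscal : prodA A (s + 1) ≤ scal F := fun z hz =>
    lev_char (prodA A) (Γ.prod Γ) (prodEs es) (s + 1) (prod_gen (s + 1) (hgen (s + 1) (by omega)))
      F hF z hz
  have hL : ∀ c ∈ A (s + 1), delta F x0 p 0 c = 1 := by
    refine core hanti hcomm h1 hlow hes hgen (erg_left herg) s hs (delta F x0 p 0)
      (delta_cont hF.1.1 x0 _ _) (fun c hc => delta_norm hx0 hscal _ _ hc)
      (fun c hc c' hc' => delta_mul hx0 hscal _ _ hc hc') (fun c hc => delta_triv hx0 hF _ _ hc)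
      (fun c hc hc' => delta_gamma hcomm h1 hx0 hF _ _ hc hc') ?_
    intro e he r
    obtain ⟨⟨he1, he2⟩, he3, he4⟩ := hes s hs e he
    have hc := hcon _ (mem_prodEs.2 (Or.inl ⟨e, he, rfl⟩)) r x0
    beta_reduce at hc
    have hprod : (((a ^ p, b ^ q) : G × G) * (e r, 1) * (a ^ p, b ^ q)⁻¹ * (e r, 1)⁻¹) =
        ((a ^ p * e r * (a ^ p)⁻¹ * (e r)⁻¹, 1) : G × G) := by
      simp only [Prod.mk_mul_mk, Prod.inv_mk, mul_one, inv_one, mul_inv_cancel]
    rw [hprod] at hc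
    have hc2 := ch_of_fix hx0 hc
    have hm1 : ∀ c ∈ A (s + 1), ∀ c' ∈ A (s + 1),
        (fun c => ch F x0 (c, 1)) (c * c') =
          (fun c => ch F x0 (c, 1)) c * (fun c => ch F x0 (c, 1)) c' :=
      fun c hc c' hc' => ch_left_mul hx0 hscal hc hc'
    have ht1 : ∀ c ∈ A (s + 2), (fun c => ch F x0 (c, 1)) c = 1 :=
      fun c hc => ch_left_triv hx0 hF hc
    have a1 := bim_pow_left hcomm h1 hm1 ht1 a (he4 r) p
    beta_reduce at a1
    rw [a1] at hc2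
    rw [← dl_eq, dl]
    exact hc2
  have hR : ∀ c ∈ A (s + 1), delta F x0 0 q c = 1 := by
    refine core hanti hcomm h1 hlow hes hgen (erg_right herg) s hs (delta F x0 0 q)
      (delta_cont hF.1.1 x0 _ _) (fun c hc => delta_norm hx0 hscal _ _ hc)
      (fun c hc c' hc' => delta_mul hx0 hscal _ _ hc hc') (fun c hc => delta_triv hx0 hF _ _ hc)
      (fun c hc hc' => delta_gamma hcomm h1 hx0 hF _ _ hc hc') ?_
    intro e he r
    obtain ⟨⟨he1, he2⟩, he3, he4⟩ := hes s hs e he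
    have hc := hcon _ (mem_prodEs.2 (Or.inr ⟨e, he, rfl⟩)) r x0
    beta_reduce at hc
    have hprod : (((a ^ p, b ^ q) : G × G) * (1, e r) * (a ^ p, b ^ q)⁻¹ * (1, e r)⁻¹) =
        ((1, b ^ q * e r * (b ^ q)⁻¹ * (e r)⁻¹) : G × G) := by
      simp only [Prod.mk_mul_mk, Prod.inv_mk, mul_one, inv_one, mul_inv_cancel]
    rw [hprod] at hc
    have hc2 := ch_of_fix hx0 hc
    have hm1 : ∀ c ∈ A (s + 1), ∀ c' ∈ A (s + 1),
        (fun c => ch F x0 (1, c)) (c * c') =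
          (fun c => ch F x0 (1, c)) c * (fun c => ch F x0 (1, c)) c' :=
      fun c hc c' hc' => ch_right_mul hx0 hscal hc hc'
    have ht1 : ∀ c ∈ A (s + 2), (fun c => ch F x0 (1, c)) c = 1 :=
      fun c hc => ch_right_triv hx0 hF hc
    have a1 := bim_pow_left hcomm h1 hm1 ht1 b (he4 r) q
    beta_reduce at a1
    rw [a1] at hc2
    rw [← dr_eq, dr]
    exact hc2
  exact good_contra hp hq hx0 hgood (fun e he r => (hes (s + 1) (by omega) e he).2.2 r) hL hR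

end Pr2

/-- M3b (file FPair.lean) -/
theorem sys_pair {G : Type} [Group G] [TopologicalSpace G] [IsTopologicalGroup G]
    (A : ℕ → Subgroup G) (hanti : Antitone A)
    (hcomm : ∀ i j, ⁅A i, A j⁆ ≤ A (i + j)) (h1 : A 1 = ⊤)
    (hlow : ∀ s, 1 ≤ s → A (s + 1) ≤ ⁅(⊤ : Subgroup G), A s⁆)
    (Γ : Subgroup G) (hC : Cocompact' Γ) (es : ℕ → List (ℝ → G))
    (hes : ∀ s, 1 ≤ s → ∀ e ∈ es s, IsOneP e ∧ e 1 ∈ Γ ∧ ∀ r, e r ∈ A s)
    (hgen : ∀ s, 1 ≤ s → A s ≤ Subgroup.closure {x | ∃ e ∈ es s, ∃ r, x = e r} ⊔ A (s + 1))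
    (a b : G) (herg : JErg Γ a b) (p q : ℕ) (hp : 0 < p) (hq : 0 < q) :
    Sys (prodA A) (Γ.prod Γ) ((a ^ p, b ^ q) : G × G) (prodEs es) (prodEs es) where
  anti := Prd.prod_anti hanti
  comm := Prd.prod_comm hcomm
  one := Prd.prod_one h1
  cocomp := Prd.prod_cocomp hC
  es_onep := fun s hs => Prd.prod_es hes s hs
  zs_onep := fun s hs e he => ⟨(Prd.prod_es hes s hs e he).1, (Prd.prod_es hes s hs e he).2.2⟩
  gen := fun s hs => Prd.prod_gen s (hgen s hs)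
  zfreq := fun s _ z hz F hF => hF.2.2 z hz
  alpha := fun F hF hg hne => Pr2.pair_alpha hcomm h1 hes hgen herg hp hq F hF hg hne
  beta := fun s hs F hF hg hne => Pr2.pair_beta hanti hcomm h1 hlow hes hgen herg hp hq s hs F hF
    hg hne

end Pool.Agent.Lib.MP_663568_nt.Fib
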