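import Mathlib
import Pool.Agent.Lib.MP_663568_nt_h86.FLoc
import Pool.Agent.Lib.MP_663568_nt_h86.FProd
import Pool.Agent.Lib.MP_663568_nt_h86.FPair
import Pool.Agent.Lib.MP_663568_nt_h86.FGlob
import Pool.Agent.Lib.MP_663568_nt_h86.FCalc

/-! # The uniform estimate for functions with a nontrivial vertical character -/

set_option autoImplicit false
open Finset

namespace Pool.Agent.Lib.MP_663568_nt.Fib

open Katai Tw

variable {G : Type} [Group G] [TopologicalSpace G] [IsTopologicalGroup G]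

/-- sum of the reciprocals of the primes -/
lemma primes_div : ¬ Summable (({p : ℕ | p.Prime}).indicator (fun p : ℕ => (1 : ℝ) / p)) :=
  by simpa using not_summable_one_div_on_primes

omit [TopologicalSpace G] [IsTopologicalGroup G] in
lemma freq_of_char {A : ℕ → Subgroup G} {s : ℕ} {e : ℝ → G} (he : ∀ r, e r ∈ A s) {m : ℤ}
    {F f : G → ℂ} (hF : Freq e m F)
    (h : ∀ z ∈ A s, ∀ c : ℂ, (∀ y, F (z * y) = c * F y) → ∀ y, f (z * y) = c * f y) :
    Freq e m f := fun r x => h (e r) (he r) _ (fun y => hF r y) x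

theorem char_unif (A : ℕ → Subgroup G) (hanti : Antitone A)
    (hcomm : ∀ i j, ⁅A i, A j⁆ ≤ A (i + j)) (h0 : A 0 = ⊤) (h1 : A 1 = ⊤)
    (hlow : ∀ s, 1 ≤ s → A (s + 1) ≤ ⁅(⊤ : Subgroup G), A s⁆)
    (Γ : Subgroup G) (hΓ : IsClosed (Γ : Set G)) (hC : Coc A Γ) (es : ℕ → List (ℝ → G))
    (hes : ∀ s, 1 ≤ s → ∀ e ∈ es s, IsOneP e ∧ e 1 ∈ Γ ∧ ∀ r, e r ∈ A s)
    (hgen : ∀ s, 1 ≤ s → A s ≤ Subgroup.closure {x | ∃ e ∈ es s, ∃ r, x = e r} ⊔ A (s + 1))
    (K : Set G) (hK : IsCompact K) (hKe : ∀ a ∈ K, Erg Γ a)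
    (hKj : ∀ a ∈ K, ∀ b ∈ K, a ≠ b → JErg Γ a b)
    (s : ℕ) (hs : 1 ≤ s) (F : G → ℂ) (hF : Lev A Γ es s F) (hG : Good es s F) :
    UnifOn (A 2) F K := by
  classical
  have hCo := cocompact_of_coc h0 hC
  -- normalise
  obtain ⟨B, hB0, hB⟩ := reg_bdd hCo hF.1
  have hBne : (B : ℂ) ≠ 0 := by exact_mod_cast hB0.ne'
  set F' : G → ℂ := fun x => (B : ℂ)⁻¹ * F x with hF'
  have hF'L : Lev A Γ es s F' := by
    refine ⟨reg_const_mul hF.1 _, fun z hz x => ?_, fun e he => ?_⟩
    · simp only [hF']; rw [hF.2.1 z hz x]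
    · obtain ⟨m, hm⟩ := hF.2.2 e he
      exact ⟨m, hm.mul_const _⟩
  have hF'1 : ∀ x, ‖F' x‖ ≤ 1 := by
    intro x
    simp only [hF']
    rw [norm_mul, norm_inv, Complex.norm_real, Real.norm_eq_abs, abs_of_pos hB0,
      inv_mul_le_iff₀ hB0, mul_one]
    exact hB x
  obtain ⟨e, he, m, hm0, hm⟩ := hG
  have hm' : Freq e m F' := hm.mul_const _
  have heA : ∀ r, e r ∈ A s := (hes s hs e he).2.2
  have key : UnifOn (A 2) F' K := by
    intro ε hε
    obtain ⟨P, hPsub, η, hη, hmain⟩ := logarithmic' {p : ℕ | p.Prime} (fun p hp => hp) primes_div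
      muC norm_muC (fun p hp m hm => muC_mul p hp m hm) ε hε
    obtain ⟨L, hL0, W, hW1, hW2, hW⟩ := glob_orth F' hF'1 (A 2) K hK P (by
      intro p hp q hq hpq a ha b hb η' hη'
      have hpp : p.Prime := hPsub hp
      have hqp : q.Prime := hPsub hq
      by_cases hab : a = b
      · subst hab
        refine loc_orth A hanti hcomm h0 h1 Γ hΓ hC es s hs (hes s hs) (hgen s hs) F' hF'L hF'1
          a a p q (prodZs p q es)
          (sys_prod A hanti hcomm h1 hlow Γ hCo es hes hgen a (hKe a ha) p q hpp.pos hqp.pos)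
          ?_ η' hη'
        intro f f' _ _ hf hf'
        have g1 := freq_of_char heA hm' hf
        have g2 := freq_of_char heA hm' hf'
        refine ⟨fun r => (e ((p : ℝ) ^ s * r), e ((q : ℝ) ^ s * r)), ?_,
          m * ((p : ℤ) ^ s - (q : ℤ) ^ s), ?_, ?_⟩
        · rw [prodZs, List.mem_map]; exact ⟨e, he, rfl⟩
        · apply mul_ne_zero hm0
          rw [sub_ne_zero]
          intro h
          have h' : p ^ s = q ^ s := by exact_mod_cast h
          exact hpq (Nat.pow_left_injective (by omega : s ≠ 0) h')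
        · intro r x
          simp only [Prod.fst_mul, Prod.snd_mul]
          rw [g1, g2, map_mul, conj_ee]
          have e3 : ee (((m * ((p : ℤ) ^ s - (q : ℤ) ^ s) : ℤ) : ℝ) * r) =
              ee ((m : ℝ) * ((p : ℝ) ^ s * r)) * ee (-((m : ℝ) * ((q : ℝ) ^ s * r))) := by
            rw [← ee_add]; congr 1; push_cast; ring
          rw [e3]; ring
      · refine loc_orth A hanti hcomm h0 h1 Γ hΓ hC es s hs (hes s hs) (hgen s hs) F' hF'L hF'1
          a b p q (prodEs es)
          (sys_pair A hanti hcomm h1 hlow Γ hCo es hes hgen a b (hKj a ha b hb hab) p q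
            hpp.pos hqp.pos)
          ?_ η' hη'
        intro f f' _ _ hf hf'
        have g1 := freq_of_char heA hm' hf
        refine ⟨fun r => (e r, 1), ?_, m, hm0, ?_⟩
        · rw [prodEs, List.mem_append, List.mem_map]; exact Or.inl ⟨e, he, rfl⟩
        · intro r x
          simp only [Prod.fst_mul, Prod.snd_mul, one_mul]
          rw [g1]; ring) η hη
    exact ⟨W, hW1, hW2, hmain L hL0 _ (orb (A 2) W F') (fun i n => hF'1 _) hW⟩
  have h2 := unifOn_const_mul (A 2) F' K key (B : ℂ) ⟨1, hF'1⟩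
  have e1 : (fun x => (B : ℂ) * F' x) = F := by
    funext x
    simp only [hF']
    field_simp
  rwa [e1] at h2

end Pool.Agent.Lib.MP_663568_nt.Fib
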