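import Mathlib
import Pool.Agent.Lib.MP_663568_nt_h86.FDefs
import Pool.Agent.Lib.MP_663568_nt_h86.Approx

/-!
# The lower central series as a filtration, and cocompactness from one-parameter subgroups
-/

set_option autoImplicit false
open Finset

namespace Pool.Agent.Lib.MP_663568_nt.Fib

open Katai Tw
open scoped commutatorElement

/-- M9a: the filtration by the lower central series -/
theorem lcs_comm {G : Type} [Group G] (i j : ℕ) :
    ⁅(⊤ : Subgroup G).lowerCentralSeries i, (⊤ : Subgroup G).lowerCentralSeries j⁆ ≤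
      (⊤ : Subgroup G).lowerCentralSeries (i + j + 1) := by
  induction j generalizing i with
  | zero =>
    rw [Subgroup.lowerCentralSeries_zero, add_zero, Subgroup.lowerCentralSeries_succ]
  | succ j ih =>
    rw [Subgroup.commutator_comm, Subgroup.lowerCentralSeries_succ]
    set N := (⊤ : Subgroup G).lowerCentralSeries (i + (j + 1) + 1) with hN
    set π := QuotientGroup.mk' N with hπ
    have hle : ∀ K : Subgroup G, K ≤ N ↔ K.map π = ⊥ := by
      intro K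
      rw [Subgroup.map_eq_bot_iff, hπ, QuotientGroup.ker_mk']
    rw [hle, Subgroup.map_commutator, Subgroup.map_commutator]
    apply Subgroup.commutator_commutator_eq_bot_of_rotate
    · rw [← Subgroup.map_commutator, ← Subgroup.map_commutator, ← hle]
      rw [Subgroup.commutator_comm ⊤, ← Subgroup.lowerCentralSeries_succ]
      refine (ih (i + 1)).trans (le_of_eq ?_)
      rw [hN]; congr 1; omega
    · rw [← Subgroup.map_commutator, ← Subgroup.map_commutator, ← hle]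
      refine (Subgroup.commutator_mono (ih i) le_rfl).trans (le_of_eq ?_)
      rw [← Subgroup.lowerCentralSeries_succ, hN]; congr 1

namespace Gen

variable {G : Type} [Group G]

lemma one_zero {e : ℝ → G} (he : ∀ a b : ℝ, e (a + b) = e a * e b) : e 0 = 1 := by
  have h := he 0 0
  rw [add_zero] at h
  exact (mul_eq_left.1 h.symm)

lemma one_neg {e : ℝ → G} (he : ∀ a b : ℝ, e (a + b) = e a * e b) (r : ℝ) :
    e (-r) = (e r)⁻¹ := by
  rw [eq_inv_iff_mul_eq_one, ← he, neg_add_cancel, one_zero he]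

lemma int_mem {Γ : Subgroup G} {e : ℝ → G} (he : ∀ a b : ℝ, e (a + b) = e a * e b)
    (h1 : e 1 ∈ Γ) (n : ℤ) : e (n : ℝ) ∈ Γ := by
  induction n using Int.induction_on with
  | zero => rw [Int.cast_zero, one_zero he]; exact Γ.one_mem
  | succ n ih =>
    rw [Int.cast_add, Int.cast_one, he]
    exact Γ.mul_mem ih h1
  | pred n ih =>
    rw [Int.cast_sub, Int.cast_one, sub_eq_add_neg, he, one_neg he]
    exact Γ.mul_mem ih (Γ.inv_mem h1)

/-- the subgroup generated by a list of one-parameter subgroups and `B` -/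
def Hl (B : Subgroup G) (l : List (ℝ → G)) : Subgroup G :=
  Subgroup.closure {x | ∃ e ∈ l, ∃ r, x = e r} ⊔ B

lemma mem_decomp (A : ℕ → Subgroup G) (hanti : Antitone A)
    (hcomm : ∀ i j, ⁅A i, A j⁆ ≤ A (i + j)) (h1 : A 1 = ⊤) (s : ℕ) (e : ℝ → G)
    (he : ∀ a b : ℝ, e (a + b) = e a * e b) (l : List (ℝ → G))
    (hl : ∀ e' ∈ l, ∀ r, e' r ∈ A s) :
    (∀ y ∈ Hl (A (s + 1)) l, ∀ g : G, g * y * g⁻¹ ∈ Hl (A (s + 1)) l) ∧
    ∀ x ∈ Hl (A (s + 1)) (e :: l), ∃ r : ℝ, ∃ y ∈ Hl (A (s + 1)) l, x = y * e r := by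
  have hsub : Hl (A (s + 1)) l ≤ A s := by
    refine sup_le ?_ (hanti (Nat.le_succ s))
    rw [Subgroup.closure_le]
    rintro x ⟨e', he', r, rfl⟩
    exact hl e' he' r
  have hnorm : ∀ y ∈ Hl (A (s + 1)) l, ∀ g : G, g * y * g⁻¹ ∈ Hl (A (s + 1)) l := by
    intro y hy g
    have h2 : ⁅g, y⁆ ∈ A (s + 1) := by
      have := hcomm 1 s (Subgroup.commutator_mem_commutator (g₁ := g) (g₂ := y)
        (by rw [h1]; trivial) (hsub hy))
      rwa [add_comm 1 s] at this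
    have h3 : g * y * g⁻¹ = ⁅g, y⁆ * y := by
      rw [commutatorElement_def]; group
    rw [h3]
    exact Subgroup.mul_mem _ ((le_sup_right : A (s + 1) ≤ Hl (A (s + 1)) l) h2) hy
  refine ⟨hnorm, ?_⟩
  -- the set of products is a subgroup
  let T : Subgroup G :=
    { carrier := {x | ∃ r : ℝ, ∃ y ∈ Hl (A (s + 1)) l, x = y * e r}
      one_mem' := ⟨0, 1, Subgroup.one_mem _, by rw [one_zero he, mul_one]⟩
      mul_mem' := by
        rintro _ _ ⟨r, y, hy, rfl⟩ ⟨r', y', hy', rfl⟩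
        refine ⟨r + r', y * (e r * y' * (e r)⁻¹), Subgroup.mul_mem _ hy (hnorm y' hy' _), ?_⟩
        rw [he]; group
      inv_mem' := by
        rintro _ ⟨r, y, hy, rfl⟩
        refine ⟨-r, (e r)⁻¹ * y⁻¹ * e r, ?_, ?_⟩
        · have := hnorm y⁻¹ (Subgroup.inv_mem _ hy) (e r)⁻¹
          rwa [inv_inv] at this
        · rw [one_neg he]; group }
  have hT : Hl (A (s + 1)) (e :: l) ≤ T := by
    have hl' : Hl (A (s + 1)) l ≤ T := by
      intro y hy
      exact ⟨0, y, hy, by rw [one_zero he, mul_one]⟩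
    refine sup_le ?_ ((le_sup_right : A (s + 1) ≤ Hl (A (s + 1)) l).trans hl')
    rw [Subgroup.closure_le]
    rintro x ⟨e', he', r, rfl⟩
    rcases List.mem_cons.1 he' with rfl | h
    · exact ⟨r, 1, Subgroup.one_mem _, by rw [one_mul]⟩
    · apply hl'
      exact (le_sup_left : _ ≤ Hl (A (s + 1)) l) (Subgroup.subset_closure ⟨e', h, r, rfl⟩)
  intro x hx
  exact hT hx

lemma list_coc [TopologicalSpace G] [IsTopologicalGroup G] (A : ℕ → Subgroup G)
    (hanti : Antitone A) (hcomm : ∀ i j, ⁅A i, A j⁆ ≤ A (i + j)) (h1 : A 1 = ⊤) (s : ℕ)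
    (Γ : Subgroup G)
    (hC : ∃ C : Set G, IsCompact C ∧ (∀ c ∈ C, c ∈ A (s + 1)) ∧
      ∀ x ∈ A (s + 1), ∃ c ∈ C, ∃ γ ∈ Γ, x = c * γ)
    (l : List (ℝ → G)) (hl : ∀ e ∈ l, IsOneP e ∧ e 1 ∈ Γ ∧ ∀ r, e r ∈ A s) :
    ∃ C : Set G, IsCompact C ∧ (∀ c ∈ C, c ∈ A s) ∧
      ∀ x ∈ Hl (A (s + 1)) l, ∃ c ∈ C, ∃ γ ∈ Γ, x = c * γ := by
  induction l with
  | nil =>
    obtain ⟨C, h2, h3, h4⟩ := hC
    refine ⟨C, h2, fun c hc => hanti (Nat.le_succ s) (h3 c hc), ?_⟩
    intro x hx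
    apply h4
    have : Hl (A (s + 1)) [] ≤ A (s + 1) := by
      refine sup_le ?_ le_rfl
      rw [Subgroup.closure_le]
      rintro x ⟨e', he', r, rfl⟩
      simp at he'
    exact this hx
  | cons e l ih =>
    obtain ⟨C, h2, h3, h4⟩ := ih (fun e' he' => hl e' (List.mem_cons_of_mem _ he'))
    obtain ⟨⟨hec, hea⟩, he1, heA⟩ := hl e List.mem_cons_self
    have hdec := mem_decomp A hanti hcomm h1 s e hea l
      (fun e' he' => (hl e' (List.mem_cons_of_mem _ he')).2.2)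
    have hcont : Continuous (fun p : ℝ × G => e p.1 * p.2) :=
      (hec.comp continuous_fst).mul continuous_snd
    refine ⟨(fun p : ℝ × G => e p.1 * p.2) '' (Set.Icc (0 : ℝ) 1 ×ˢ C),
      (isCompact_Icc.prod h2).image hcont, ?_, ?_⟩
    · rintro _ ⟨⟨r, c⟩, ⟨_, hc⟩, rfl⟩
      exact (A s).mul_mem (heA r) (h3 c hc)
    · intro x hx
      obtain ⟨r, y, hy, rfl⟩ := hdec.2 x hx
      have hy' : (e (Int.fract r))⁻¹ * y * e (Int.fract r) ∈ Hl (A (s + 1)) l := by
        have := hdec.1 y hy (e (Int.fract r))⁻¹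
        rwa [inv_inv] at this
      obtain ⟨c, hc, γ, hγ, hcγ⟩ := h4 _ hy'
      refine ⟨e (Int.fract r) * c, ⟨(Int.fract r, c),
        ⟨⟨Int.fract_nonneg r, (Int.fract_lt_one r).le⟩, hc⟩, rfl⟩,
        γ * e ((⌊r⌋ : ℤ) : ℝ), Γ.mul_mem hγ (int_mem hea he1 _), ?_⟩
      have h5 : y = e (Int.fract r) * (c * γ) * (e (Int.fract r))⁻¹ := by
        rw [← hcγ]; group
      have h6 : e r = e (Int.fract r) * e ((⌊r⌋ : ℤ) : ℝ) := by
        rw [← hea, Int.fract_add_floor]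
      rw [h5, h6]
      group

end Gen

/-- M9b: cocompactness from one-parameter subgroups -/
theorem coc_of_gen {G : Type} [Group G] [TopologicalSpace G] [IsTopologicalGroup G]
    (A : ℕ → Subgroup G) (hanti : Antitone A)
    (hcomm : ∀ i j, ⁅A i, A j⁆ ≤ A (i + j)) (h1 : A 1 = ⊤) (t : ℕ) (ht : A (t + 1) = ⊥)
    (Γ : Subgroup G) (es : ℕ → List (ℝ → G))
    (hes : ∀ s, 1 ≤ s → ∀ e ∈ es s, IsOneP e ∧ e 1 ∈ Γ ∧ ∀ r, e r ∈ A s)
    (hgen : ∀ s, 1 ≤ s → A s ≤ Subgroup.closure {x | ∃ e ∈ es s, ∃ r, x = e r} ⊔ A (s + 1)) :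
    Coc A Γ := by
  -- trivial terms
  have htriv : ∀ s, t + 1 ≤ s → ∃ C : Set G, IsCompact C ∧ (∀ c ∈ C, c ∈ A s) ∧
      ∀ x ∈ A s, ∃ c ∈ C, ∃ γ ∈ Γ, x = c * γ := by
    intro s hs
    refine ⟨{1}, isCompact_singleton, ?_, ?_⟩
    · intro c hc
      rw [Set.mem_singleton_iff.1 hc]
      exact (A s).one_mem
    · intro x hx
      have h2 : x ∈ A (t + 1) := hanti hs hx
      rw [ht, Subgroup.mem_bot] at h2
      exact ⟨1, rfl, 1, Γ.one_mem, by rw [h2, one_mul]⟩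
  have hmain : ∀ d s, 1 ≤ s → s + d = t + 1 → ∃ C : Set G, IsCompact C ∧ (∀ c ∈ C, c ∈ A s) ∧
      ∀ x ∈ A s, ∃ c ∈ C, ∃ γ ∈ Γ, x = c * γ := by
    intro d
    induction d with
    | zero =>
      intro s _ hs'
      exact htriv s (by omega)
    | succ d ih =>
      intro s hs hs'
      obtain ⟨C, h2, h3, h4⟩ := Gen.list_coc A hanti hcomm h1 s Γ
        (ih (s + 1) (by omega) (by omega)) (es s) (hes s hs)
      exact ⟨C, h2, h3, fun x hx => h4 x (hgen s hs hx)⟩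
  have hpos : ∀ s, 1 ≤ s → ∃ C : Set G, IsCompact C ∧ (∀ c ∈ C, c ∈ A s) ∧
      ∀ x ∈ A s, ∃ c ∈ C, ∃ γ ∈ Γ, x = c * γ := by
    intro s hs
    rcases le_or_gt (t + 1) s with h | h
    · exact htriv s h
    · exact hmain (t + 1 - s) s hs (by omega)
  intro s
  rcases Nat.eq_zero_or_pos s with rfl | hs
  · have h0 : A 0 = A 1 := by
      rw [h1]
      exact top_le_iff.1 (h1 ▸ hanti (Nat.zero_le 1))
    rw [h0]
    exact hpos 1 le_rfl
  · exact hpos s hs

end Pool.Agent.Lib.MP_663568_nt.Fib
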