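import Mathlib
import Pool.Agent.Lib.MP_663568_nt_h86.FLev

/-! # Functions with a nonzero frequency have mean zero -/

set_option autoImplicit false
open Finset MeasureTheory

namespace Pool.Agent.Lib.MP_663568_nt.Fib

open Katai

section

variable {G : Type} [Group G] [TopologicalSpace G] [IsTopologicalGroup G]

/-- M10 (file FMean.lean) -/
theorem mean_zero (Γ : Subgroup G) [MeasurableSpace (G ⧸ Γ)] [BorelSpace (G ⧸ Γ)]
    (m : Measure (G ⧸ Γ)) (hm : ∀ g : G, m.map (fun x => g • x) = m)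
    (F : G ⧸ Γ → ℂ) (hF : Continuous F) (z : ℝ → G) (k : ℤ) (hk : k ≠ 0)
    (h : ∀ (r : ℝ) (x : G ⧸ Γ), F (z r • x) = ee (k * r) * F x) : ∫ x, F x ∂m = 0 := by
  have hk' : (k : ℝ) ≠ 0 := by exact_mod_cast hk
  set r : ℝ := 1 / (2 * k) with hr
  have h1 : ee (k * r) = -1 := by
    have e1 : (k : ℝ) * r = 1 / 2 := by rw [hr]; field_simp
    rw [e1, ee]
    have e2 : (2 * Real.pi * Complex.I * ((1 / 2 : ℝ) : ℂ)) = Real.pi * Complex.I := by
      push_cast; ring
    rw [e2, Complex.exp_pi_mul_I]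
  have h2 : ∫ x, F x ∂m = ∫ x, F (z r • x) ∂m := by
    conv_lhs => rw [← hm (z r)]
    rw [integral_map]
    · exact (continuous_const_smul (z r)).measurable.aemeasurable
    · exact hF.aestronglyMeasurable
  have h3 : ∫ x, F (z r • x) ∂m = - ∫ x, F x ∂m := by
    rw [← integral_neg]
    congr 1
    funext x
    rw [h, h1, neg_one_mul]
  have h4 : ∫ x, F x ∂m = - ∫ x, F x ∂m := h2.trans h3
  exact self_eq_neg.mp h4

end

end Pool.Agent.Lib.MP_663568_nt.Fib
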