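import Mathlib
import Pool.Agent.Lib.MP_663568_nt_h86.FChar
import Pool.Agent.Lib.MP_663568_nt_h86.FLower
import Pool.Agent.Lib.MP_663568_nt_h86.FDecomp
import Pool.Agent.Lib.MP_663568_nt_h86.FMean

/-! # Assembly: the uniform estimate for all `g` with horizontal part near a compact set -/

set_option autoImplicit false
open Finset MeasureTheory

namespace Pool.Agent.Lib.MP_663568_nt.Fib

open Katai Tw

section lower

variable {G : Type} [Group G]

/-- the lower central series, indexed from one -/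
def lcs (G : Type) [Group G] (i : ℕ) : Subgroup G := (⊤ : Subgroup G).lowerCentralSeries (i - 1)

lemma lcs_zero : lcs G 0 = ⊤ := rfl

lemma lcs_one : lcs G 1 = ⊤ := rfl

lemma lcs_two : lcs G 2 = commutator G := Subgroup.top_lowerCentralSeries_one

lemma lcs_anti : Antitone (lcs G) := fun i j hij =>
  (⊤ : Subgroup G).lowerCentralSeries_antitone (by omega)

lemma lcs_comm' (i j : ℕ) : ⁅lcs G i, lcs G j⁆ ≤ lcs G (i + j) := by
  have hnorm : ∀ i, (lcs G i).Normal := fun i => by unfold lcs; infer_instance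
  rcases Nat.eq_zero_or_pos i with rfl | hi
  · rw [zero_add, lcs_zero]
    have := hnorm j
    exact Subgroup.commutator_le_right _ _
  rcases Nat.eq_zero_or_pos j with rfl | hj
  · rw [add_zero, lcs_zero]
    have := hnorm i
    exact Subgroup.commutator_le_left _ _
  · have := lcs_comm (G := G) (i - 1) (j - 1)
    unfold lcs
    rwa [show i + j - 1 = (i - 1) + (j - 1) + 1 by omega]

lemma lcs_low (s : ℕ) (hs : 1 ≤ s) : lcs G (s + 1) ≤ ⁅(⊤ : Subgroup G), lcs G s⁆ := by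
  unfold lcs
  rw [show s + 1 - 1 = (s - 1) + 1 by omega, Subgroup.lowerCentralSeries_succ,
    Subgroup.commutator_comm]

end lower

section

variable {G : Type} [Group G] [TopologicalSpace G] [IsTopologicalGroup G]

omit [IsTopologicalGroup G] in
/-- functions on the quotient -/
lemma exists_descend {Γ : Subgroup G} {F : G → ℂ} (hF : Reg Γ F) :
    ∃ F' : G ⧸ Γ → ℂ, Continuous F' ∧ ∀ x : G, F' (x : G ⧸ Γ) = F x := by
  refine ⟨Quotient.lift F ?_, ?_, fun x => rfl⟩
  · intro a b hab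
    have h1 : a⁻¹ * b ∈ Γ := QuotientGroup.leftRel_apply.mp hab
    have := hF.2 a _ h1
    rw [mul_inv_cancel_left] at this
    exact this.symm
  · exact hF.1.quotient_lift _

/-- the uniform estimate for a function of mean zero -/
theorem unifOn_mean_zero (A : ℕ → Subgroup G) (hanti : Antitone A)
    (hcomm : ∀ i j, ⁅A i, A j⁆ ≤ A (i + j)) (h0 : A 0 = ⊤) (h1 : A 1 = ⊤)
    (hlow : ∀ s, 1 ≤ s → A (s + 1) ≤ ⁅(⊤ : Subgroup G), A s⁆)
    (t : ℕ) (ht : A (t + 1) = ⊥)
    (Γ : Subgroup G) (hΓ : IsClosed (Γ : Set G)) (hC : Coc A Γ) (es : ℕ → List (ℝ → G))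
    (hes : ∀ s, 1 ≤ s → ∀ e ∈ es s, IsOneP e ∧ e 1 ∈ Γ ∧ ∀ r, e r ∈ A s)
    (hgen : ∀ s, 1 ≤ s → A s ≤ Subgroup.closure {x | ∃ e ∈ es s, ∃ r, x = e r} ⊔ A (s + 1))
    (K : Set G) (hK : IsCompact K) (hKe : ∀ a ∈ K, Erg Γ a)
    (hKj : ∀ a ∈ K, ∀ b ∈ K, a ≠ b → JErg Γ a b)
    [MeasurableSpace (G ⧸ Γ)] [BorelSpace (G ⧸ Γ)] (m : Measure (G ⧸ Γ)) [IsProbabilityMeasure m]
    (hm : ∀ g : G, m.map (fun x => g • x) = m)
    (f : G ⧸ Γ → ℂ) (hf : Continuous f) (hf0 : ∫ x, f x ∂m = 0) :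
    UnifOn (A 2) (fun x : G => f (x : G ⧸ Γ)) K := by
  classical
  have hCo := cocompact_of_coc h0 hC
  set F0 : G → ℂ := fun x : G => f (x : G ⧸ Γ) with hF0
  have hF0r : Reg Γ F0 := ⟨hf.comp QuotientGroup.continuous_mk, fun x γ hγ => by
    simp only [hF0]
    rw [QuotientGroup.mk_mul_of_mem x hγ]⟩
  have hbd : ∀ {F : G → ℂ}, Reg Γ F → ∃ B : ℝ, ∀ x, ‖F x‖ ≤ B := fun {F} hF => by
    obtain ⟨B, _, hB⟩ := reg_bdd hCo hF
    exact ⟨B, hB⟩
  refine unifOn_approx (A 2) F0 K (hbd hF0r) fun ε hε => ?_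
  obtain ⟨ι, hι, lev, F, c, hF1, hF2⟩ := level_decomp A hanti hcomm h1 Γ hCo es hes hgen t F0 hF0r
    (by
      rw [ht]
      intro z hz x
      rw [Subgroup.mem_bot.mp hz, one_mul]) (ε / 2) (by positivity)
  have hc : ‖c‖ ≤ ε / 2 := by
    have hd : ∀ i, ∃ F' : G ⧸ Γ → ℂ, Continuous F' ∧ ∀ x : G, F' (x : G ⧸ Γ) = F i x := fun i =>
      exists_descend (hF1 i).2.1.1
    choose F' hF'c hF' using hd
    have hz : ∀ i, ∫ x, F' i x ∂m = 0 := by
      intro i
      obtain ⟨z, hz, k, hk, hzk⟩ := (hF1 i).2.2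
      refine mean_zero Γ m hm (F' i) (hF'c i) z k hk ?_
      intro r x
      obtain ⟨y, rfl⟩ := QuotientGroup.mk_surjective x
      have : z r • (y : G ⧸ Γ) = ((z r * y : G) : G ⧸ Γ) := rfl
      rw [this, hF', hF', hzk]
    have hcpt : CompactSpace (G ⧸ Γ) := by
      obtain ⟨C, hC1, hC2⟩ := hCo
      refine ⟨?_⟩
      have : (Set.univ : Set (G ⧸ Γ)) = (fun g : G => (g : G ⧸ Γ)) '' C := by
        ext x
        simp only [Set.mem_univ, true_iff]
        obtain ⟨g, rfl⟩ := QuotientGroup.mk_surjective x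
        obtain ⟨c, hc, γ, hγ, e⟩ := hC2 g
        exact ⟨c, hc, (coe_eq_of_mul Γ _ _ _ hγ e).symm⟩
      rw [this]
      exact hC1.image QuotientGroup.continuous_mk
    have hint : ∀ {φ : G ⧸ Γ → ℂ}, Continuous φ → Integrable φ m := fun {φ} hφ => by
      obtain ⟨B, hB⟩ : ∃ B : ℝ, ∀ x, ‖φ x‖ ≤ B := by
        have h1 : IsCompact (Set.range fun x => ‖φ x‖) := isCompact_range (by fun_prop)
        obtain ⟨B, hB⟩ := h1.bddAbove
        exact ⟨B, fun x => hB ⟨x, rfl⟩⟩
      exact Integrable.of_bound hφ.aestronglyMeasurable B (Filter.Eventually.of_forall hB)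
    have e1 : ∫ x, (f x - ∑ i, F' i x - c) ∂m = -c := by
      have i1 : Integrable (fun x => ∑ i, F' i x) m :=
        integrable_finsetSum _ fun i _ => hint (hF'c i)
      have i2 : Integrable (fun x => f x - ∑ i, F' i x) m := (hint hf).sub i1
      rw [integral_sub i2 (integrable_const _), integral_sub (hint hf) i1,
        hf0, integral_finsetSum _ (fun i _ => hint (hF'c i))]
      simp [hz]
    have e2 : ‖∫ x, (f x - ∑ i, F' i x - c) ∂m‖ ≤ ε / 2 := by
      have := norm_integral_le_of_norm_le_const (μ := m) (f := fun x => f x - ∑ i, F' i x - c)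
        (C := ε / 2) (Filter.Eventually.of_forall fun x => by
          obtain ⟨y, rfl⟩ := QuotientGroup.mk_surjective x
          have := hF2 y
          simpa only [hF'] using this)
      simpa using this
    rw [e1, norm_neg] at e2
    exact e2
  refine ⟨ι, hι, F, fun i => ⟨?_, hbd (hF1 i).2.1.1⟩, fun x => ?_⟩
  · exact char_unif A hanti hcomm h0 h1 hlow Γ hΓ hC es hes hgen K hK hKe hKj (lev i) (hF1 i).1
      (F i) (hF1 i).2.1 (hF1 i).2.2
  · calc _ = ‖(F0 x - ∑ i, F i x - c) + c‖ := by congr 1; ring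
      _ ≤ ε / 2 + ε / 2 := (norm_add_le _ _).trans (add_le_add (hF2 x) hc)
      _ = ε := by ring

end

end Pool.Agent.Lib.MP_663568_nt.Fib
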